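import Pool.Agent.H685R2.VST.Top
import Pool.Agent.H671R2.PolyAuto

/-!
# The algorithm runs in polynomial time
-/

namespace Pool.Agent.NPC.H685VST

open Pool.Agent.H685R2.VST

theorem sz_filter_le {α : Type} [TEnc α] (l : List α) (p : α → Bool) :
    sz (l.filter p) ≤ sz l := by
  induction l with
  | nil => simp
  | cons a l ih =>
    rw [List.filter_cons]
    split_ifs
    · rw [sz_list_cons, sz_list_cons]; omega
    · rw [sz_list_cons]; omega

variable {α : Type} [TEnc α]

theorem poly_reachL {R : α → ℕ → ℕ → Bool} {S : α → List ℕ} {x : α → ℕ}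
    (hR : Poly (fun p : α × ℕ × ℕ => R p.1 p.2.1 p.2.2)) (hS : Poly S) (hx : Poly x) :
    Poly (fun a => reachL (R a) (S a) (x a)) := by
  obtain ⟨q, hq⟩ := hS.sz_le
  unfold reachL
  refine Poly.iterLen (l := S) (s := fun a => (S a).filter (fun y => decide (y = x a)))
    (F := fun a L => (S a).filter (fun y => decide (y ∈ L) || L.any (fun z => R a z y)))
    hS ?_ ?_ q ?_
  · fun_prop
  · fun_prop
  · intro a k _
    cases k with
    | zero => exact (sz_filter_le _ _).trans (hq a)
    | succ k =>
      rw [Function.iterate_succ', Function.comp_apply]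
      exact (sz_filter_le _ _).trans (hq a)

attribute [fun_prop] poly_reachL
attribute [local irreducible] reachL

theorem poly_compL {R : α → ℕ → ℕ → Bool} {S : α → List ℕ} {x : α → ℕ}
    (hR : Poly (fun p : α × ℕ × ℕ => R p.1 p.2.1 p.2.2)) (hS : Poly S) (hx : Poly x) :
    Poly (fun a => compL (R a) (S a) (x a)) := by
  unfold compL
  fun_prop

attribute [fun_prop] poly_compL
attribute [local irreducible] compL

theorem poly_headsL {R : α → ℕ → ℕ → Bool} {S : α → List ℕ}
    (hR : Poly (fun p : α × ℕ × ℕ => R p.1 p.2.1 p.2.2)) (hS : Poly S) :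
    Poly (fun a => headsL (R a) (S a)) := by
  unfold headsL
  fun_prop

attribute [fun_prop] poly_headsL
attribute [local irreducible] headsL

theorem poly_tup {β : Type} [TEnc β] {L : α → List β} (hL : Poly L) :
    ∀ k : ℕ, Poly (fun a => tup k (L a))
  | 0 => by unfold tup; exact Poly.const _
  | k + 1 => by
    have := poly_tup hL k
    unfold tup
    fun_prop

theorem poly_minO {L : α → List (Option ℕ)} (hL : Poly L) : Poly (fun a => minO (L a)) := by
  unfold minO
  have h1 : Poly (fun a => (L a).flatMap (fun o => o.toList)) := by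
    refine (Poly.flatMap (F := fun _ o => o.elim [] (fun x => [x])) hL ?_).congr fun a => ?_
    · fun_prop
    · congr 1
      funext o
      cases o <;> rfl
  refine Poly.head? (Poly.filter (p := fun a x => ((L a).flatMap (fun o => o.toList)).all
    (fun y => decide (x ≤ y))) h1 ?_)
  exact Poly.all (l := fun p : α × ℕ => (L p.1).flatMap (fun o => o.toList))
    (p := fun p y => decide (p.2 ≤ y)) (h1.comp (Poly.fst Poly.id)) (by fun_prop)

attribute [fun_prop] poly_minO
attribute [local irreducible] minO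

theorem poly_sumO {L : α → List (Option ℕ)} (hL : Poly L) : Poly (fun a => sumO (L a)) := by
  unfold sumO
  have h1 : Poly (fun a => (L a).all (fun o => o.isSome)) := by
    refine (Poly.all (p := fun _ o => o.elim false (fun _ => true)) hL ?_).congr fun a => ?_
    · fun_prop
    · congr 1
      funext o
      cases o <;> rfl
  have h2 : Poly (fun a => ((L a).map (fun o => o.getD 0)).sum) := by fun_prop
  exact Poly.ite (Poly.decide_bool h1) (Poly.some h2) (Poly.const none)

attribute [fun_prop] poly_sumO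
attribute [local irreducible] sumO

theorem poly_hasNb {A : α → ℕ → ℕ → Bool} {L : α → List ℕ} {r : α → ℕ}
    (hA : Poly (fun p : α × ℕ × ℕ => A p.1 p.2.1 p.2.2)) (hL : Poly L) (hr : Poly r) :
    Poly (fun a => hasNb (A a) (L a) (r a)) := by
  unfold hasNb
  fun_prop

attribute [fun_prop] poly_hasNb
attribute [local irreducible] hasNb

theorem poly_bB {A : α → ℕ → ℕ → Bool} {C : α → List ℕ} {v : α → ℕ}
    (hA : Poly (fun p : α × ℕ × ℕ => A p.1 p.2.1 p.2.2)) (hC : Poly C) (hv : Poly v) :
    Poly (fun a => bB (A a) (C a) (v a)) := by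
  unfold bB
  fun_prop

attribute [fun_prop] poly_bB
attribute [local irreducible] bB

theorem poly_cC {A : α → ℕ → ℕ → Bool} {C : α → List ℕ} {v : α → ℕ}
    (hA : Poly (fun p : α × ℕ × ℕ => A p.1 p.2.1 p.2.2)) (hC : Poly C) (hv : Poly v) :
    Poly (fun a => cC (A a) (C a) (v a)) := by
  unfold cC
  fun_prop

attribute [fun_prop] poly_cC
attribute [local irreducible] cC

theorem poly_inn {A : α → ℕ → ℕ → Bool} {C D : α → List ℕ} {v : α → ℕ}
    (hA : Poly (fun p : α × ℕ × ℕ => A p.1 p.2.1 p.2.2)) (hC : Poly C) (hD : Poly D)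
    (hv : Poly v) : Poly (fun a => inn (A a) (C a) (D a) (v a)) := by
  unfold inn
  fun_prop

attribute [fun_prop] poly_inn
attribute [local irreducible] inn

theorem poly_starV {A : α → ℕ → ℕ → Bool} {Y : α → List ℕ} {w : α → ℕ}
    (hA : Poly (fun p : α × ℕ × ℕ => A p.1 p.2.1 p.2.2)) (hY : Poly Y) (hw : Poly w) :
    Poly (fun a => starV (A a) (Y a) (w a)) := by
  unfold starV
  fun_prop

attribute [fun_prop] poly_starV
attribute [local irreducible] starV

theorem poly_newN {A : α → ℕ → ℕ → Bool} {C D Y Wt : α → List ℕ} {v : α → ℕ}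
    {N : α → List (List ℕ)} {act : α → Bool}
    (hA : Poly (fun p : α × ℕ × ℕ => A p.1 p.2.1 p.2.2)) (hC : Poly C) (hD : Poly D)
    (hv : Poly v) (hN : Poly N) (hY : Poly Y) (hW : Poly Wt) (hact : Poly act) :
    Poly (fun a => newN (A a) (C a) (D a) (v a) (N a) (Y a) (Wt a) (act a)) := by
  unfold newN
  fun_prop

attribute [fun_prop] poly_newN
attribute [local irreducible] newN

theorem poly_gam {A : α → ℕ → ℕ → Bool} {Y Wt : α → List ℕ} {p q : α → ℕ}
    {N : α → List (List ℕ)} {As : α → List (ℕ × ℕ × ℕ)}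
    (hA : Poly (fun p : α × ℕ × ℕ => A p.1 p.2.1 p.2.2)) (hN : Poly N) (hY : Poly Y)
    (hW : Poly Wt) (hAs : Poly As) (hp : Poly p) (hq : Poly q) :
    Poly (fun a => gam (A a) (N a) (Y a) (Wt a) (As a) (p a) (q a)) := by
  unfold gam link wlink
  fun_prop

attribute [fun_prop] poly_gam
attribute [local irreducible] gam

theorem poly_chC {A : α → ℕ → ℕ → Bool} {C : α → List ℕ} {v h : α → ℕ}
    (hA : Poly (fun p : α × ℕ × ℕ => A p.1 p.2.1 p.2.2)) (hC : Poly C) (hv : Poly v)
    (hh : Poly h) : Poly (fun a => chC (A a) (C a) (v a) (h a)) := by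
  unfold chC
  fun_prop

attribute [fun_prop] poly_chC
attribute [local irreducible] chC

theorem poly_chD {A : α → ℕ → ℕ → Bool} {C D : α → List ℕ} {v h : α → ℕ}
    (hA : Poly (fun p : α × ℕ × ℕ => A p.1 p.2.1 p.2.2)) (hC : Poly C) (hD : Poly D)
    (hv : Poly v) (hh : Poly h) : Poly (fun a => chD (A a) (C a) (D a) (v a) (h a)) := by
  unfold chD
  fun_prop

attribute [fun_prop] poly_chD
attribute [local irreducible] chD

theorem poly_chv {A : α → ℕ → ℕ → Bool} {C : α → List ℕ} {v h : α → ℕ}
    (hA : Poly (fun p : α × ℕ × ℕ => A p.1 p.2.1 p.2.2)) (hC : Poly C) (hv : Poly v)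
    (hh : Poly h) : Poly (fun a => chv (A a) (C a) (v a) (h a)) := by
  unfold chv
  fun_prop

attribute [fun_prop] poly_chv
attribute [local irreducible] chv

theorem poly_chg {As : α → List (ℕ × ℕ × ℕ)} {h : α → ℕ}
    (hAs : Poly As) (hh : Poly h) : Poly (fun a => chg (As a) (h a)) := by
  unfold chg
  fun_prop

attribute [fun_prop] poly_chg
attribute [local irreducible] chg

theorem poly_yY {A : α → ℕ → ℕ → Bool} {U C D Z : α → List ℕ} {v : α → ℕ}
    (hA : Poly (fun p : α × ℕ × ℕ => A p.1 p.2.1 p.2.2)) (hU : Poly U) (hC : Poly C)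
    (hD : Poly D) (hv : Poly v) (hZ : Poly Z) :
    Poly (fun a => yY (A a) (U a) (C a) (D a) (v a) (Z a)) := by
  unfold yY
  fun_prop

attribute [fun_prop] poly_yY
attribute [local irreducible] yY

theorem poly_rangeLen {β : Type} [TEnc β] {L : α → List β} (hL : Poly L) :
    Poly (fun a => List.range ((L a).length)) := (UPoly.length hL).range

theorem poly_rangeM {N : α → List (List ℕ)} {W : α → List ℕ} (hN : Poly N) (hW : Poly W) :
    Poly (fun a => List.range ((N a).length + 1 + (W a).length)) :=
  (((UPoly.length hN).add (UPoly.const 1)).add (UPoly.length hW)).range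

theorem poly_rangeK {N : α → List (List ℕ)} (K : ℕ) (hN : Poly N) :
    Poly (fun a => List.range ((N a).length + 1 + K)) :=
  (((UPoly.length hN).add (UPoly.const 1)).add (UPoly.const K)).range

attribute [fun_prop] poly_rangeLen poly_rangeM poly_rangeK

theorem poly_check {A : α → ℕ → ℕ → Bool} {Y Wt : α → List ℕ} {N : α → List (List ℕ)}
    {g : α → List (ℕ × ℕ)} {act : α → Bool} {As : α → List (ℕ × ℕ × ℕ)}
    (hA : Poly (fun p : α × ℕ × ℕ => A p.1 p.2.1 p.2.2)) (hN : Poly N) (hg : Poly g)
    (hY : Poly Y) (hW : Poly Wt) (hact : Poly act) (hAs : Poly As) :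
    Poly (fun a => check (A a) (N a) (g a) (Y a) (Wt a) (act a) (As a)) := by
  unfold check
  fun_prop

attribute [fun_prop] poly_check
attribute [local irreducible] check

end Pool.Agent.NPC.H685VST
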