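import Mathlib

/-!
# Reachability in lists, components, bounded tuples
-/

namespace Pool.Agent.H685R2.VST

open Relation

/-- One step inside the set `S`. -/
def Sp (A : ℕ → ℕ → Prop) (S : ℕ → Prop) (a b : ℕ) : Prop := A a b ∧ S a ∧ S b

/-- Reachability inside the set `S` (reflexive everywhere). -/
def Rs (A : ℕ → ℕ → Prop) (S : ℕ → Prop) : ℕ → ℕ → Prop := ReflTransGen (Sp A S)

section

variable {A : ℕ → ℕ → Prop} {S T : ℕ → Prop}

theorem Sp.symm (hA : ∀ a b, A a b → A b a) {a b : ℕ} (h : Sp A S a b) : Sp A S b a :=
  ⟨hA _ _ h.1, h.2.2, h.2.1⟩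

theorem Rs.symm (hA : ∀ a b, A a b → A b a) {a b : ℕ} (h : Rs A S a b) : Rs A S b a := by
  induction h with
  | refl => exact ReflTransGen.refl
  | tail _ h ih => exact ReflTransGen.head (h.symm hA) ih

theorem Rs.refl (a : ℕ) : Rs A S a a := ReflTransGen.refl

theorem Rs.trans {a b c : ℕ} (h : Rs A S a b) (h' : Rs A S b c) : Rs A S a c :=
  ReflTransGen.trans h h'

theorem Rs.single {a b : ℕ} (h : A a b) (ha : S a) (hb : S b) : Rs A S a b :=
  ReflTransGen.single ⟨h, ha, hb⟩

theorem Rs.mono (hST : ∀ x, S x → T x) {a b : ℕ} (h : Rs A S a b) : Rs A T a b := by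
  induction h with
  | refl => exact ReflTransGen.refl
  | tail _ h ih => exact ih.tail ⟨h.1, hST _ h.2.1, hST _ h.2.2⟩

theorem Rs.mem {a b : ℕ} (h : Rs A S a b) (ha : S a) : S b := by
  induction h with
  | refl => exact ha
  | tail _ h _ => exact h.2.2

theorem Rs.mem' {a b : ℕ} (h : Rs A S a b) (hb : S b) : S a := by
  induction h using ReflTransGen.head_induction_on with
  | refl => exact hb
  | head h _ _ => exact h.2.1

end

/-- The vertices of the list `S` reachable from `x` inside `S`. -/
def reachL (A : ℕ → ℕ → Bool) (S : List ℕ) (x : ℕ) : List ℕ :=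
  (fun R : List ℕ => S.filter (fun y => decide (y ∈ R) || R.any (fun z => A z y)))^[S.length]
    (S.filter (fun y => decide (y = x)))

section

variable {A : ℕ → ℕ → Bool} {S : List ℕ} {x : ℕ}

theorem reach_sound (k : ℕ) : ∀ y ∈ (fun R : List ℕ => S.filter
    (fun y => decide (y ∈ R) || R.any (fun z => A z y)))^[k] (S.filter (fun y => decide (y = x))),
    x ∈ S ∧ y ∈ S ∧ Rs (fun a b => A a b = true) (· ∈ S) x y := by
  induction k with
  | zero =>
    intro y hy
    simp only [Function.iterate_zero, id_eq, List.mem_filter, decide_eq_true_eq] at hy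
    obtain ⟨hy, rfl⟩ := hy
    exact ⟨hy, hy, Rs.refl _⟩
  | succ k ih =>
    intro y hy
    rw [Function.iterate_succ', Function.comp_apply] at hy
    simp only [List.mem_filter, Bool.or_eq_true, decide_eq_true_eq, List.any_eq_true] at hy
    obtain ⟨hyS, hy | ⟨z, hz, hzy⟩⟩ := hy
    · exact ih y hy
    · obtain ⟨h1, h2, h3⟩ := ih z hz
      exact ⟨h1, hyS, h3.trans (Rs.single hzy h2 hyS)⟩

theorem reach_mono {k l : ℕ} (h : k ≤ l) : ∀ y ∈ (fun R : List ℕ => S.filter
    (fun y => decide (y ∈ R) || R.any (fun z => A z y)))^[k] (S.filter (fun y => decide (y = x))),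
    y ∈ (fun R : List ℕ => S.filter
    (fun y => decide (y ∈ R) || R.any (fun z => A z y)))^[l] (S.filter (fun y => decide (y = x))) := by
  induction h with
  | refl => exact fun y hy => hy
  | step h ih =>
    intro y hy
    rw [Function.iterate_succ', Function.comp_apply]
    have h1 := ih y hy
    simp only [List.mem_filter, Bool.or_eq_true, decide_eq_true_eq, List.any_eq_true]
    exact ⟨(reach_sound _ y h1).2.1, Or.inl h1⟩

/-- The graph on the natural numbers induced by `A` on `S`. -/
def gS (A : ℕ → ℕ → Bool) (S : List ℕ) : SimpleGraph ℕ where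
  Adj a b := a ≠ b ∧ a ∈ S ∧ b ∈ S ∧ (A a b = true ∨ A b a = true)
  symm := ⟨fun _ _ h => ⟨h.1.symm, h.2.2.1, h.2.1, h.2.2.2.symm⟩⟩
  loopless := ⟨fun _ h => h.1 rfl⟩

theorem walk_reach (hA : ∀ a b, A a b = true → A b a = true) {y : ℕ} (hx : x ∈ S) (w : (gS A S).Walk x y) :
    y ∈ (fun R : List ℕ => S.filter
    (fun y => decide (y ∈ R) || R.any (fun z => A z y)))^[w.length]
      (S.filter (fun y => decide (y = x))) := by
  induction w using SimpleGraph.Walk.concatRec with
  | Hnil =>
    simp only [SimpleGraph.Walk.length_nil, Function.iterate_zero, id_eq, List.mem_filter,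
      decide_eq_true_eq, and_true]
    exact hx
  | Hconcat p h ih =>
    rw [SimpleGraph.Walk.length_concat, Function.iterate_succ', Function.comp_apply]
    simp only [List.mem_filter, Bool.or_eq_true, decide_eq_true_eq, List.any_eq_true]
    refine ⟨h.2.2.1, Or.inr ⟨_, ih hx, ?_⟩⟩
    rcases h.2.2.2 with h' | h'
    · exact h'
    · exact hA _ _ h'

theorem rs_reachable {y : ℕ} (h : Rs (fun a b => A a b = true) (· ∈ S) x y) :
    (gS A S).Reachable x y := by
  induction h with
  | refl => exact SimpleGraph.Reachable.refl _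
  | @tail b c _ h ih =>
    by_cases hbc : b = c
    · rw [← hbc]; exact ih
    · exact ih.trans (SimpleGraph.Adj.reachable (show (gS A S).Adj b c from
        ⟨hbc, h.2.1, h.2.2, Or.inl h.1⟩))

theorem mem_reachL (hA : ∀ a b, A a b = true → A b a = true) {y : ℕ} :
    y ∈ reachL A S x ↔ x ∈ S ∧ y ∈ S ∧ Rs (fun a b => A a b = true) (· ∈ S) x y := by
  constructor
  · exact reach_sound _ y
  · rintro ⟨hx, hy, h⟩
    obtain ⟨w⟩ := rs_reachable h
    classical
    have hp := w.toPath.2
    set p := w.toPath.1 with hpdef
    have hlen : p.length ≤ S.length := by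
      have h1 : p.support.Nodup := hp.support_nodup
      have h2 : ∀ z ∈ p.support, z ∈ S := by
        have : ∀ {a b : ℕ} (q : (gS A S).Walk a b), a ∈ S → ∀ z ∈ q.support, z ∈ S := by
          intro a b q
          induction q with
          | nil =>
            intro ha z hz
            rw [SimpleGraph.Walk.support_nil, List.mem_singleton] at hz
            rw [hz]; exact ha
          | cons h q ih =>
            intro ha z hz
            rw [SimpleGraph.Walk.support_cons, List.mem_cons] at hz
            rcases hz with rfl | hz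
            · exact ha
            · exact ih h.2.2.1 z hz
        exact this p hx
      have h3 : p.support.length ≤ S.length := by
        have : p.support ⊆ S := h2
        exact (List.subperm_of_subset h1 this).length_le
      rw [SimpleGraph.Walk.length_support] at h3
      omega
    exact reach_mono hlen y (walk_reach hA hx p)

end

/-- The component of `x` in the list `S`, in the order of `S`. -/
def compL (A : ℕ → ℕ → Bool) (S : List ℕ) (x : ℕ) : List ℕ :=
  S.filter (fun y => decide (y ∈ reachL A S x))

/-- The first vertices of the components of `S`. -/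
def headsL (A : ℕ → ℕ → Bool) (S : List ℕ) : List ℕ :=
  S.filter (fun x => decide ((compL A S x).head? = some x))

section

variable {A : ℕ → ℕ → Bool} {S : List ℕ} {x y : ℕ}

theorem mem_compL (hA : ∀ a b, A a b = true → A b a = true) :
    y ∈ compL A S x ↔ x ∈ S ∧ y ∈ S ∧ Rs (fun a b => A a b = true) (· ∈ S) x y := by
  unfold compL
  rw [List.mem_filter, decide_eq_true_eq, mem_reachL hA]
  tauto

theorem compL_eq (hA : ∀ a b, A a b = true → A b a = true) (h : y ∈ compL A S x) :
    compL A S y = compL A S x := by
  unfold compL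
  rw [mem_compL hA] at h
  apply List.filter_congr
  intro z hz
  rw [decide_eq_decide, mem_reachL hA, mem_reachL hA]
  constructor
  · rintro ⟨_, _, h3⟩
    exact ⟨h.1, hz, h.2.2.trans h3⟩
  · rintro ⟨_, _, h3⟩
    exact ⟨h.2.1, hz, (h.2.2.symm hA).trans h3⟩

theorem exists_head (hA : ∀ a b, A a b = true → A b a = true) (hy : y ∈ S) :
    ∃ h ∈ headsL A S, y ∈ compL A S h := by
  have hyy : y ∈ compL A S y := (mem_compL hA).2 ⟨hy, hy, Rs.refl _⟩
  cases hc : compL A S y with
  | nil => rw [hc] at hyy; exact absurd hyy List.not_mem_nil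
  | cons h l =>
    have hh : h ∈ compL A S y := by rw [hc]; exact List.mem_cons_self
    have he := compL_eq hA hh
    refine ⟨h, ?_, ?_⟩
    · unfold headsL
      rw [List.mem_filter, decide_eq_true_eq, he, hc]
      exact ⟨((mem_compL hA).1 hh).2.1, rfl⟩
    · rw [he]; exact hyy

theorem head_mem (hA : ∀ a b, A a b = true → A b a = true) {h : ℕ} (hh : h ∈ headsL A S) :
    h ∈ compL A S h := by
  unfold headsL at hh
  rw [List.mem_filter] at hh
  exact (mem_compL hA).2 ⟨hh.1, hh.1, Rs.refl _⟩

theorem heads_inj (hA : ∀ a b, A a b = true → A b a = true) {h h' : ℕ} (hh : h ∈ headsL A S)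
    (hh' : h' ∈ headsL A S) (hy : y ∈ compL A S h) (hy' : y ∈ compL A S h') : h = h' := by
  have h1 := compL_eq hA hy
  have h2 := compL_eq hA hy'
  unfold headsL at hh hh'
  rw [List.mem_filter, decide_eq_true_eq] at hh hh'
  have h3 := hh.2
  have h4 := hh'.2
  rw [← h1] at h3
  rw [← h2] at h4
  rw [h3] at h4
  exact Option.some.inj h4

theorem heads_nodup (hS : S.Nodup) : (headsL A S).Nodup := hS.filter _

end

/-- All lists of length at most `k` with entries in `L`. -/
def tup {α : Type} : ℕ → List α → List (List α)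
  | 0, _ => [[]]
  | k + 1, L => tup k L ++ (tup k L).flatMap (fun l => L.map (fun x => x :: l))

theorem mem_tup {α : Type} : ∀ (k : ℕ) (L l : List α), l ∈ tup k L ↔ l.length ≤ k ∧ ∀ x ∈ l, x ∈ L
  | 0, L, l => by
    unfold tup
    rw [List.mem_singleton]
    constructor
    · rintro rfl; simp
    · rintro ⟨h, _⟩; exact List.eq_nil_of_length_eq_zero (by omega)
  | k + 1, L, l => by
    unfold tup
    rw [List.mem_append, mem_tup k L l, List.mem_flatMap]
    constructor
    · rintro (⟨h, h'⟩ | ⟨l', hl', hl⟩)
      · exact ⟨by omega, h'⟩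
      · rw [mem_tup k L l'] at hl'
        rw [List.mem_map] at hl
        obtain ⟨x, hx, rfl⟩ := hl
        refine ⟨by simp only [List.length_cons]; omega, fun y hy => ?_⟩
        rcases List.mem_cons.1 hy with rfl | hy
        · exact hx
        · exact hl'.2 y hy
    · rintro ⟨h, h'⟩
      cases l with
      | nil => left; exact ⟨by simp, fun x hx => absurd hx List.not_mem_nil⟩
      | cons x l =>
        right
        refine ⟨l, ?_, ?_⟩
        · rw [mem_tup k L l]
          simp only [List.length_cons] at h
          exact ⟨by omega, fun y hy => h' y (List.mem_cons_of_mem _ hy)⟩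
        · rw [List.mem_map]
          exact ⟨x, h' x List.mem_cons_self, rfl⟩

/-- The least value occurring in a list of optional values. -/
def minO (L : List (Option ℕ)) : Option ℕ :=
  ((L.flatMap (fun o => o.toList)).filter
    (fun x => (L.flatMap (fun o => o.toList)).all (fun y => decide (x ≤ y)))).head?

theorem minO_some {L : List (Option ℕ)} {c : ℕ} (h : minO L = some c) : some c ∈ L := by
  unfold minO at h
  have h1 := List.mem_of_mem_head? (by rw [h]; rfl : c ∈ List.head? _)
  rw [List.mem_filter, List.mem_flatMap] at h1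
  obtain ⟨⟨o, ho, ho'⟩, _⟩ := h1
  cases o with
  | none => simp at ho'
  | some d =>
    simp at ho'
    rw [ho']; exact ho

theorem minO_le {L : List (Option ℕ)} {c : ℕ} (h : some c ∈ L) : ∃ c' ≤ c, minO L = some c' := by
  set M := L.flatMap (fun o => o.toList) with hM
  have hc : c ∈ M := by
    rw [hM, List.mem_flatMap]
    exact ⟨_, h, by simp⟩
  have hne : ∃ m ∈ M, ∀ y ∈ M, m ≤ y := by
    have hfin : (M.toFinset).Nonempty := ⟨c, by simpa using hc⟩
    refine ⟨M.toFinset.min' hfin, ?_, ?_⟩
    · simpa using M.toFinset.min'_mem hfin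
    · intro y hy
      exact M.toFinset.min'_le y (by simpa using hy)
  obtain ⟨m, hm, hm'⟩ := hne
  have hmem : m ∈ M.filter (fun x => M.all (fun y => decide (x ≤ y))) := by
    rw [List.mem_filter, List.all_eq_true]
    exact ⟨hm, fun y hy => by simpa using hm' y hy⟩
  cases hl : M.filter (fun x => M.all (fun y => decide (x ≤ y))) with
  | nil => rw [hl] at hmem; exact absurd hmem List.not_mem_nil
  | cons z l =>
    refine ⟨z, ?_, ?_⟩
    · have hz : z ∈ M.filter (fun x => M.all (fun y => decide (x ≤ y))) := by
        rw [hl]; exact List.mem_cons_self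
      rw [List.mem_filter, List.all_eq_true] at hz
      have := hz.2 c hc
      simpa using this
    · unfold minO
      rw [← hM, hl]
      rfl

/-- The sum of a list of optional values. -/
def sumO (L : List (Option ℕ)) : Option ℕ :=
  if L.all (fun o => o.isSome) then some ((L.map (fun o => o.getD 0)).sum) else none

theorem sumO_cons (o : Option ℕ) (L : List (Option ℕ)) {c : ℕ} :
    sumO (o :: L) = some c ↔ ∃ a b, o = some a ∧ sumO L = some b ∧ c = a + b := by
  unfold sumO
  cases o with
  | none => simp
  | some a =>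
    simp only [List.all_cons, Option.isSome_some, Bool.true_and, List.map_cons, Option.getD_some,
      List.sum_cons, Option.some.injEq]
    by_cases h : L.all (fun o => o.isSome) = true
    · rw [if_pos h, if_pos h]
      simp [eq_comm]
    · rw [if_neg h, if_neg h]
      simp

end Pool.Agent.H685R2.VST
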