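import Pool.Agent.H685R2.VST.Base

/-!
# The recursive algorithm for Vertex Steiner Tree, and its soundness
-/

namespace Pool.Agent.H685R2.VST

open Relation

/-! ### Regions with portals -/

/-- One step in the graph formed by the vertices of `S` and one extra vertex for each portal. -/
def Stp (A : ℕ → ℕ → Bool) (S : ℕ → Prop) (N : List (List ℕ)) : ℕ ⊕ ℕ → ℕ ⊕ ℕ → Prop
  | .inl a, .inl b => A a b = true ∧ S a ∧ S b
  | .inl a, .inr i => S a ∧ a ∈ N.getD i []
  | .inr i, .inl a => S a ∧ a ∈ N.getD i []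
  | .inr _, .inr _ => False

/-- Reachability in the graph formed by the vertices of `S` and the portals. -/
def Rc (A : ℕ → ℕ → Bool) (S : ℕ → Prop) (N : List (List ℕ)) : ℕ ⊕ ℕ → ℕ ⊕ ℕ → Prop :=
  ReflTransGen (Stp A S N)

section

variable {A : ℕ → ℕ → Bool} {S : ℕ → Prop} {N : List (List ℕ)}

theorem Stp.symm (hA : ∀ a b, A a b = true → A b a = true) {p q : ℕ ⊕ ℕ} (h : Stp A S N p q) :
    Stp A S N q p := by
  cases p <;> cases q
  · exact ⟨hA _ _ h.1, h.2.2, h.2.1⟩
  · exact h
  · exact h
  · exact h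

theorem Rc.symm (hA : ∀ a b, A a b = true → A b a = true) {p q : ℕ ⊕ ℕ} (h : Rc A S N p q) :
    Rc A S N q p := by
  induction h with
  | refl => exact ReflTransGen.refl
  | tail _ h ih => exact ReflTransGen.head (h.symm hA) ih

theorem Rc.refl (p : ℕ ⊕ ℕ) : Rc A S N p p := ReflTransGen.refl

theorem Rc.trans {p q r : ℕ ⊕ ℕ} (h : Rc A S N p q) (h' : Rc A S N q r) : Rc A S N p r :=
  ReflTransGen.trans h h'

theorem Rc.edge {a b : ℕ} (h : A a b = true) (ha : S a) (hb : S b) :
    Rc A S N (.inl a) (.inl b) := ReflTransGen.single ⟨h, ha, hb⟩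

theorem Rc.port {a i : ℕ} (ha : S a) (h : a ∈ N.getD i []) : Rc A S N (.inl a) (.inr i) :=
  ReflTransGen.single ⟨ha, h⟩

theorem Rc.of_rs {a b : ℕ} (h : Rs (fun a b => A a b = true) S a b) :
    Rc A S N (.inl a) (.inl b) := by
  induction h with
  | refl => exact ReflTransGen.refl
  | tail _ h ih => exact ih.tail ⟨h.1, h.2.1, h.2.2⟩

/-- A reached portal is not empty. -/
theorem Rc.touch {a i : ℕ} (h : Rc A S N (.inl a) (.inr i)) : ∃ y, S y ∧ y ∈ N.getD i [] := by
  rcases ReflTransGen.cases_tail h with h | ⟨p, _, hp⟩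
  · exact absurd h (by simp)
  · cases p with
    | inl y => exact ⟨y, hp.1, hp.2⟩
    | inr j => exact hp.elim

/-- Transport of reachability along a map which sends steps to reachable pairs. -/
theorem Rc.map {S' : ℕ → Prop} {N' : List (List ℕ)} (φ : ℕ ⊕ ℕ → ℕ ⊕ ℕ)
    (h : ∀ p q, Stp A S N p q → Rc A S' N' (φ p) (φ q)) {p q : ℕ ⊕ ℕ} (hpq : Rc A S N p q) :
    Rc A S' N' (φ p) (φ q) := by
  induction hpq with
  | refl => exact ReflTransGen.refl
  | tail _ h' ih => exact ih.trans (h _ _ h')

end

/-- `S` is an admissible choice in the region `X` with terminals `U`, portals `N` and required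
connections `g`. -/
structure Ok (A : ℕ → ℕ → Bool) (X : ℕ → Prop) (U : List ℕ) (N : List (List ℕ))
    (g : List (ℕ × ℕ)) (S : ℕ → Prop) : Prop where
  sub : ∀ x, S x → X x
  ter : ∀ x, X x → x ∈ U → S x
  att : ∀ x, S x → ∃ i < N.length, Rc A S N (.inl x) (.inr i)
  con : ∀ e ∈ g, e.1 < N.length ∧ e.2 < N.length ∧ Rc A S N (.inr e.1) (.inr e.2)

/-! ### The pieces of the algorithm -/

/-- States: the connected region, the attached vertices, the pivot, portals, requirements. -/
abbrev State := List ℕ × List ℕ × ℕ × List (List ℕ) × List (ℕ × ℕ)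

/-- Guesses: inner Steiner vertices, representatives, clique portal used or not, assignment of
connections to the parts. -/
abbrev Guess := List ℕ × List ℕ × Bool × List (ℕ × ℕ × ℕ)

section

variable (A : ℕ → ℕ → Bool)

/-- Has `r` a neighbour in `L`? -/
def hasNb (L : List ℕ) (r : ℕ) : Bool := L.any (fun c => A r c)

/-- The neighbours of the pivot in the region. -/
def bB (C : List ℕ) (v : ℕ) : List ℕ := C.filter (fun x => A v x)

/-- The non-neighbours of the pivot in the region. -/
def cC (C : List ℕ) (v : ℕ) : List ℕ := C.filter (fun x => !(A v x))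

/-- The inner vertices. -/
def inn (C D : List ℕ) (v : ℕ) : List ℕ :=
  (D ++ bB A C v).filter (fun r => !(hasNb A (cC A C v) r))

/-- The closed neighbourhood of `w` in `Y`. -/
def starV (Y : List ℕ) (w : ℕ) : List ℕ := Y.filter (fun y => decide (y = w) || A y w)

/-- The new portals. -/
def newN (C D : List ℕ) (v : ℕ) (N : List (List ℕ)) (Y Wt : List ℕ) (act : Bool) :
    List (List ℕ) :=
  N ++ (if act = true then bB A C v else []) ::
    Wt.map (fun w => (C ++ D).filter (fun x => hasNb A (starV A Y w) x))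

/-- Direct link between an old portal and a new star portal. -/
def link (N : List (List ℕ)) (Y Wt : List ℕ) (p q : ℕ) : Bool :=
  decide (p < N.length) && decide (N.length < q) &&
    (starV A Y (Wt.getD (q - (N.length + 1)) 0)).any (fun y => decide (y ∈ N.getD p []))

/-- Direct link between two star portals. -/
def wlink (m : ℕ) (Y Wt : List ℕ) (p q : ℕ) : Bool :=
  decide (m < p) && decide (m < q) &&
    (starV A Y (Wt.getD (p - (m + 1)) 0)).any (fun y =>
      (starV A Y (Wt.getD (q - (m + 1)) 0)).any (fun y' => decide (y = y') || A y y'))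

/-- The graph on the portals. -/
def gam (N : List (List ℕ)) (Y Wt : List ℕ) (As : List (ℕ × ℕ × ℕ)) (p q : ℕ) : Bool :=
  As.any (fun a => (decide (a.1 = p) && decide (a.2.1 = q)) ||
    (decide (a.1 = q) && decide (a.2.1 = p))) ||
  (link A N Y Wt p q || link A N Y Wt q p || wlink A N.length Y Wt p q)

/-- The region of a part. -/
def chC (C : List ℕ) (v h : ℕ) : List ℕ := compL A (cC A C v) h

/-- The vertices attached to a part. -/
def chD (C D : List ℕ) (v h : ℕ) : List ℕ := (D ++ bB A C v).filter (hasNb A (chC A C v h))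

/-- The pivot of a part. -/
def chv (C : List ℕ) (v h : ℕ) : ℕ := ((bB A C v).filter (hasNb A (chC A C v h))).head?.getD 0

/-- The requirements of a part. -/
def chg (As : List (ℕ × ℕ × ℕ)) (h : ℕ) : List (ℕ × ℕ) :=
  (As.filter (fun a => decide (a.2.2 = h))).map (fun a => (a.1, a.2.1))

/-- Vertices of the solution among the inner vertices. -/
def yY (U C D : List ℕ) (v : ℕ) (Z : List ℕ) : List ℕ :=
  Z ++ (inn A C D v).filter (fun r => decide (r ∈ U))

/-- The test for a guess. -/
def check (N : List (List ℕ)) (g : List (ℕ × ℕ)) (Y Wt : List ℕ) (act : Bool)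
    (As : List (ℕ × ℕ × ℕ)) : Bool :=
  Y.all (fun y => Wt.any (fun w => decide (y = w) || A y w)) &&
  Wt.all (fun w => decide (w ∈ Y)) &&
  g.all (fun e => decide (e.1 < N.length) && decide (e.2 < N.length) &&
    decide (e.2 ∈ reachL (gam A N Y Wt As) (List.range (N.length + 1 + Wt.length)) e.1)) &&
  (List.range Wt.length).all (fun j => (List.range N.length).any (fun i =>
    decide (i ∈ reachL (gam A N Y Wt As) (List.range (N.length + 1 + Wt.length))
      (N.length + 1 + j)))) &&
  (!act || (List.range N.length).any (fun i =>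
    decide (i ∈ reachL (gam A N Y Wt As) (List.range (N.length + 1 + Wt.length)) N.length)))

/-- The value of a guess. -/
def val (w : ℕ → ℕ) (U : List ℕ) (rec : State → Option ℕ) (st : State) (y : Guess) : Option ℕ :=
  if check A st.2.2.2.1 st.2.2.2.2 (yY A U st.1 st.2.1 st.2.2.1 y.1) y.2.1 y.2.2.1 y.2.2.2 = true
  then sumO (some ((y.1.map w).sum) :: (headsL A (cC A st.1 st.2.2.1)).map (fun h =>
    rec (chC A st.1 st.2.2.1 h, chD A st.1 st.2.1 st.2.2.1 h, chv A st.1 st.2.2.1 h,
      newN A st.1 st.2.1 st.2.2.1 st.2.2.2.1 (yY A U st.1 st.2.1 st.2.2.1 y.1) y.2.1 y.2.2.1,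
      chg y.2.2.2 h)))
  else none

/-- All guesses. -/
def guesses (K : ℕ) (st : State) : List Guess :=
  (tup K (inn A st.1 st.2.1 st.2.2.1)) ×ˢ ((tup K (inn A st.1 st.2.1 st.2.2.1)) ×ˢ
    ([true, false] ×ˢ tup K (List.range (st.2.2.2.1.length + 1 + K) ×ˢ
      (List.range (st.2.2.2.1.length + 1 + K) ×ˢ headsL A (cC A st.1 st.2.2.1)))))

/-- The recursive algorithm. -/
def F (K : ℕ) (w : ℕ → ℕ) (U : List ℕ) : ℕ → State → Option ℕ
  | 0, _ => none
  | k + 1, st => minO ((guesses A K st).map (val A w U (F K w U k) st))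

end

/-- The cost of a choice: the total weight of the non-terminals. -/
def cost (w : ℕ → ℕ) (U : List ℕ) (S : Finset ℕ) : ℕ := ∑ x ∈ S.filter (fun x => x ∉ U), w x

theorem cost_union (w : ℕ → ℕ) (U : List ℕ) (S T : Finset ℕ) :
    cost w U (S ∪ T) ≤ cost w U S + cost w U T := by
  unfold cost
  rw [Finset.filter_union]
  exact Finset.sum_union_inter (s₁ := S.filter (fun x => x ∉ U)) (s₂ := T.filter (fun x => x ∉ U))
    (f := w) ▸ Nat.le_add_right _ _

/-! ### Soundness -/

section sound

variable {A : ℕ → ℕ → Bool}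

theorem gam_symm (hA : ∀ a b, A a b = true → A b a = true) (N : List (List ℕ)) (Y Wt : List ℕ)
    (As : List (ℕ × ℕ × ℕ)) (p q : ℕ) (h : gam A N Y Wt As p q = true) :
    gam A N Y Wt As q p = true := by
  unfold gam at h ⊢
  simp only [Bool.or_eq_true, List.any_eq_true, Bool.and_eq_true, decide_eq_true_eq] at h ⊢
  rcases h with ⟨a, ha, h⟩ | ((h | h) | h)
  · exact Or.inl ⟨a, ha, h.symm⟩
  · exact Or.inr (Or.inl (Or.inr h))
  · exact Or.inr (Or.inl (Or.inl h))
  · right; right
    unfold wlink at h ⊢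
    simp only [Bool.or_eq_true, List.any_eq_true, Bool.and_eq_true, decide_eq_true_eq] at h ⊢
    obtain ⟨⟨h1, h2⟩, y, hy, y', hy', h⟩ := h
    refine ⟨⟨h2, h1⟩, y', hy', y, hy, ?_⟩
    rcases h with h | h
    · exact Or.inl h.symm
    · exact Or.inr (hA _ _ h)

theorem sumO_map {β : Type} (f : β → Option ℕ) : ∀ (L : List β) (c : ℕ),
    sumO (L.map f) = some c → (∀ x ∈ L, ∃ a, f x = some a) ∧
      c = (L.map (fun x => (f x).getD 0)).sum
  | [], c, h => by
    simp [sumO] at h
    simp [← h]
  | x :: L, c, h => by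
    rw [List.map_cons, sumO_cons] at h
    obtain ⟨a, b, ha, hb, rfl⟩ := h
    obtain ⟨h1, h2⟩ := sumO_map f L b hb
    refine ⟨?_, ?_⟩
    · intro y hy
      rcases List.mem_cons.1 hy with rfl | hy
      · exact ⟨a, ha⟩
      · exact h1 y hy
    · rw [List.map_cons, List.sum_cons, ha, ← h2]
      rfl

theorem sumO_map' {β : Type} (f : β → Option ℕ) (e : β → ℕ) : ∀ (L : List β),
    (∀ x ∈ L, ∃ a ≤ e x, f x = some a) →
      ∃ c ≤ (L.map e).sum, sumO (L.map f) = some c
  | [], _ => ⟨0, by simp, by simp [sumO]⟩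
  | x :: L, h => by
    obtain ⟨a, ha, ha'⟩ := h x List.mem_cons_self
    obtain ⟨b, hb, hb'⟩ := sumO_map' f e L (fun y hy => h y (List.mem_cons_of_mem _ hy))
    refine ⟨a + b, ?_, ?_⟩
    · rw [List.map_cons, List.sum_cons]
      omega
    · rw [List.map_cons, sumO_cons]
      exact ⟨a, b, ha', hb', rfl⟩

/-- The soundness of one step. -/
theorem step_sound (hA : ∀ a b, A a b = true → A b a = true) {w : ℕ → ℕ} {U C D : List ℕ} {v : ℕ}
    {N : List (List ℕ)} {g : List (ℕ × ℕ)} {Z Wt : List ℕ} {act : Bool} {As : List (ℕ × ℕ × ℕ)}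
    (hZ : ∀ z ∈ Z, z ∈ inn A C D v) (hAs : ∀ a ∈ As, a.2.2 ∈ headsL A (cC A C v))
    (hB : ∀ a ∈ bB A C v, ∀ b ∈ bB A C v, a ≠ b → A a b = true)
    (hch : check A N g (yY A U C D v Z) Wt act As = true)
    (T : ℕ → Finset ℕ)
    (hT : ∀ h ∈ headsL A (cC A C v), Ok A (fun x => x ∈ chC A C v h ∨ x ∈ chD A C D v h) U
      (newN A C D v N (yY A U C D v Z) Wt act) (chg As h) (· ∈ T h)) :
    Ok A (fun x => x ∈ C ∨ x ∈ D) U N g
      (· ∈ (yY A U C D v Z).toFinset ∪ (headsL A (cC A C v)).toFinset.biUnion T) := by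
  set Y := yY A U C D v Z with hYdef
  set N' := newN A C D v N Y Wt act with hN'
  set S : Finset ℕ := Y.toFinset ∪ (headsL A (cC A C v)).toFinset.biUnion T with hS
  have memS : ∀ x, x ∈ S ↔ x ∈ Y ∨ ∃ h ∈ headsL A (cC A C v), x ∈ T h := by
    intro x
    rw [hS, Finset.mem_union, List.mem_toFinset, Finset.mem_biUnion]
    simp only [List.mem_toFinset]
  have hYinn : ∀ y ∈ Y, y ∈ inn A C D v := by
    intro y hy
    rw [hYdef] at hy
    unfold yY at hy
    rcases List.mem_append.1 hy with hy | hy
    · exact hZ y hy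
    · exact List.mem_of_mem_filter hy
  have hinnX : ∀ y ∈ inn A C D v, y ∈ C ∨ y ∈ D := by
    intro y hy
    unfold inn bB at hy
    simp only [List.mem_filter, List.mem_append] at hy
    rcases hy.1 with h | h
    · exact Or.inr h
    · exact Or.inl h.1
  -- the parts of the test
  unfold check at hch
  simp only [Bool.and_eq_true, List.all_eq_true, List.any_eq_true, Bool.or_eq_true,
    decide_eq_true_eq, Bool.not_eq_true', List.mem_range] at hch
  obtain ⟨⟨⟨⟨k1, k2⟩, k3⟩, k4⟩, k5⟩ := hch
  have hlen : N'.length = N.length + 1 + Wt.length := by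
    rw [hN']; unfold newN; simp; omega
  have hold : ∀ i < N.length, N'.getD i [] = N.getD i [] := by
    intro i hi
    rw [hN']; unfold newN
    rw [List.getD_eq_getElem?_getD, List.getD_eq_getElem?_getD, List.getElem?_append_left hi]
  have hmid : N'.getD N.length [] = if act = true then bB A C v else [] := by
    rw [hN']; unfold newN
    rw [List.getD_eq_getElem?_getD, List.getElem?_append_right le_rfl]
    simp
  have hnew : ∀ j, ∀ hj : j < Wt.length, N'.getD (N.length + 1 + j) [] =
      (C ++ D).filter (fun x => hasNb A (starV A Y Wt[j]) x) := by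
    intro j hj
    rw [hN']; unfold newN
    rw [List.getD_eq_getElem?_getD, List.getElem?_append_right (by omega)]
    have h1 : N.length + 1 + j - N.length = j + 1 := by omega
    rw [h1, List.getElem?_cons_succ, List.getElem?_map, List.getElem?_eq_getElem hj]
    rfl
  have hbig : ∀ i, N.length + 1 + Wt.length ≤ i → N'.getD i [] = [] := by
    intro i hi
    rw [List.getD_eq_getElem?_getD, List.getElem?_eq_none (by omega)]
    rfl
  -- the anchors of the portals
  obtain ⟨b0, hb0⟩ : ∃ b0 : ℕ ⊕ ℕ, ∀ a, a ∈ S → a ∈ bB A C v →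
      Rc A (· ∈ S) N (.inl a) b0 := by
    by_cases hex : ∃ b, b ∈ S ∧ b ∈ bB A C v
    · obtain ⟨b, hb, hb'⟩ := hex
      refine ⟨.inl b, fun a ha ha' => ?_⟩
      by_cases hab : a = b
      · rw [hab]; exact Rc.refl _
      · exact Rc.edge (hB a ha' b hb' hab) ha hb
    · exact ⟨.inr 0, fun a ha ha' => absurd ⟨a, ha, ha'⟩ hex⟩
  let φ : ℕ ⊕ ℕ → ℕ ⊕ ℕ := fun p => match p with
    | .inl a => .inl a
    | .inr i => if i < N.length then .inr i else if i = N.length then b0
        else .inl (Wt.getD (i - (N.length + 1)) 0)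
  have hφ0 : ∀ i, i < N.length → φ (.inr i) = .inr i := fun i hi => by
    change (if i < N.length then _ else _) = _
    rw [if_pos hi]
  have hφ1 : φ (.inr N.length) = b0 := by
    change (if N.length < N.length then _ else _) = _
    rw [if_neg (lt_irrefl _), if_pos rfl]
  have hφ2 : ∀ j, φ (.inr (N.length + 1 + j)) = .inl (Wt.getD j 0) := fun j => by
    change (if N.length + 1 + j < N.length then _ else _) = _
    rw [if_neg (by omega), if_neg (by omega)]
    congr 2
    omega
  have hYS : ∀ y ∈ Y, y ∈ S := fun y hy => (memS y).2 (Or.inl hy)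
  have hWS : ∀ x ∈ Wt, x ∈ S := fun x hx => hYS x (k2 x hx)
  have hstar : ∀ x ∈ Wt, ∀ y ∈ starV A Y x, y ∈ S ∧ Rc A (· ∈ S) N (.inl y) (.inl x) := by
    intro x hx y hy
    unfold starV at hy
    simp only [List.mem_filter, Bool.or_eq_true, decide_eq_true_eq] at hy
    refine ⟨hYS y hy.1, ?_⟩
    rcases hy.2 with h | h
    · rw [h]; exact Rc.refl _
    · exact Rc.edge h (hYS y hy.1) (hWS x hx)
  have hgetD : ∀ j (hj : j < Wt.length), Wt.getD j 0 = Wt[j] := fun j hj => by
    rw [List.getD_eq_getElem?_getD, List.getElem?_eq_getElem hj]; rfl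
  -- steps of the parts
  have hport : ∀ (a i : ℕ), a ∈ S → a ∈ N'.getD i [] → Rc A (· ∈ S) N (.inl a) (φ (.inr i)) := by
    intro a i ha hai
    rcases lt_trichotomy i N.length with hi | hi | hi
    · rw [hold i hi] at hai
      rw [hφ0 i hi]
      exact Rc.port ha hai
    · subst hi
      rw [hφ1]
      rw [hmid] at hai
      split_ifs at hai with hact
      · exact hb0 a ha hai
      · exact absurd hai List.not_mem_nil
    · obtain ⟨j, rfl⟩ : ∃ j, i = N.length + 1 + j := ⟨i - (N.length + 1), by omega⟩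
      by_cases hj : j < Wt.length
      · rw [hnew j hj] at hai
        unfold hasNb at hai
        simp only [List.mem_filter, List.any_eq_true] at hai
        obtain ⟨_, y, hy, hay⟩ := hai
        obtain ⟨h1, h2⟩ := hstar _ (List.getElem_mem hj) y hy
        rw [hφ2, hgetD j hj]
        exact (Rc.edge hay ha h1).trans h2
      · rw [hbig _ (by omega)] at hai
        exact absurd hai List.not_mem_nil
  have hstep : ∀ h ∈ headsL A (cC A C v), ∀ p q, Stp A (· ∈ T h) N' p q →
      Rc A (· ∈ S) N (φ p) (φ q) := by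
    intro h hh p q hpq
    have hTS : ∀ x ∈ T h, x ∈ S := fun x hx => (memS x).2 (Or.inr ⟨h, hh, hx⟩)
    cases p with
    | inl a =>
      cases q with
      | inl b => exact Rc.edge hpq.1 (hTS _ hpq.2.1) (hTS _ hpq.2.2)
      | inr i => exact hport a i (hTS _ hpq.1) hpq.2
    | inr i =>
      cases q with
      | inl b => exact (hport b i (hTS _ hpq.1) hpq.2).symm hA
      | inr j => exact hpq.elim
  -- edges of the portal graph
  have hgam : ∀ p q, p < N.length + 1 + Wt.length → q < N.length + 1 + Wt.length →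
      gam A N Y Wt As p q = true → Rc A (· ∈ S) N (φ (.inr p)) (φ (.inr q)) := by
    intro p q hp hq hpq
    have hlink : ∀ p q, p < N.length + 1 + Wt.length → q < N.length + 1 + Wt.length →
        link A N Y Wt p q = true → Rc A (· ∈ S) N (φ (.inr p)) (φ (.inr q)) := by
      intro p q hp hq hpq
      unfold link at hpq
      simp only [Bool.and_eq_true, decide_eq_true_eq, List.any_eq_true] at hpq
      obtain ⟨⟨h1, h2⟩, y, hy, hy'⟩ := hpq
      obtain ⟨j, rfl⟩ : ∃ j, q = N.length + 1 + j := ⟨q - (N.length + 1), by omega⟩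
      have hj : j < Wt.length := by omega
      rw [Nat.add_sub_cancel_left, hgetD j hj] at hy
      obtain ⟨h3, h4⟩ := hstar _ (List.getElem_mem hj) y hy
      rw [hφ0 p h1, hφ2, hgetD j hj]
      exact ((Rc.port h3 hy').symm hA).trans h4
    unfold gam at hpq
    simp only [Bool.or_eq_true, List.any_eq_true, Bool.and_eq_true, decide_eq_true_eq] at hpq
    rcases hpq with ⟨a, ha, h⟩ | ((h | h) | h)
    · have h1 := (hT a.2.2 (hAs a ha)).con (a.1, a.2.1) (by
        unfold chg
        rw [List.mem_map]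
        exact ⟨a, by rw [List.mem_filter]; exact ⟨ha, by simp⟩, rfl⟩)
      have h2 := Rc.map φ (hstep a.2.2 (hAs a ha)) h1.2.2
      rcases h with ⟨rfl, rfl⟩ | ⟨rfl, rfl⟩
      · exact h2
      · exact h2.symm hA
    · exact hlink p q hp hq h
    · exact (hlink q p hq hp h).symm hA
    · unfold wlink at h
      simp only [Bool.or_eq_true, List.any_eq_true, Bool.and_eq_true, decide_eq_true_eq] at h
      obtain ⟨⟨h1, h2⟩, y, hy, y', hy', h⟩ := h
      obtain ⟨i, rfl⟩ : ∃ i, p = N.length + 1 + i := ⟨p - (N.length + 1), by omega⟩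
      obtain ⟨j, rfl⟩ : ∃ j, q = N.length + 1 + j := ⟨q - (N.length + 1), by omega⟩
      have hi : i < Wt.length := by omega
      have hj : j < Wt.length := by omega
      rw [Nat.add_sub_cancel_left, hgetD i hi] at hy
      rw [Nat.add_sub_cancel_left, hgetD j hj] at hy'
      obtain ⟨h3, h4⟩ := hstar _ (List.getElem_mem hi) y hy
      obtain ⟨h5, h6⟩ := hstar _ (List.getElem_mem hj) y' hy'
      rw [hφ2, hφ2, hgetD i hi, hgetD j hj]
      refine (h4.symm hA).trans (Rc.trans ?_ h6)
      rcases h with h | h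
      · rw [h]; exact Rc.refl _
      · exact Rc.edge h h3 h5
  have hreach : ∀ p q, q ∈ reachL (gam A N Y Wt As) (List.range (N.length + 1 + Wt.length)) p →
      Rc A (· ∈ S) N (φ (.inr p)) (φ (.inr q)) := by
    intro p q hpq
    rw [mem_reachL (gam_symm hA N Y Wt As)] at hpq
    have h := hpq.2.2
    clear hpq
    induction h with
    | refl => exact Rc.refl _
    | tail _ h ih =>
      exact ih.trans (hgam _ _ (List.mem_range.1 h.2.1) (List.mem_range.1 h.2.2) h.1)
  have hstep' : ∀ h ∈ headsL A (cC A C v), ∀ p q, Rc A (· ∈ T h) N' p q →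
      Rc A (· ∈ S) N (φ p) (φ q) := fun h hh p q hpq => Rc.map φ (hstep h hh) hpq
  have hWatt : ∀ j < Wt.length, ∃ i < N.length, Rc A (· ∈ S) N (.inl (Wt.getD j 0)) (.inr i) := by
    intro j hj
    obtain ⟨i, hi, h⟩ := k4 j hj
    refine ⟨i, hi, ?_⟩
    have h1 := hreach _ _ h
    rw [hφ2, hφ0 i hi] at h1
    exact h1
  refine ⟨?_, ?_, ?_, ?_⟩
  · intro x hx
    rcases (memS x).1 hx with hx | ⟨h, hh, hx⟩
    · exact hinnX x (hYinn x hx)
    · rcases (hT h hh).sub x hx with h1 | h1
      · unfold chC compL cC at h1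
        simp only [List.mem_filter] at h1
        exact Or.inl h1.1.1
      · unfold chD bB at h1
        simp only [List.mem_filter, List.mem_append] at h1
        rcases h1.1 with h2 | h2
        · exact Or.inr h2
        · exact Or.inl h2.1
  · intro x hx hxU
    by_cases hxi : x ∈ inn A C D v
    · apply hYS
      rw [hYdef]
      unfold yY
      rw [List.mem_append, List.mem_filter]
      exact Or.inr ⟨hxi, by simpa using hxU⟩
    · have hpart : ∃ h ∈ headsL A (cC A C v), x ∈ chC A C v h ∨ x ∈ chD A C D v h := by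
        by_cases hxc : x ∈ cC A C v
        · obtain ⟨h, hh, hxh⟩ := exists_head hA hxc
          exact ⟨h, hh, Or.inl hxh⟩
        · have hxDB : x ∈ D ++ bB A C v := by
            rw [List.mem_append]
            rcases hx with hx | hx
            · right
              unfold bB
              unfold cC at hxc
              simp only [List.mem_filter, Bool.not_eq_true'] at hxc ⊢
              refine ⟨hx, ?_⟩
              by_contra hcc
              exact hxc ⟨hx, by simpa using hcc⟩
            · exact Or.inl hx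
          have hnb : hasNb A (cC A C v) x = true := by
            unfold inn at hxi
            rw [List.mem_filter] at hxi
            by_contra hcc
            exact hxi ⟨hxDB, by simpa using hcc⟩
          unfold hasNb at hnb
          rw [List.any_eq_true] at hnb
          obtain ⟨c, hc, hxc'⟩ := hnb
          obtain ⟨h, hh, hch⟩ := exists_head hA hc
          refine ⟨h, hh, Or.inr ?_⟩
          unfold chD
          rw [List.mem_filter]
          refine ⟨hxDB, ?_⟩
          unfold hasNb
          rw [List.any_eq_true]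
          exact ⟨c, hch, hxc'⟩
      obtain ⟨h, hh, hxh⟩ := hpart
      exact (memS x).2 (Or.inr ⟨h, hh, (hT h hh).ter x hxh hxU⟩)
  · intro x hx
    rcases (memS x).1 hx with hx | ⟨h, hh, hx⟩
    · obtain ⟨z, hz, hxz⟩ := k1 x hx
      obtain ⟨j, hj, rfl⟩ := List.getElem_of_mem hz
      obtain ⟨i, hi, hi'⟩ := hWatt j hj
      rw [hgetD j hj] at hi'
      refine ⟨i, hi, Rc.trans ?_ hi'⟩
      rcases hxz with hxz | hxz
      · rw [hxz]; exact Rc.refl _
      · exact Rc.edge hxz (hYS x hx) (hWS _ hz)
    · obtain ⟨i, hi, hi'⟩ := (hT h hh).att x hx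
      have h1 := hstep' h hh _ _ hi'
      change Rc A (· ∈ S) N (.inl x) _ at h1
      rw [hlen] at hi
      rcases lt_trichotomy i N.length with h2 | h2 | h2
      · rw [hφ0 i h2] at h1
        exact ⟨i, h2, h1⟩
      · subst h2
        rcases k5 with k5 | ⟨i', hi2, k5⟩
        · obtain ⟨y, _, hy⟩ := hi'.touch
          rw [hmid, if_neg (by rw [k5]; simp)] at hy
          exact absurd hy List.not_mem_nil
        · have h3 := hreach _ _ k5
          rw [hφ0 i' hi2] at h3
          exact ⟨i', hi2, h1.trans h3⟩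
      · obtain ⟨j, rfl⟩ : ∃ j, i = N.length + 1 + j := ⟨i - (N.length + 1), by omega⟩
        rw [hφ2] at h1
        obtain ⟨i', hi2, h3⟩ := hWatt j (by omega)
        exact ⟨i', hi2, h1.trans h3⟩
  · intro e he
    obtain ⟨⟨h1, h2⟩, h3⟩ := k3 e he
    refine ⟨h1, h2, ?_⟩
    have h4 := hreach _ _ h3
    rw [hφ0 _ h1, hφ0 _ h2] at h4
    exact h4

end sound

end Pool.Agent.H685R2.VST
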