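import Pool.Agent.H685R2.VST.Sound

/-!
# Inclusion-minimal solutions have few inner Steiner vertices
-/

namespace Pool.Agent.H685R2.VST

open Relation

/-- Every non-terminal of the solution is a cut vertex of it. -/
def Cut (A : ℕ → ℕ → Bool) (U : List ℕ) (S : Finset ℕ) : Prop :=
  ∀ r ∈ S, r ∉ U → ∀ i ∈ S, i ≠ r →
    ∃ y ∈ S, A r y = true ∧ ¬ Rs (fun a b => A a b = true) (· ∈ S.erase r) y i

/-- The independence number of `Bg` is at most `a`. -/
def Alpha (A : ℕ → ℕ → Bool) (Bg : ℕ → Prop) (a : ℕ) : Prop :=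
  ∀ I : Finset ℕ, (∀ x ∈ I, Bg x) → (∀ x ∈ I, ∀ y ∈ I, x ≠ y → A x y = false) → I.card ≤ a

theorem exists_dom (A : ℕ → ℕ → Bool) (hA : ∀ a b, A a b = true → A b a = true) (M : Finset ℕ) :
    ∃ I ⊆ M, (∀ x ∈ I, ∀ y ∈ I, x ≠ y → A x y = false) ∧
      ∀ x ∈ M, x ∈ I ∨ ∃ i ∈ I, A x i = true := by
  induction M using Finset.induction with
  | empty => exact ⟨∅, by simp, by simp, by simp⟩
  | insert x M hx ih =>
    obtain ⟨I, hI, h1, h2⟩ := ih
    by_cases hex : ∃ i ∈ I, A x i = true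
    · refine ⟨I, hI.trans (Finset.subset_insert _ _), h1, ?_⟩
      intro y hy
      rcases Finset.mem_insert.1 hy with rfl | hy
      · exact Or.inr hex
      · exact h2 y hy
    · refine ⟨insert x I, Finset.insert_subset_insert _ hI, ?_, ?_⟩
      · intro y hy z hz hyz
        rcases Finset.mem_insert.1 hy with rfl | hy' <;> rcases Finset.mem_insert.1 hz with rfl | hz'
        · exact absurd rfl hyz
        · rw [← Bool.not_eq_true]
          exact fun h => hex ⟨z, hz', h⟩
        · rw [← Bool.not_eq_true]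
          exact fun h => hex ⟨y, hy', hA _ _ h⟩
        · exact h1 y hy' z hz' hyz
      · intro y hy
        rcases Finset.mem_insert.1 hy with rfl | hy
        · exact Or.inl (Finset.mem_insert_self _ _)
        · rcases h2 y hy with h | ⟨i, hi, h⟩
          · exact Or.inl (Finset.mem_insert_of_mem h)
          · exact Or.inr ⟨i, Finset.mem_insert_of_mem hi, h⟩

theorem bounded_inner {A : ℕ → ℕ → Bool} (hA : ∀ a b, A a b = true → A b a = true)
    (hirr : ∀ a, A a a = false) {U : List ℕ} {S : Finset ℕ} (hcut : Cut A U S) {Bg : ℕ → Prop}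
    {a : ℕ} (hα : Alpha A Bg a) (M : Finset ℕ) (hMS : ∀ r ∈ M, r ∈ S ∧ r ∉ U ∧ Bg r)
    (hN : ∀ r ∈ M, ∀ y ∈ S, A r y = true → Bg y) : M.card ≤ a * (1 + a) := by
  have hne : ∀ {x y : ℕ}, A x y = true → x ≠ y := by
    intro x y h hxy
    rw [hxy, hirr] at h
    simp at h
  have hdeg : ∀ i ∈ M, (M.filter (fun q => A i q = true)).card ≤ a := by
    intro i hi
    set Q := M.filter (fun q => A i q = true) with hQ
    have hex : ∀ q, ∃ y, q ∈ Q → y ∈ S ∧ A q y = true ∧
        ¬ Rs (fun a b => A a b = true) (· ∈ S.erase q) y i := by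
      intro q
      by_cases hq : q ∈ Q
      · rw [hQ, Finset.mem_filter] at hq
        obtain ⟨y, hy1, hy2, hy3⟩ := hcut q (hMS q hq.1).1 (hMS q hq.1).2.1 i (hMS i hi).1
          (hne hq.2)
        exact ⟨y, fun _ => ⟨hy1, hy2, hy3⟩⟩
      · exact ⟨0, fun h => absurd h hq⟩
    choose f hf using hex
    have hkey : ∀ q ∈ Q, ∀ q' ∈ Q, q ≠ q' → f q ≠ f q' ∧ A (f q) (f q') = false := by
      intro q hq q' hq' hqq
      obtain ⟨h1, h2, h3⟩ := hf q hq
      obtain ⟨h1', h2', h3'⟩ := hf q' hq'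
      rw [hQ, Finset.mem_filter] at hq hq'
      have hqi : q ≠ i := (hne hq.2).symm
      have hq'i : q' ≠ i := (hne hq'.2).symm
      have hiS := (hMS i hi).1
      have h4 : f q' ≠ q := by
        intro h
        apply h3'
        rw [h]
        exact Rs.single (hA _ _ hq.2) (Finset.mem_erase.2 ⟨hqq, (hMS q hq.1).1⟩)
          (Finset.mem_erase.2 ⟨hq'i.symm, hiS⟩)
      have h5 : f q ∈ S.erase q := Finset.mem_erase.2 ⟨(hne h2).symm, h1⟩
      have h6 : f q' ∈ S.erase q := Finset.mem_erase.2 ⟨h4, h1'⟩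
      have h7 : q' ∈ S.erase q := Finset.mem_erase.2 ⟨hqq.symm, (hMS q' hq'.1).1⟩
      have h8 : i ∈ S.erase q := Finset.mem_erase.2 ⟨hqi.symm, hiS⟩
      have h9 : Rs (fun a b => A a b = true) (· ∈ S.erase q) (f q') i :=
        (Rs.single (hA _ _ h2') h6 h7).trans (Rs.single (hA _ _ hq'.2) h7 h8)
      refine ⟨fun h => h3 (h ▸ h9), ?_⟩
      rw [← Bool.not_eq_true]
      exact fun h => h3 ((Rs.single h h5 h6).trans h9)
    have hinj : Set.InjOn f Q := by
      intro q hq q' hq' h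
      by_contra hqq
      exact (hkey q hq q' hq' hqq).1 h
    rw [← Finset.card_image_of_injOn hinj]
    apply hα
    · intro x hx
      obtain ⟨q, hq, rfl⟩ := Finset.mem_image.1 hx
      obtain ⟨h1, h2, _⟩ := hf q hq
      rw [hQ, Finset.mem_filter] at hq
      exact hN q hq.1 _ h1 h2
    · intro x hx y hy hxy
      obtain ⟨q, hq, rfl⟩ := Finset.mem_image.1 hx
      obtain ⟨q', hq', rfl⟩ := Finset.mem_image.1 hy
      by_cases hqq : q = q'
      · exact absurd (congrArg f hqq) hxy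
      · exact (hkey q hq q' hq' hqq).2
  obtain ⟨I, hI, h1, h2⟩ := exists_dom A hA M
  have hsub : M ⊆ I.biUnion (fun i => insert i (M.filter (fun q => A i q = true))) := by
    intro x hx
    rw [Finset.mem_biUnion]
    rcases h2 x hx with h | ⟨i, hi, h⟩
    · exact ⟨x, h, Finset.mem_insert_self _ _⟩
    · exact ⟨i, hi, Finset.mem_insert_of_mem (Finset.mem_filter.2 ⟨hx, hA _ _ h⟩)⟩
  have h3 := (Finset.card_le_card hsub).trans Finset.card_biUnion_le
  have h4 : ∑ i ∈ I, (insert i (M.filter (fun q => A i q = true))).card ≤ ∑ _i ∈ I, (1 + a) := by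
    apply Finset.sum_le_sum
    intro i hi
    have h5 := Finset.card_insert_le i (M.filter (fun q => A i q = true))
    have h6 := hdeg i (hI hi)
    omega
  rw [Finset.sum_const, smul_eq_mul] at h4
  have h5 : I.card ≤ a := hα I (fun x hx => (hMS x (hI hx)).2.2) h1
  exact (h3.trans h4).trans (Nat.mul_le_mul_right _ h5)

end Pool.Agent.H685R2.VST
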