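import Pool.Agent.H685R2.VST.Bound

/-!
# Completeness of the algorithm
-/

namespace Pool.Agent.H685R2.VST

open Relation

/-- Induced paths as lists. -/
def IndP (A : ℕ → ℕ → Bool) : List ℕ → Prop
  | [] => True
  | [_] => True
  | x :: y :: l => A x y = true ∧ (∀ z ∈ l, A x z = false ∧ x ≠ z) ∧ IndP A (y :: l)

/-- The part of the invariant that depends on the solution. -/
structure CInv (A : ℕ → ℕ → Bool) (S : Finset ℕ) (t j : ℕ) (C D : List ℕ) (v : ℕ)
    (N : List (List ℕ)) (P : List ℕ) (Bg : ℕ → Prop) : Prop where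
  adjD : ∀ r ∈ D, r ∈ S → ∀ r' ∈ D, r' ∈ S → A r r' = true →
    (∃ i < N.length, r ∈ N.getD i [] ∧ r' ∈ N.getD i []) ∨
    (∀ c ∈ C, A r c = true → A r' c = true) ∨ (∀ c ∈ C, A r' c = true → A r c = true)
  bagD : ∀ r ∈ D, Bg r
  bagN : ∀ r ∈ D, ∀ x, A r x = true → Bg x ∨ x ∈ C
  alpha : Alpha A Bg (j + 2)
  nlen : N.length ≤ 1 + j * (t + 4)
  path : IndP A (v :: P)
  plen : P.length = j + 1
  panti : ∀ x ∈ P, x ∉ C ∧ ∀ c ∈ C, A x c = false

section

variable {A : ℕ → ℕ → Bool} (hA : ∀ a b, A a b = true → A b a = true)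
  (hirr : ∀ a, A a a = false) (hcl : ClawFree A)
  {C D : List ℕ} {v : ℕ} (hI : Inv A C D v)

include hA hcl hI

/-- Comparison of the neighbourhoods of an old attached vertex and a vertex of the bag. -/
theorem Inv.nb_sub {r r' h : ℕ} (hr : r ∈ D) (hr' : r' ∈ bB A C v) (hrr : A r r' = true) :
    ∀ c ∈ chC A C v h, A r c = true → A r' c = true := by
  intro c hc hrc
  obtain ⟨p, hp1, hp2, hp3⟩ := hI.wit r hr
  have hr'C := (mem_bB.1 hr').1
  have hcC := (mem_cC.1 (chC_sub hc)).1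
  have h1 : p ≠ r' := fun h => hp2 (h ▸ hr'C)
  have h2 : p ≠ c := fun h => hp2 (h ▸ hcC)
  have h3 : r' ≠ c := by
    intro h
    have h4 := (mem_cC.1 (chC_sub hc)).2
    rw [← h, (mem_bB.1 hr').2] at h4
    simp at h4
  rcases hcl r p r' c hp1 hrr hrc h1 h3 h2 with h | h | h
  · rw [hp3 r' hr'C] at h; simp at h
  · exact h
  · rw [hp3 c hcC] at h; simp at h

/-- Neighbours in the region of a vertex attached to a part. -/
theorem Inv.nb_part {r x h : ℕ} (hr : r ∈ chD A C D v h) (hx : x ∈ C) (hrx : A r x = true) :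
    x ∈ bB A C v ∨ x ∈ chC A C v h := by
  by_cases hvx : A v x = true
  · exact Or.inl (mem_bB.2 ⟨hx, hvx⟩)
  · right
    have hxc : x ∈ cC A C v := mem_cC.2 ⟨hx, by simpa using hvx⟩
    obtain ⟨hr1, c, hc, hrc⟩ := mem_chD.1 hr
    by_cases hcx : c = x
    · rw [← hcx]; exact hc
    · exact chC_closed hA hc hxc
        (hI.nbClique' hA hcl (List.mem_append.2 hr1) (chC_sub hc) hxc hrc hrx hcx)

omit hcl in
theorem Inv.inn_disj {x h : ℕ} (hx : x ∈ inn A C D v)
    (hx' : x ∈ chC A C v h ∨ x ∈ chD A C D v h) : False := by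
  rw [mem_inn] at hx
  rcases hx' with h1 | h1
  · have h2 := mem_cC.1 (chC_sub h1)
    rcases hx.1 with h3 | h3
    · exact hI.dis x h2.1 h3
    · have h4 := (mem_bB.1 h3).2
      rw [h2.2] at h4
      simp at h4
  · obtain ⟨_, c, hc, hxc⟩ := mem_chD.1 h1
    rw [hx.2 c (chC_sub hc)] at hxc
    simp at hxc

omit hcl in
theorem Inv.cover {x : ℕ} (hx : x ∈ C ∨ x ∈ D) :
    x ∈ inn A C D v ∨ ∃ h ∈ headsL A (cC A C v), x ∈ chC A C v h ∨ x ∈ chD A C D v h := by
  by_cases hxc : x ∈ cC A C v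
  · obtain ⟨h, hh, hxh⟩ := exists_head hA hxc
    exact Or.inr ⟨h, hh, Or.inl hxh⟩
  · have hDB : x ∈ D ∨ x ∈ bB A C v := by
      rcases hx with hx | hx
      · right
        rw [mem_bB]
        refine ⟨hx, ?_⟩
        by_contra hcon
        exact hxc (mem_cC.2 ⟨hx, by simpa using hcon⟩)
      · exact Or.inl hx
    by_cases hnb : ∃ c ∈ cC A C v, A x c = true
    · obtain ⟨c, hc, hxc'⟩ := hnb
      obtain ⟨h, hh, hch⟩ := exists_head hA hc
      exact Or.inr ⟨h, hh, Or.inr (mem_chD.2 ⟨hDB, c, hch, hxc'⟩)⟩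
    · left
      rw [mem_inn]
      refine ⟨hDB, fun c hc => ?_⟩
      rw [← Bool.not_eq_true]
      exact fun h => hnb ⟨c, hc, h⟩

omit hA hcl hI in
theorem ch_sub {x h : ℕ} (hx : x ∈ chC A C v h ∨ x ∈ chD A C D v h) : x ∈ C ∨ x ∈ D := by
  rcases hx with hx | hx
  · exact Or.inl (mem_cC.1 (chC_sub hx)).1
  · rcases (mem_chD.1 hx).1 with h1 | h1
    · exact Or.inr h1
    · exact Or.inl (mem_bB.1 h1).1

omit hA hcl hI in
theorem inn_sub {x : ℕ} (hx : x ∈ inn A C D v) : x ∈ C ∨ x ∈ D := by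
  rcases (mem_inn.1 hx).1 with h1 | h1
  · exact Or.inr h1
  · exact Or.inl (mem_bB.1 h1).1

end

section newN

variable {A : ℕ → ℕ → Bool} {C D : List ℕ} {v : ℕ} {N : List (List ℕ)} {Y Wt : List ℕ} {act : Bool}

theorem newN_length : (newN A C D v N Y Wt act).length = N.length + 1 + Wt.length := by
  unfold newN; simp; omega

theorem newN_old {i : ℕ} (hi : i < N.length) : (newN A C D v N Y Wt act).getD i [] = N.getD i [] := by
  unfold newN
  rw [List.getD_eq_getElem?_getD, List.getD_eq_getElem?_getD, List.getElem?_append_left hi]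

theorem newN_mid : (newN A C D v N Y Wt act).getD N.length [] =
    if act = true then bB A C v else [] := by
  unfold newN
  rw [List.getD_eq_getElem?_getD, List.getElem?_append_right le_rfl]
  simp

theorem newN_new {j : ℕ} (hj : j < Wt.length) : (newN A C D v N Y Wt act).getD (N.length + 1 + j) [] =
    (C ++ D).filter (fun x => hasNb A (starV A Y Wt[j]) x) := by
  unfold newN
  rw [List.getD_eq_getElem?_getD, List.getElem?_append_right (by omega)]
  have h1 : N.length + 1 + j - N.length = j + 1 := by omega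
  rw [h1, List.getElem?_cons_succ, List.getElem?_map, List.getElem?_eq_getElem hj]
  rfl

theorem mem_newN_new {j x y : ℕ} (hj : j < Wt.length) (hx : x ∈ C ∨ x ∈ D)
    (hy : y ∈ starV A Y Wt[j]) (hxy : A x y = true) :
    x ∈ (newN A C D v N Y Wt act).getD (N.length + 1 + j) [] := by
  rw [newN_new hj, List.mem_filter, List.mem_append, mem_hasNb]
  exact ⟨hx, y, hy, hxy⟩

theorem getD_mem_length {L : List (List ℕ)} {i x : ℕ} (h : x ∈ L.getD i []) : i < L.length := by
  by_contra hc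
  rw [List.getD_eq_getElem?_getD, List.getElem?_eq_none (by omega)] at h
  exact absurd h List.not_mem_nil

theorem mem_star {Y : List ℕ} {y w : ℕ} : y ∈ starV A Y w ↔ y ∈ Y ∧ (y = w ∨ A y w = true) := by
  unfold starV
  rw [List.mem_filter, Bool.or_eq_true, decide_eq_true_eq]

end newN

/-- The completeness of one step: everything except the recursion. -/
theorem step_complete {A : ℕ → ℕ → Bool} (hA : ∀ a b, A a b = true → A b a = true)
    (hirr : ∀ a, A a a = false) (hcl : ClawFree A) {U C D : List ℕ} {v : ℕ}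
    {N : List (List ℕ)} {g : List (ℕ × ℕ)} {S : Finset ℕ} {t j : ℕ} {P : List ℕ} {Bg : ℕ → Prop}
    (hI : Inv A C D v) (hJ : CInv A S t j C D v N P Bg) (hcut : Cut A U S) (hjt : j ≤ t)
    (hok : Ok A (fun x => x ∈ C ∨ x ∈ D) U N g (fun x => x ∈ S ∧ (x ∈ C ∨ x ∈ D))) :
    ∃ (Z Wt : List ℕ) (act : Bool) (As : List (ℕ × ℕ × ℕ)),
      Z.length ≤ (t + 3) * (1 + (t + 3)) ∧ (∀ z ∈ Z, z ∈ inn A C D v) ∧
      Wt.length ≤ t + 3 ∧ (∀ z ∈ Wt, z ∈ inn A C D v) ∧
      As.length ≤ (N.length + 1 + Wt.length) * (N.length + 1 + Wt.length) ∧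
      (∀ a ∈ As, a.1 < N.length + 1 + Wt.length ∧ a.2.1 < N.length + 1 + Wt.length ∧
        a.2.2 ∈ headsL A (cC A C v)) ∧
      (Z.Nodup ∧ ∀ z ∈ Z, z ∈ S ∧ z ∉ U) ∧
      check A N g (yY A U C D v Z) Wt act As = true ∧
      (∀ h ∈ headsL A (cC A C v), Ok A (fun x => x ∈ chC A C v h ∨ x ∈ chD A C D v h) U
        (newN A C D v N (yY A U C D v Z) Wt act) (chg As h)
        (fun x => x ∈ S ∧ (x ∈ chC A C v h ∨ x ∈ chD A C D v h))) ∧
      (∀ h ∈ headsL A (cC A C v), ∃ P' Bg', CInv A S t (j + 1) (chC A C v h) (chD A C D v h)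
        (chv A C v h) (newN A C D v N (yY A U C D v Z) Wt act) P' Bg') := by
  classical
  have hne : ∀ {x y : ℕ}, A x y = true → x ≠ y := by
    intro x y h hxy
    rw [hxy, hirr] at h
    simp at h
  -- the new bag
  set Bg' : ℕ → Prop := fun x => Bg x ∨ x ∈ bB A C v with hBg'
  have hα' : Alpha A Bg' (j + 3) := by
    intro I hIB hind
    have h1 : (I.filter (fun x => Bg x)).card ≤ j + 2 := by
      apply hJ.alpha
      · intro x hx
        exact (Finset.mem_filter.1 hx).2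
      · intro x hx y hy hxy
        exact hind x (Finset.mem_filter.1 hx).1 y (Finset.mem_filter.1 hy).1 hxy
    have h2 : (I.filter (fun x => ¬ Bg x)).card ≤ 1 := by
      rw [Finset.card_le_one]
      intro x hx y hy
      rw [Finset.mem_filter] at hx hy
      by_contra hxy
      have h3 := hI.bclique hA hcl ((hIB x hx.1).resolve_left hx.2)
        ((hIB y hy.1).resolve_left hy.2) hxy
      rw [hind x hx.1 y hy.1 hxy] at h3
      simp at h3
    have h3 := Finset.card_filter_add_card_filter_not (s := I) (fun x => Bg x)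
    omega
  have hinnBg : ∀ r ∈ inn A C D v, Bg' r := by
    intro r hr
    rcases (mem_inn.1 hr).1 with h1 | h1
    · exact Or.inl (hJ.bagD r h1)
    · exact Or.inr h1
  have hinnN : ∀ r ∈ inn A C D v, ∀ y, A r y = true → Bg' y := by
    intro r hr y hry
    obtain ⟨h1, h2⟩ := mem_inn.1 hr
    have h3 : ∀ y ∈ C, A r y = true → y ∈ bB A C v := by
      intro y hy hry
      rw [mem_bB]
      refine ⟨hy, ?_⟩
      by_contra hcon
      have := h2 y (mem_cC.2 ⟨hy, by simpa using hcon⟩)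
      rw [hry] at this
      simp at this
    rcases h1 with h1 | h1
    · rcases hJ.bagN r h1 y hry with h4 | h4
      · exact Or.inl h4
      · exact Or.inr (h3 y h4 hry)
    · rcases hI.nbC r (mem_bB.1 h1).1 y hry with h4 | h4
      · exact Or.inr (h3 y h4 hry)
      · exact Or.inl (hJ.bagD y h4)
  -- inner Steiner vertices
  set Zs : Finset ℕ := S.filter (fun x => x ∈ inn A C D v ∧ x ∉ U) with hZs
  have hZcard : Zs.card ≤ (t + 3) * (1 + (t + 3)) := by
    have h1 := bounded_inner hA hirr hcut hα' Zs (fun r hr => by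
      rw [hZs, Finset.mem_filter] at hr
      exact ⟨hr.1, hr.2.2, hinnBg r hr.2.1⟩) (fun r hr y _ hry => by
      rw [hZs, Finset.mem_filter] at hr
      exact hinnN r hr.2.1 y hry)
    exact h1.trans (Nat.mul_le_mul (by omega) (by omega))
  set Z := Zs.toList with hZ
  have memZ : ∀ x, x ∈ Z ↔ x ∈ S ∧ x ∈ inn A C D v ∧ x ∉ U := by
    intro x
    rw [hZ, Finset.mem_toList, hZs, Finset.mem_filter]
  set Y := yY A U C D v Z with hY
  have memY : ∀ x, x ∈ Y ↔ x ∈ S ∧ x ∈ inn A C D v := by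
    intro x
    rw [hY]
    unfold yY
    rw [List.mem_append, memZ, List.mem_filter, decide_eq_true_eq]
    constructor
    · rintro (h | h)
      · exact ⟨h.1, h.2.1⟩
      · exact ⟨(hok.ter x (inn_sub h.1) h.2).1, h.1⟩
    · rintro ⟨h1, h2⟩
      by_cases hxU : x ∈ U
      · exact Or.inr ⟨h2, hxU⟩
      · exact Or.inl ⟨h1, h2, hxU⟩
  -- representatives
  obtain ⟨Ws, hWs, hWind, hWdom⟩ := exists_dom A hA Y.toFinset
  have hWcard : Ws.card ≤ j + 3 := by
    apply hα' Ws _ hWind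
    intro x hx
    exact hinnBg x ((memY x).1 (List.mem_toFinset.1 (hWs hx))).2
  set Wt := Ws.toList with hWt
  have memW : ∀ x, x ∈ Wt ↔ x ∈ Ws := fun x => by rw [hWt, Finset.mem_toList]
  have hWY : ∀ x ∈ Wt, x ∈ Y := fun x hx => List.mem_toFinset.1 (hWs ((memW x).1 hx))
  have hdom : ∀ y ∈ Y, ∃ j, ∃ hj : j < Wt.length, y ∈ starV A Y Wt[j] := by
    intro y hy
    rcases hWdom y (List.mem_toFinset.2 hy) with h | ⟨i, hi, h⟩
    · obtain ⟨j, hj, hj'⟩ := List.getElem_of_mem ((memW y).2 h)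
      exact ⟨j, hj, mem_star.2 ⟨hy, Or.inl hj'.symm⟩⟩
    · obtain ⟨j, hj, hj'⟩ := List.getElem_of_mem ((memW i).2 hi)
      exact ⟨j, hj, mem_star.2 ⟨hy, Or.inr (by rw [hj']; exact h)⟩⟩
  -- the clique portal
  set act : Bool := decide (∃ h ∈ headsL A (cC A C v), ∃ x ∈ S, x ∈ bB A C v ∧
    x ∈ chD A C D v h) with hact
  set N' := newN A C D v N Y Wt act with hN'
  have hlen : N'.length = N.length + 1 + Wt.length := newN_length
  -- membership in the new solution parts
  have hSX : ∀ {x h : ℕ}, x ∈ S → (x ∈ chC A C v h ∨ x ∈ chD A C D v h) →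
      x ∈ S ∧ (x ∈ C ∨ x ∈ D) := fun h1 h2 => ⟨h1, ch_sub h2⟩
  -- adjacency between different parts
  have hcross : ∀ {x y h h' : ℕ}, h ∈ headsL A (cC A C v) → h' ∈ headsL A (cC A C v) → h ≠ h' →
      x ∈ S → y ∈ S → (x ∈ chC A C v h ∨ x ∈ chD A C D v h) →
      (y ∈ chC A C v h' ∨ y ∈ chD A C D v h') → A x y = true →
      ∃ i < N'.length, x ∈ N'.getD i [] ∧ y ∈ N'.getD i [] := by
    intro x y h h' hh hh' hne' hx hy hxh hyh hxy
    have hch := (hI.child hA hcl hh).1
    have hch' := (hI.child hA hcl hh').1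
    have hxD : x ∈ chD A C D v h := by
      rcases hxh with h1 | h1
      · exact absurd (hI.parts_disj hA hcl hh hh' (hch.nbC x h1 y hxy) hyh) hne'
      · exact h1
    have hyD : y ∈ chD A C D v h' := by
      rcases hyh with h1 | h1
      · exact absurd (hI.parts_disj hA hcl hh hh' hxh (hch'.nbC y h1 x (hA _ _ hxy))) hne'
      · exact h1
    obtain ⟨hx1, c, hc, hxc⟩ := mem_chD.1 hxD
    obtain ⟨hy1, c', hc', hyc'⟩ := mem_chD.1 hyD
    have hcC := (mem_cC.1 (chC_sub hc)).1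
    have hcC' := (mem_cC.1 (chC_sub hc')).1
    rcases hx1 with hx1 | hx1 <;> rcases hy1 with hy1 | hy1
    · rcases hJ.adjD x hx1 hx y hy1 hy hxy with ⟨i, hi, h2, h3⟩ | h2 | h2
      · refine ⟨i, by omega, ?_, ?_⟩
        · rw [hN', newN_old hi]; exact h2
        · rw [hN', newN_old hi]; exact h3
      · exact absurd (hI.part_unique hA hcl hh hh' (Or.inl hy1) hc hc' (h2 c hcC hxc) hyc') hne'
      · exact absurd (hI.part_unique hA hcl hh hh' (Or.inl hx1) hc hc' hxc (h2 c' hcC' hyc')) hne'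
    · exact absurd (hI.part_unique hA hcl hh hh' (Or.inr hy1) hc hc'
        (hI.nb_sub hA hcl hx1 hy1 hxy c hc hxc) hyc') hne'
    · exact absurd (hI.part_unique hA hcl hh hh' (Or.inr hx1) hc hc' hxc
        (hI.nb_sub hA hcl hy1 hx1 (hA _ _ hxy) c' hc' hyc')) hne'
    · have hactT : act = true := by
        rw [hact, decide_eq_true_eq]
        exact ⟨h, hh, x, hx, hx1, hxD⟩
      refine ⟨N.length, by omega, ?_, ?_⟩
      · rw [hN', newN_mid, if_pos hactT]; exact hx1
      · rw [hN', newN_mid, if_pos hactT]; exact hy1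
  -- the children are attached
  have hatt : ∀ h ∈ headsL A (cC A C v), ∀ x ∈ S, (x ∈ chC A C v h ∨ x ∈ chD A C D v h) →
      ∃ i < N'.length, Rc A (fun x => x ∈ S ∧ (x ∈ chC A C v h ∨ x ∈ chD A C D v h)) N'
        (.inl x) (.inr i) := by
    intro h hh x hx hxh
    obtain ⟨i0, hi0, hr⟩ := hok.att x (hSX hx hxh)
    have key : ∀ p, Rc A (fun x => x ∈ S ∧ (x ∈ C ∨ x ∈ D)) N p (.inr i0) → ∀ x, p = .inl x →
        x ∈ S → (x ∈ chC A C v h ∨ x ∈ chD A C D v h) →
        ∃ i < N'.length, Rc A (fun x => x ∈ S ∧ (x ∈ chC A C v h ∨ x ∈ chD A C D v h)) N'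
          (.inl x) (.inr i) := by
      intro p hp
      induction hp using ReflTransGen.head_induction_on with
      | refl => intro x hx; simp at hx
      | @head p q hpq _ ih =>
        intro x hpx hx hxh
        subst hpx
        cases q with
        | inl y =>
          obtain ⟨hxy, _, hyS, hyX⟩ := hpq
          by_cases hyh : y ∈ chC A C v h ∨ y ∈ chD A C D v h
          · obtain ⟨i, hi, hr⟩ := ih y rfl hyS hyh
            exact ⟨i, hi, (Rc.edge (S := fun x => x ∈ S ∧ (x ∈ chC A C v h ∨ x ∈ chD A C D v h))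
              hxy ⟨hx, hxh⟩ ⟨hyS, hyh⟩).trans hr⟩
          · rcases hI.cover hA hyX with h1 | ⟨h', hh', h1⟩
            · obtain ⟨j, hj, hj'⟩ := hdom y ((memY y).2 ⟨hyS, h1⟩)
              refine ⟨N.length + 1 + j, by omega, Rc.port ⟨hx, hxh⟩ ?_⟩
              exact mem_newN_new hj (ch_sub hxh) hj' hxy
            · have hne' : h ≠ h' := by
                rintro rfl
                exact hyh h1
              obtain ⟨i, hi, h2, _⟩ := hcross hh hh' hne' hx hyS hxh h1 hxy
              exact ⟨i, hi, Rc.port ⟨hx, hxh⟩ h2⟩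
        | inr i =>
          have hi := getD_mem_length hpq.2
          refine ⟨i, by omega, Rc.port ⟨hx, hxh⟩ ?_⟩
          rw [hN', newN_old hi]
          exact hpq.2
    exact key _ hr x rfl hx hxh
  -- the assignments
  set fA : ℕ × ℕ → Option (ℕ × ℕ × ℕ) := fun e =>
    if hex : ∃ h ∈ headsL A (cC A C v), Rc A (fun x => x ∈ S ∧ (x ∈ chC A C v h ∨ x ∈ chD A C D v h))
      N' (.inr e.1) (.inr e.2) then some (e.1, e.2, hex.choose) else none with hfA
  set As : List (ℕ × ℕ × ℕ) := (List.range N'.length ×ˢ List.range N'.length).filterMap fA with hAs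
  have memAs : ∀ a, a ∈ As → a.1 < N'.length ∧ a.2.1 < N'.length ∧ a.2.2 ∈ headsL A (cC A C v) ∧
      Rc A (fun x => x ∈ S ∧ (x ∈ chC A C v a.2.2 ∨ x ∈ chD A C D v a.2.2))
        N' (.inr a.1) (.inr a.2.1) := by
    intro a ha
    rw [hAs, List.mem_filterMap] at ha
    obtain ⟨e, he, ha⟩ := ha
    rw [List.mem_product, List.mem_range, List.mem_range] at he
    rw [hfA] at ha
    simp only at ha
    split_ifs at ha with hex
    have h1 := Option.some.inj ha
    have h2 := hex.choose_spec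
    rw [← h1]
    exact ⟨he.1, he.2, h2.1, h2.2⟩
  have memAs' : ∀ p q h, p < N'.length → q < N'.length → h ∈ headsL A (cC A C v) →
      Rc A (fun x => x ∈ S ∧ (x ∈ chC A C v h ∨ x ∈ chD A C D v h)) N' (.inr p) (.inr q) →
      ∃ a ∈ As, a.1 = p ∧ a.2.1 = q := by
    intro p q h hp hq hh hr
    have hex : ∃ h ∈ headsL A (cC A C v), Rc A (fun x => x ∈ S ∧
      (x ∈ chC A C v h ∨ x ∈ chD A C D v h)) N' (.inr (p, q).1) (.inr (p, q).2) := ⟨h, hh, hr⟩
    refine ⟨(p, q, hex.choose), ?_, rfl, rfl⟩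
    rw [hAs, List.mem_filterMap]
    refine ⟨(p, q), ?_, ?_⟩
    · rw [List.mem_product, List.mem_range, List.mem_range]
      exact ⟨hp, hq⟩
    · rw [hfA]
      simp only
      rw [dif_pos hex]
  -- the portal graph
  set G : ℕ → ℕ → Prop := fun p q =>
    Rs (fun a b => gam A N Y Wt As a b = true) (· ∈ List.range (N.length + 1 + Wt.length)) p q with hG
  have hGsymm : ∀ p q, G p q → G q p := fun p q h => Rs.symm (gam_symm hA N Y Wt As) h
  have hGedge : ∀ p q, p < N'.length → q < N'.length → gam A N Y Wt As p q = true → G p q := by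
    intro p q hp hq h
    rw [hlen] at hp hq
    exact Rs.single h (List.mem_range.2 hp) (List.mem_range.2 hq)
  have hGlink : ∀ i k, i < N.length → ∀ hk : k < Wt.length, ∀ y, y ∈ starV A Y Wt[k] →
      y ∈ N.getD i [] → G i (N.length + 1 + k) := by
    intro i k hi hk y hy hyi
    apply hGedge _ _ (by omega) (by omega)
    unfold gam
    rw [Bool.or_eq_true, Bool.or_eq_true, Bool.or_eq_true]
    right; left; left
    unfold link
    simp only [Bool.and_eq_true, decide_eq_true_eq, List.any_eq_true]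
    refine ⟨⟨hi, by omega⟩, y, ?_, hyi⟩
    rw [Nat.add_sub_cancel_left, List.getD_eq_getElem?_getD, List.getElem?_eq_getElem hk]
    exact hy
  have hGwlink : ∀ i k, ∀ hi : i < Wt.length, ∀ hk : k < Wt.length, ∀ y y', y ∈ starV A Y Wt[i] →
      y' ∈ starV A Y Wt[k] → (y = y' ∨ A y y' = true) → G (N.length + 1 + i) (N.length + 1 + k) := by
    intro i k hi hk y y' hy hy' h
    apply hGedge _ _ (by omega) (by omega)
    unfold gam
    rw [Bool.or_eq_true, Bool.or_eq_true, Bool.or_eq_true]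
    right; right
    unfold wlink
    simp only [Bool.and_eq_true, Bool.or_eq_true, decide_eq_true_eq, List.any_eq_true]
    refine ⟨⟨by omega, by omega⟩, y, ?_, y', ?_, h⟩
    · rw [Nat.add_sub_cancel_left, List.getD_eq_getElem?_getD, List.getElem?_eq_getElem hi]
      exact hy
    · rw [Nat.add_sub_cancel_left, List.getD_eq_getElem?_getD, List.getElem?_eq_getElem hk]
      exact hy'
  have hGchild : ∀ p q h, p < N'.length → q < N'.length → h ∈ headsL A (cC A C v) →
      Rc A (fun x => x ∈ S ∧ (x ∈ chC A C v h ∨ x ∈ chD A C D v h)) N' (.inr p) (.inr q) →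
      G p q := by
    intro p q h hp hq hh hr
    obtain ⟨a, ha, ha1, ha2⟩ := memAs' p q h hp hq hh hr
    apply hGedge _ _ hp hq
    unfold gam
    rw [Bool.or_eq_true]
    left
    rw [List.any_eq_true]
    exact ⟨a, ha, by simp [ha1, ha2]⟩
  -- touching
  set Tch : ℕ ⊕ ℕ → ℕ → Prop := fun p i => i < N'.length ∧ (match p with
    | .inl x => x ∈ S ∧ (x ∈ C ∨ x ∈ D) ∧ ((∃ k, ∃ hk : k < Wt.length, i = N.length + 1 + k ∧
        x ∈ starV A Y Wt[k]) ∨ ∃ h ∈ headsL A (cC A C v), (x ∈ chC A C v h ∨ x ∈ chD A C D v h) ∧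
        Rc A (fun x => x ∈ S ∧ (x ∈ chC A C v h ∨ x ∈ chD A C D v h)) N' (.inl x) (.inr i))
    | .inr i0 => i = i0 ∧ i0 < N.length) with hTch
  have hP1 : ∀ p i i', Tch p i → Tch p i' → G i i' := by
    intro p i i' h1 h2
    cases p with
    | inl x =>
      obtain ⟨hi, hx, hxX, h1⟩ := h1
      obtain ⟨hi', _, _, h2⟩ := h2
      rcases h1 with ⟨k, hk, rfl, h1⟩ | ⟨h, hh, hxh, h1⟩ <;>
        rcases h2 with ⟨k', hk', rfl, h2⟩ | ⟨h', hh', hxh', h2⟩
      · exact hGwlink k k' hk hk' x x h1 h2 (Or.inl rfl)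
      · exact (hI.inn_disj hA ((memY x).1 (mem_star.1 h1).1).2 hxh').elim
      · exact (hI.inn_disj hA ((memY x).1 (mem_star.1 h2).1).2 hxh).elim
      · have he := hI.parts_disj hA hcl hh hh' hxh hxh'
        subst he
        exact hGchild i i' h hi hi' hh ((Rc.symm hA h1).trans h2)
    | inr i0 =>
      rw [h1.2.1, h2.2.1]
      exact Rs.refl _
  have hP2 : ∀ p q, Stp A (fun x => x ∈ S ∧ (x ∈ C ∨ x ∈ D)) N p q →
      ∃ i i', Tch p i ∧ Tch q i' ∧ G i i' := by
    have hTY : ∀ x, x ∈ S → x ∈ inn A C D v → ∃ k, ∃ hk : k < Wt.length,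
        x ∈ starV A Y Wt[k] ∧ Tch (.inl x) (N.length + 1 + k) := by
      intro x hx hxi
      obtain ⟨k, hk, hk'⟩ := hdom x ((memY x).2 ⟨hx, hxi⟩)
      exact ⟨k, hk, hk', by omega, hx, inn_sub hxi, Or.inl ⟨k, hk, rfl, hk'⟩⟩
    have hXY : ∀ x y h, x ∈ S → x ∈ inn A C D v → y ∈ S → h ∈ headsL A (cC A C v) →
        (y ∈ chC A C v h ∨ y ∈ chD A C D v h) → A y x = true →
        ∃ i, Tch (.inl x) i ∧ Tch (.inl y) i := by
      intro x y h hx hxi hy hh hyh hyx
      obtain ⟨k, hk, hk', hT⟩ := hTY x hx hxi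
      refine ⟨_, hT, by omega, hy, ch_sub hyh, Or.inr ⟨h, hh, hyh, Rc.port ⟨hy, hyh⟩ ?_⟩⟩
      exact mem_newN_new hk (ch_sub hyh) hk' hyx
    have hXi : ∀ x i, x ∈ S → (x ∈ C ∨ x ∈ D) → x ∈ N.getD i [] →
        ∃ i', Tch (.inl x) i' ∧ Tch (.inr i) i ∧ G i' i := by
      intro x i hx hxX hxi
      have hi := getD_mem_length hxi
      have hTi : Tch (.inr i) i := ⟨by omega, rfl, hi⟩
      rcases hI.cover hA hxX with h1 | ⟨h, hh, h1⟩
      · obtain ⟨k, hk, hk', hT⟩ := hTY x hx h1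
        exact ⟨_, hT, hTi, hGsymm _ _ (hGlink i k hi hk x hk' hxi)⟩
      · refine ⟨i, ⟨by omega, hx, hxX, Or.inr ⟨h, hh, h1, Rc.port ⟨hx, h1⟩ ?_⟩⟩, hTi, Rs.refl _⟩
        rw [hN', newN_old hi]
        exact hxi
    intro p q hpq
    cases p with
    | inl x =>
      cases q with
      | inl y =>
        obtain ⟨hxy, ⟨hx, hxX⟩, hy, hyX⟩ := hpq
        rcases hI.cover hA hxX with h1 | ⟨h, hh, h1⟩ <;>
          rcases hI.cover hA hyX with h2 | ⟨h', hh', h2⟩
        · obtain ⟨k, hk, hk', hT⟩ := hTY x hx h1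
          obtain ⟨k2, hk2, hk2', hT2⟩ := hTY y hy h2
          exact ⟨_, _, hT, hT2, hGwlink k k2 hk hk2 x y hk' hk2' (Or.inr hxy)⟩
        · obtain ⟨i, h3, h4⟩ := hXY x y h' hx h1 hy hh' h2 (hA _ _ hxy)
          exact ⟨i, i, h3, h4, Rs.refl _⟩
        · obtain ⟨i, h3, h4⟩ := hXY y x h hy h2 hx hh h1 hxy
          exact ⟨i, i, h4, h3, Rs.refl _⟩
        · by_cases hhh : h = h'
          · subst hhh
            obtain ⟨i, hi, hr⟩ := hatt h hh x hx h1
            refine ⟨i, i, ⟨hi, hx, hxX, Or.inr ⟨h, hh, h1, hr⟩⟩,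
              ⟨hi, hy, hyX, Or.inr ⟨h, hh, h2, ?_⟩⟩, Rs.refl _⟩
            exact (Rc.edge (S := fun x => x ∈ S ∧ (x ∈ chC A C v h ∨ x ∈ chD A C D v h))
              (hA _ _ hxy) ⟨hy, h2⟩ ⟨hx, h1⟩).trans hr
          · obtain ⟨i, hi, h3, h4⟩ := hcross hh hh' hhh hx hy h1 h2 hxy
            exact ⟨i, i, ⟨hi, hx, hxX, Or.inr ⟨h, hh, h1, Rc.port ⟨hx, h1⟩ h3⟩⟩,
              ⟨hi, hy, hyX, Or.inr ⟨h', hh', h2, Rc.port ⟨hy, h2⟩ h4⟩⟩, Rs.refl _⟩
      | inr i =>
        obtain ⟨i', h1, h2, h3⟩ := hXi x i hpq.1.1 hpq.1.2 hpq.2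
        exact ⟨i', i, h1, h2, h3⟩
    | inr i =>
      cases q with
      | inl y =>
        obtain ⟨i', h1, h2, h3⟩ := hXi y i hpq.1.1 hpq.1.2 hpq.2
        exact ⟨i, i', h2, h1, hGsymm _ _ h3⟩
      | inr j => exact hpq.elim
  have hP3 : ∀ p q, Rc A (fun x => x ∈ S ∧ (x ∈ C ∨ x ∈ D)) N p q →
      ∀ i i', Tch p i → Tch q i' → G i i' := by
    intro p q hpq
    induction hpq with
    | refl => exact fun i i' h1 h2 => hP1 _ i i' h1 h2
    | tail _ hst ih =>
      intro i i' h1 h2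
      obtain ⟨i1, i2, h3, h4, h5⟩ := hP2 _ _ hst
      exact ((ih i i1 h1 h3).trans h5).trans (hP1 _ i2 i' h4 h2)
  have hWlen : Wt.length ≤ j + 3 := by rw [hWt, Finset.length_toList]; exact hWcard
  have hGmem : ∀ p q, p < N'.length → q < N'.length → G p q →
      q ∈ reachL (gam A N Y Wt As) (List.range (N.length + 1 + Wt.length)) p := by
    intro p q hp hq h
    rw [mem_reachL (gam_symm hA N Y Wt As), List.mem_range, List.mem_range]
    exact ⟨by omega, by omega, h⟩
  refine ⟨Z, Wt, act, As, ?_, fun z hz => ((memZ z).1 hz).2.1, by omega,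
    fun z hz => ((memY z).1 (hWY z hz)).2, ?_, ?_, ⟨?_, fun z hz => ⟨((memZ z).1 hz).1,
      ((memZ z).1 hz).2.2⟩⟩, ?_, ?_, ?_⟩
  · rw [hZ, Finset.length_toList]
    exact hZcard
  · rw [hAs, ← hlen]
    refine (List.length_filterMap_le _ _).trans ?_
    rw [List.length_product, List.length_range]
  · intro a ha
    have h1 := memAs a ha
    exact ⟨by omega, by omega, h1.2.2.1⟩
  · rw [hZ]
    exact Finset.nodup_toList _
  · -- the test
    unfold check
    simp only [Bool.and_eq_true, List.all_eq_true, List.any_eq_true, Bool.or_eq_true,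
      decide_eq_true_eq, Bool.not_eq_true', List.mem_range]
    refine ⟨⟨⟨⟨?_, hWY⟩, ?_⟩, ?_⟩, ?_⟩
    · intro y hy
      obtain ⟨k, hk, hk'⟩ := hdom y hy
      exact ⟨_, List.getElem_mem hk, (mem_star.1 hk').2⟩
    · intro e he
      obtain ⟨h1, h2, h3⟩ := hok.con e he
      exact ⟨⟨h1, h2⟩, hGmem _ _ (by omega) (by omega)
        (hP3 _ _ h3 _ _ ⟨by omega, rfl, h1⟩ ⟨by omega, rfl, h2⟩)⟩
    · intro k hk
      have hY1 := (memY _).1 (hWY _ (List.getElem_mem hk))
      obtain ⟨i, hi, hr⟩ := hok.att Wt[k] ⟨hY1.1, inn_sub hY1.2⟩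
      refine ⟨i, hi, hGmem _ _ (by omega) (by omega) (hP3 _ _ hr _ _ ⟨by omega, hY1.1,
        inn_sub hY1.2, Or.inl ⟨k, hk, rfl, mem_star.2 ⟨hWY _ (List.getElem_mem hk), Or.inl rfl⟩⟩⟩
        ⟨by omega, rfl, hi⟩)⟩
    · by_cases hc : act = true
      · right
        have hc' := hc
        rw [hact, decide_eq_true_eq] at hc'
        obtain ⟨h, hh, x, hx, hxB, hxD⟩ := hc'
        obtain ⟨i, hi, hr⟩ := hok.att x ⟨hx, ch_sub (Or.inr hxD)⟩
        refine ⟨i, hi, hGmem _ _ (by omega) (by omega) (hP3 _ _ hr _ _ ⟨by omega, hx,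
          ch_sub (Or.inr hxD), Or.inr ⟨h, hh, Or.inr hxD, Rc.port ⟨hx, Or.inr hxD⟩ ?_⟩⟩
          ⟨by omega, rfl, hi⟩)⟩
        rw [hN', newN_mid, if_pos hc]
        exact hxB
      · left
        simpa using hc
  · -- the parts are admissible
    intro h hh
    refine ⟨fun x hx => hx.2, fun x hx hxU => ⟨(hok.ter x (ch_sub hx) hxU).1, hx⟩,
      fun x hx => hatt h hh x hx.1 hx.2, ?_⟩
    intro e he
    unfold chg at he
    rw [List.mem_map] at he
    obtain ⟨a, ha, rfl⟩ := he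
    rw [List.mem_filter, decide_eq_true_eq] at ha
    obtain ⟨h1, h2, _, h4⟩ := memAs a ha.1
    rw [ha.2] at h4
    exact ⟨h1, h2, h4⟩
  · -- the invariants of the parts
    intro h hh
    obtain ⟨hch, hvv, hvC⟩ := hI.child hA hcl hh
    refine ⟨v :: P, Bg', ?_⟩
    change CInv A S t (j + 1) (chC A C v h) (chD A C D v h) (chv A C v h) N' (v :: P) Bg'
    refine ⟨?_, ?_, ?_, ?_, ?_, ?_, ?_, ?_⟩
    · intro r hr hrS r' hr' hrS' hrr
      obtain ⟨hr1, c, hc, hrc⟩ := mem_chD.1 hr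
      obtain ⟨hr1', c', hc', hrc'⟩ := mem_chD.1 hr'
      rcases hr1 with hr1 | hr1 <;> rcases hr1' with hr1' | hr1'
      · rcases hJ.adjD r hr1 hrS r' hr1' hrS' hrr with ⟨i, hi, h2, h3⟩ | h2 | h2
        · left
          refine ⟨i, by omega, ?_, ?_⟩
          · rw [hN', newN_old hi]; exact h2
          · rw [hN', newN_old hi]; exact h3
        · exact Or.inr (Or.inl fun c hc hrc => h2 c (mem_cC.1 (chC_sub hc)).1 hrc)
        · exact Or.inr (Or.inr fun c hc hrc => h2 c (mem_cC.1 (chC_sub hc)).1 hrc)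
      · exact Or.inr (Or.inl (hI.nb_sub hA hcl hr1 hr1' hrr))
      · exact Or.inr (Or.inr (hI.nb_sub hA hcl hr1' hr1 (hA _ _ hrr)))
      · left
        have hactT : act = true := by
          rw [hact, decide_eq_true_eq]
          exact ⟨h, hh, r, hrS, hr1, hr⟩
        refine ⟨N.length, by omega, ?_, ?_⟩
        · rw [hN', newN_mid, if_pos hactT]; exact hr1
        · rw [hN', newN_mid, if_pos hactT]; exact hr1'
    · intro r hr
      rcases (mem_chD.1 hr).1 with h1 | h1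
      · exact Or.inl (hJ.bagD r h1)
      · exact Or.inr h1
    · intro r hr x hrx
      have hkey : x ∈ C → Bg' x ∨ x ∈ chC A C v h := by
        intro hx
        rcases hI.nb_part hA hcl hr hx hrx with h1 | h1
        · exact Or.inl (Or.inr h1)
        · exact Or.inr h1
      rcases (mem_chD.1 hr).1 with h1 | h1
      · rcases hJ.bagN r h1 x hrx with h2 | h2
        · exact Or.inl (Or.inl h2)
        · exact hkey h2
      · rcases hI.nbC r (mem_bB.1 h1).1 x hrx with h2 | h2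
        · exact hkey h2
        · exact Or.inl (Or.inl (hJ.bagD x h2))
    · intro I hI1 hI2
      have := hα' I hI1 hI2
      omega
    · have h1 := hJ.nlen
      have h2 : (j + 1) * (t + 4) = j * (t + 4) + (t + 4) := by ring
      rw [hlen, h2]
      omega
    · refine ⟨hA _ _ hvv, fun z hz => ⟨?_, ?_⟩, hJ.path⟩
      · have h1 := (hJ.panti z hz).2 _ hvC
        rw [← Bool.not_eq_true] at h1 ⊢
        exact fun h2 => h1 (hA _ _ h2)
      · intro h1
        exact (hJ.panti z hz).1 (h1 ▸ hvC)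
    · rw [List.length_cons, hJ.plen]
    · intro x hx
      rcases List.mem_cons.1 hx with rfl | hx
      · exact ⟨fun h1 => hI.dis _ (mem_cC.1 (chC_sub h1)).1 hI.vD,
          fun c hc => (mem_cC.1 (chC_sub hc)).2⟩
      · exact ⟨fun h1 => (hJ.panti x hx).1 (mem_cC.1 (chC_sub h1)).1,
          fun c hc => (hJ.panti x hx).2 c (mem_cC.1 (chC_sub hc)).1⟩

end Pool.Agent.H685R2.VST
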