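import Mathlib

/-!
# Vertex Steiner Tree: definitions
-/

namespace Pool.Agent.H685R2.VST

/-- An instance of Vertex Steiner Tree: `((ws, E), (U, k))`, where `ws` is the list of the vertex
weights (the vertices are the positions `0, 1, …, ws.length - 1`), `E` the list of edges, `U` the
list of terminals and `k` the bound. All numbers are coded in binary. -/
abbrev Instance : Type := (List ℚ × List (ℕ × ℕ)) × (List ℕ × ℚ)

/-- The graph of an instance. -/
def graph (I : Instance) : SimpleGraph (Fin I.1.1.length) where
  Adj i j := i ≠ j ∧ ((i.val, j.val) ∈ I.1.2 ∨ (j.val, i.val) ∈ I.1.2)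
  symm := ⟨fun _ _ h => ⟨h.1.symm, h.2.symm⟩⟩
  loopless := ⟨fun _ h => h.1 rfl⟩

/-- The weight of a vertex. -/
def weight (I : Instance) (i : Fin I.1.1.length) : ℚ := I.1.1.get i

/-- The set of terminals. -/
def terminals (I : Instance) : Finset (Fin I.1.1.length) :=
  Finset.univ.filter (fun i => i.val ∈ I.2.1)

/-- There is a set `R` of non-terminals such that the terminals together with `R` induce a
connected subgraph of total weight at most the bound. -/
def HasSteinerTree (I : Instance) : Prop :=
  ∃ R : Finset (Fin I.1.1.length), Disjoint R (terminals I) ∧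
    ((graph I).induce ((terminals I ∪ R : Finset _) : Set (Fin I.1.1.length))).Connected ∧
    ∑ u ∈ terminals I ∪ R, weight I u ≤ I.2.2

/-- `G` has no induced subgraph isomorphic to `H`. -/
def IndFree {V W : Type} (H : SimpleGraph V) (G : SimpleGraph W) : Prop := IsEmpty (H ↪g G)

/-- The yes-instances of Vertex Steiner Tree, with positive weights, on graphs without induced
claws `K_{1,3}` and without induced paths on `t` vertices. -/
def VSTClawPath (t : ℕ) (I : Instance) : Prop :=
  (∀ q ∈ I.1.1, 0 < q) ∧ IndFree (completeBipartiteGraph (Fin 1) (Fin 3)) (graph I) ∧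
    IndFree (SimpleGraph.pathGraph t) (graph I) ∧ HasSteinerTree I

end Pool.Agent.H685R2.VST
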