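import Pool.Agent.H685R2.VST.PolyF

/-!
# The algorithm runs in polynomial time (continued)
-/

namespace Pool.Agent.NPC.H685VST

open Pool.Agent.H685R2.VST

attribute [local irreducible] reachL compL headsL minO sumO hasNb bB cC inn starV newN gam chC chD
  chv chg yY check tup

variable {α : Type} [TEnc α]

theorem poly_prod {β γ : Type} [TEnc β] [TEnc γ] {l : α → List β} {l' : α → List γ}
    (hl : Poly l) (hl' : Poly l') : Poly (fun a => (l a) ×ˢ (l' a)) := R671.poly_product hl hl'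

theorem poly_guesses {A : α → ℕ → ℕ → Bool} (K : ℕ)
    (hA : Poly (fun p : α × ℕ × ℕ => A p.1 p.2.1 p.2.2)) :
    Poly (fun p : α × State => guesses (A p.1) K p.2) := by
  unfold guesses
  have h1 : Poly (fun p : α × State => inn (A p.1) p.2.1 p.2.2.1 p.2.2.2.1) := by fun_prop
  have h2 : Poly (fun p : α × State => headsL (A p.1) (cC (A p.1) p.2.1 p.2.2.2.1)) := by fun_prop
  have h3 : Poly (fun p : α × State => List.range (p.2.2.2.2.1.length + 1 + K)) := by fun_prop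
  exact poly_prod (poly_tup h1 K) (poly_prod (poly_tup h1 K) (poly_prod (Poly.const _)
    (poly_tup (poly_prod h3 (poly_prod h3 h2)) K)))

theorem poly_val {A : α → ℕ → ℕ → Bool} {w : α → ℕ → ℕ} {U : α → List ℕ}
    {rec : α → State → Option ℕ}
    (hA : Poly (fun p : α × ℕ × ℕ => A p.1 p.2.1 p.2.2)) (hw : Poly (fun p : α × ℕ => w p.1 p.2))
    (hU : Poly U) (hr : Poly (fun p : α × State => rec p.1 p.2)) :
    Poly (fun p : (α × State) × Guess => val (A p.1.1) (w p.1.1) (U p.1.1) (rec p.1.1) p.1.2 p.2) := by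
  unfold val
  refine Poly.ite (Poly.decide_bool ?_) (poly_sumO (Poly.cons ?_ (Poly.map ?_ ?_))) (Poly.const none)
  · fun_prop
  · fun_prop
  · fun_prop
  · refine hr.comp (f := fun q : ((α × State) × Guess) × ℕ => ((q.1.1.1,
      (chC (A q.1.1.1) q.1.1.2.1 q.1.1.2.2.2.1 q.2, chD (A q.1.1.1) q.1.1.2.1 q.1.1.2.2.1
        q.1.1.2.2.2.1 q.2, chv (A q.1.1.1) q.1.1.2.1 q.1.1.2.2.2.1 q.2,
        newN (A q.1.1.1) q.1.1.2.1 q.1.1.2.2.1 q.1.1.2.2.2.1 q.1.1.2.2.2.2.1
          (yY (A q.1.1.1) (U q.1.1.1) q.1.1.2.1 q.1.1.2.2.1 q.1.1.2.2.2.1 q.1.2.1)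
          q.1.2.2.1 q.1.2.2.2.1, chg q.1.2.2.2.2 q.2)) : α × State)) ?_
    have e1 : Poly (fun q : ((α × State) × Guess) × ℕ => q.1.1.1) := by fun_prop
    have e2 : Poly (fun q : ((α × State) × Guess) × ℕ => chC (A q.1.1.1) q.1.1.2.1
      q.1.1.2.2.2.1 q.2) := by fun_prop
    have e3 : Poly (fun q : ((α × State) × Guess) × ℕ => chD (A q.1.1.1) q.1.1.2.1 q.1.1.2.2.1
        q.1.1.2.2.2.1 q.2) := by fun_prop
    have e4 : Poly (fun q : ((α × State) × Guess) × ℕ => chv (A q.1.1.1) q.1.1.2.1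
      q.1.1.2.2.2.1 q.2) := by fun_prop
    have e5 : Poly (fun q : ((α × State) × Guess) × ℕ => yY (A q.1.1.1) (U q.1.1.1) q.1.1.2.1
      q.1.1.2.2.1 q.1.1.2.2.2.1 q.1.2.1) := by fun_prop
    have e6 : Poly (fun q : ((α × State) × Guess) × ℕ => newN (A q.1.1.1) q.1.1.2.1 q.1.1.2.2.1
      q.1.1.2.2.2.1 q.1.1.2.2.2.2.1 (yY (A q.1.1.1) (U q.1.1.1) q.1.1.2.1 q.1.1.2.2.1
        q.1.1.2.2.2.1 q.1.2.1) q.1.2.2.1 q.1.2.2.2.1) := by fun_prop
    have e7 : Poly (fun q : ((α × State) × Guess) × ℕ => chg q.1.2.2.2.2 q.2) := by fun_prop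
    exact e1.pair (e2.pair (e3.pair (e4.pair (e6.pair e7))))

theorem poly_F {A : α → ℕ → ℕ → Bool} {w : α → ℕ → ℕ} {U : α → List ℕ} (K : ℕ)
    (hA : Poly (fun p : α × ℕ × ℕ => A p.1 p.2.1 p.2.2)) (hw : Poly (fun p : α × ℕ => w p.1 p.2))
    (hU : Poly U) : ∀ k, Poly (fun p : α × State => F (A p.1) K (w p.1) (U p.1) k p.2)
  | 0 => by
    unfold F
    exact Poly.const none
  | k + 1 => by
    have ih := poly_F K hA hw hU k
    unfold F
    exact poly_minO (Poly.map (poly_guesses K hA)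
      (poly_val (rec := fun a st => F (A a) K (w a) (U a) k st) hA hw hU ih))

attribute [local irreducible] F

theorem poly_top {A : α → ℕ → ℕ → Bool} {w : α → ℕ → ℕ} {V U : α → List ℕ} {v1 : α → ℕ} (K t : ℕ)
    (hA : Poly (fun p : α × ℕ × ℕ => A p.1 p.2.1 p.2.2)) (hw : Poly (fun p : α × ℕ => w p.1 p.2))
    (hV : Poly V) (hU : Poly U) (hv : Poly v1) :
    Poly (fun a => top (A a) K t (w a) (V a) (U a) (v1 a)) := by
  have e1 : Poly (fun q : α => far (A q) (V q) (v1 q)) := by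
    unfold far
    fun_prop
  have e2 : Poly (fun q : α × ℕ => topD (A q.1) (V q.1) (v1 q.1) q.2) := by
    unfold topD
    have e3 : Poly (fun q : α × ℕ => compL (A q.1) (far (A q.1) (V q.1) (v1 q.1)) q.2) :=
      poly_compL (R := fun q : α × ℕ => A q.1) (by fun_prop) (e1.comp (Poly.fst Poly.id))
        (Poly.snd Poly.id)
    refine Poly.filter (p := fun q r => A q.1 (v1 q.1) r && hasNb (A q.1)
      (compL (A q.1) (far (A q.1) (V q.1) (v1 q.1)) q.2) r) (hV.comp (Poly.fst Poly.id)) ?_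
    refine Poly.and (by fun_prop) ?_
    exact poly_hasNb (A := fun q : (α × ℕ) × ℕ => A q.1.1) (by fun_prop)
      (e3.comp (Poly.fst Poly.id)) (Poly.snd Poly.id)
  have e3 : Poly (fun q : α × ℕ => compL (A q.1) (far (A q.1) (V q.1) (v1 q.1)) q.2) :=
    poly_compL (R := fun q : α × ℕ => A q.1) (by fun_prop) (e1.comp (Poly.fst Poly.id))
      (Poly.snd Poly.id)
  have e4 : Poly (fun q : α => topH (A q) (V q) (v1 q)) := by
    unfold topH
    exact Poly.filter (p := fun q h => !((topD (A q) (V q) (v1 q) h).isEmpty))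
      (poly_headsL hA e1) (Poly.not (Poly.isEmpty e2))
  unfold top
  refine Poly.ite (Poly.decide_bool ?_) (poly_sumO (Poly.map e4 ?_)) (Poly.const none)
  · refine Poly.all (p := fun a u => decide (u = v1 a) || A a (v1 a) u ||
      (topH (A a) (V a) (v1 a)).any (fun h => decide (u ∈ compL (A a) (far (A a) (V a) (v1 a)) h)))
      hU ?_
    refine Poly.or (by fun_prop) ?_
    refine Poly.any (l := fun q : α × ℕ => topH (A q.1) (V q.1) (v1 q.1))
      (p := fun q h => decide (q.2 ∈ compL (A q.1) (far (A q.1) (V q.1) (v1 q.1)) h))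
      (e4.comp (Poly.fst Poly.id)) ?_
    exact Poly.decide_mem (f := fun q : (α × ℕ) × ℕ => q.1.2) (by fun_prop)
      (e3.comp (f := fun q : (α × ℕ) × ℕ => (q.1.1, q.2)) (by fun_prop))
  · refine (poly_F (U := U) K hA hw hU t).comp (f := fun q : α × ℕ => ((q.1,
      (compL (A q.1) (far (A q.1) (V q.1) (v1 q.1)) q.2, topD (A q.1) (V q.1) (v1 q.1) q.2,
        (topD (A q.1) (V q.1) (v1 q.1) q.2).head?.getD 0,
        [(V q.1).filter (fun x => A q.1 (v1 q.1) x)], [])) : α × State)) ?_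
    exact (Poly.fst Poly.id).pair (e3.pair (e2.pair ((Poly.optGetD (Poly.head? e2)
      (Poly.const 0)).pair ((by fun_prop : Poly (fun q : α × ℕ =>
        [(V q.1).filter (fun x => A q.1 (v1 q.1) x)])).pair (Poly.const [])))))

end Pool.Agent.NPC.H685VST
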