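import Pool.Agent.H685R2.VST.Defs
import Pool.Agent.H685R2.VST.PolyG
import Pool.Agent.ER.Rat

/-!
# Vertex Steiner Tree on claw-free graphs without long induced paths is in P
-/

namespace Pool.Agent.NPC.H685VST

open Pool.Agent.H685R2.VST Relation

/-! ### The adjacency test -/

/-- Adjacency of two vertices of the instance. -/
def adjB (n : ℕ) (E : List (ℕ × ℕ)) (x y : ℕ) : Bool :=
  decide (x ≠ y) && decide (x < n) && decide (y < n) &&
    (decide ((x, y) ∈ E) || decide ((y, x) ∈ E))

theorem adjB_iff {n : ℕ} {E : List (ℕ × ℕ)} {x y : ℕ} : adjB n E x y = true ↔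
    x ≠ y ∧ x < n ∧ y < n ∧ ((x, y) ∈ E ∨ (y, x) ∈ E) := by
  unfold adjB
  simp only [Bool.and_eq_true, Bool.or_eq_true, decide_eq_true_eq]
  tauto

theorem adjB_symm (n : ℕ) (E : List (ℕ × ℕ)) (x y : ℕ) (h : adjB n E x y = true) :
    adjB n E y x = true := by
  rw [adjB_iff] at h ⊢
  exact ⟨h.1.symm, h.2.2.1, h.2.1, h.2.2.2.symm⟩

theorem adjB_irr (n : ℕ) (E : List (ℕ × ℕ)) (x : ℕ) : adjB n E x x = false := by
  rw [← Bool.not_eq_true, adjB_iff]
  exact fun h => h.1 rfl

theorem graph_adj (I : Instance) (i j : Fin I.1.1.length) :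
    (graph I).Adj i j ↔ adjB I.1.1.length I.1.2 i.val j.val = true := by
  rw [adjB_iff]
  change i ≠ j ∧ _ ↔ _
  constructor
  · rintro ⟨h1, h2⟩
    exact ⟨fun h => h1 (Fin.ext h), i.2, j.2, h2⟩
  · rintro ⟨h1, _, _, h2⟩
    exact ⟨fun h => h1 (by rw [h]), h2⟩

/-! ### Claws -/

/-- The test for claws. -/
def clawT (n : ℕ) (A : ℕ → ℕ → Bool) : Bool :=
  (List.range n).all (fun c => (List.range n).all (fun x => (List.range n).all (fun y =>
    (List.range n).all (fun z => !(A c x && A c y && A c z && decide (x ≠ y) && decide (y ≠ z) &&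
      decide (x ≠ z)) || (A x y || A y z || A x z)))))

theorem clawT_iff {n : ℕ} {A : ℕ → ℕ → Bool} (hA : ∀ x y, A x y = true → x < n ∧ y < n) :
    clawT n A = true ↔ ClawFree A := by
  unfold clawT ClawFree
  simp only [List.all_eq_true, List.mem_range, Bool.or_eq_true, Bool.not_eq_true',
    ← Bool.not_eq_true, Bool.and_eq_true, decide_eq_true_eq]
  constructor
  · intro h c x y z h1 h2 h3 h4 h5 h6
    rcases h c (hA _ _ h1).1 x (hA _ _ h1).2 y (hA _ _ h2).2 z (hA _ _ h3).2 with h7 | h7
    · exact absurd ⟨⟨⟨⟨⟨h1, h2⟩, h3⟩, h4⟩, h5⟩, h6⟩ h7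
    · rcases h7 with (h7 | h7) | h7
      · exact Or.inl h7
      · exact Or.inr (Or.inl h7)
      · exact Or.inr (Or.inr h7)
  · intro h c _ x _ y _ z _
    by_cases h7 : ((((A c x = true ∧ A c y = true) ∧ A c z = true) ∧ x ≠ y) ∧ y ≠ z) ∧ x ≠ z
    · right
      rcases h c x y z h7.1.1.1.1.1 h7.1.1.1.1.2 h7.1.1.1.2 h7.1.1.2 h7.1.2 h7.2 with h8 | h8 | h8
      · exact Or.inl (Or.inl h8)
      · exact Or.inl (Or.inr h8)
      · exact Or.inr h8
    · exact Or.inl h7

theorem claw_iff (I : Instance) :
    IndFree (completeBipartiteGraph (Fin 1) (Fin 3)) (graph I) ↔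
      ClawFree (adjB I.1.1.length I.1.2) := by
  constructor
  · intro hfree c x y z h1 h2 h3 hxy hyz hxz
    by_contra hcon
    push Not at hcon
    obtain ⟨n1, n2, n3⟩ := hcon
    have hc := (adjB_iff.1 h1).2.1
    have hx := (adjB_iff.1 h1).2.2.1
    have hy := (adjB_iff.1 h2).2.2.1
    have hz := (adjB_iff.1 h3).2.2.1
    have hcx := (adjB_iff.1 h1).1
    have hcy := (adjB_iff.1 h2).1
    have hcz := (adjB_iff.1 h3).1
    let f : Fin 1 ⊕ Fin 3 → Fin I.1.1.length := Sum.elim (fun _ => ⟨c, hc⟩)
      ![⟨x, hx⟩, ⟨y, hy⟩, ⟨z, hz⟩]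
    apply hfree.false
    refine ⟨⟨f, ?_⟩, ?_⟩
    · intro a b hab
      rcases a with a | a <;> rcases b with b | b
      · rw [Subsingleton.elim a b]
      · exfalso
        fin_cases b <;> simp [f] at hab <;> simp_all
      · exfalso
        fin_cases a <;> simp [f] at hab <;> simp_all
      · fin_cases a <;> fin_cases b <;> simp [f] at hab <;> simp_all
    · intro a b
      change (graph I).Adj (f a) (f b) ↔ _
      rw [graph_adj]
      have m1 : ¬ adjB I.1.1.length I.1.2 y x = true := fun h => n1 (adjB_symm _ _ _ _ h)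
      have m2 : ¬ adjB I.1.1.length I.1.2 z y = true := fun h => n2 (adjB_symm _ _ _ _ h)
      have m3 : ¬ adjB I.1.1.length I.1.2 z x = true := fun h => n3 (adjB_symm _ _ _ _ h)
      have k1 := adjB_symm _ _ _ _ h1
      have k2 := adjB_symm _ _ _ _ h2
      have k3 := adjB_symm _ _ _ _ h3
      have i1 := adjB_irr I.1.1.length I.1.2 x
      have i2 := adjB_irr I.1.1.length I.1.2 y
      have i3 := adjB_irr I.1.1.length I.1.2 z
      have i4 := adjB_irr I.1.1.length I.1.2 c
      rcases a with a | a <;> rcases b with b | b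
      · simp [f, i4]
      · fin_cases b <;> simp [f, h1, h2, h3]
      · fin_cases a <;> simp [f, k1, k2, k3]
      · fin_cases a <;> fin_cases b <;> simp [f, i1, i2, i3] <;> simp_all
  · intro h
    refine ⟨fun e => ?_⟩
    have hadj : ∀ a : Fin 3, (graph I).Adj (e (Sum.inl 0)) (e (Sum.inr a)) := fun a => by
      rw [e.map_adj_iff]
      simp
    have hne : ∀ a b : Fin 3, a ≠ b → (e (Sum.inr a)).val ≠ (e (Sum.inr b)).val := by
      intro a b hab h
      have := e.injective (Fin.ext h)
      exact hab (Sum.inr.inj this)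
    have hna : ∀ a b : Fin 3, ¬ adjB I.1.1.length I.1.2 (e (Sum.inr a)).val
        (e (Sum.inr b)).val = true := by
      intro a b hab
      rw [← graph_adj, e.map_adj_iff] at hab
      simp at hab
    rcases h _ _ _ _ ((graph_adj I _ _).1 (hadj 0)) ((graph_adj I _ _).1 (hadj 1))
      ((graph_adj I _ _).1 (hadj 2)) (hne 0 1 (by decide)) (hne 1 2 (by decide))
      (hne 0 2 (by decide)) with h1 | h1 | h1
    · exact hna _ _ h1
    · exact hna _ _ h1
    · exact hna _ _ h1

/-! ### Paths -/

/-- Induced paths as lists, by positions. -/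
def IPath (A : ℕ → ℕ → Bool) (l : List ℕ) : Prop :=
  ∀ i j, ∀ hi : i < l.length, ∀ hj : j < l.length, i < j →
    (i + 1 = j → A l[i] l[j] = true) ∧ (i + 1 ≠ j → A l[i] l[j] = false ∧ l[i] ≠ l[j])

/-- The test for induced paths on `t` vertices. -/
def pathT (t n : ℕ) (A : ℕ → ℕ → Bool) : Bool :=
  (tup t (List.range n)).all (fun l => !(decide (l.length = t) &&
    l.zipIdx.all (fun p => l.zipIdx.all (fun q => !(decide (p.2 < q.2)) ||
      (bif decide (p.2 + 1 = q.2) then A p.1 q.1 else (!(A p.1 q.1) && decide (p.1 ≠ q.1)))))))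

theorem pathT_iff {t n : ℕ} {A : ℕ → ℕ → Bool} : pathT t n A = true ↔
    ∀ l : List ℕ, l.length = t → (∀ x ∈ l, x < n) → ¬ IPath A l := by
  unfold pathT
  simp only [List.all_eq_true, mem_tup, List.mem_range, Bool.not_eq_true', ← Bool.not_eq_true,
    Bool.and_eq_true, decide_eq_true_eq, Bool.or_eq_true]
  constructor
  · intro h l hl hln hP
    apply h l ⟨hl.le, hln⟩
    refine ⟨hl, ?_⟩
    rintro ⟨a, i⟩ hp ⟨b, j⟩ hq
    rw [List.mem_zipIdx_iff_getElem?] at hp hq
    obtain ⟨hi, hi'⟩ := List.getElem?_eq_some_iff.1 hp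
    obtain ⟨hj, hj'⟩ := List.getElem?_eq_some_iff.1 hq
    simp only at hi hi' hj hj' ⊢
    by_cases hij : i < j
    · right
      obtain ⟨h1, h2⟩ := hP i j hi hj hij
      by_cases hs : i + 1 = j
      · rw [decide_eq_true hs, cond_true, ← hi', ← hj']
        exact h1 hs
      · rw [decide_eq_false hs, cond_false, ← hi', ← hj']
        obtain ⟨h3, h4⟩ := h2 hs
        rw [h3]
        simpa using h4
    · exact Or.inl hij
  · intro h l hl hcon
    obtain ⟨hlen, hall⟩ := hcon
    apply h l hlen hl.2
    intro i j hi hj hij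
    have h1 := hall (l[i], i) (by
      rw [List.mem_zipIdx_iff_getElem?]; exact List.getElem?_eq_getElem hi) (l[j], j) (by
      rw [List.mem_zipIdx_iff_getElem?]; exact List.getElem?_eq_getElem hj)
    rcases h1 with h1 | h1
    · exact absurd hij h1
    · simp only at h1
      constructor
      · intro hs
        rw [decide_eq_true hs, cond_true] at h1
        exact h1
      · intro hs
        rw [decide_eq_false hs, cond_false] at h1
        simpa using h1

theorem path_iff (t : ℕ) (I : Instance) : IndFree (SimpleGraph.pathGraph t) (graph I) ↔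
    ∀ l : List ℕ, l.length = t → (∀ x ∈ l, x < I.1.1.length) →
      ¬ IPath (adjB I.1.1.length I.1.2) l := by
  constructor
  · intro hfree l hl hln hP
    subst hl
    apply hfree.false
    refine ⟨⟨fun i => ⟨l[i.val], hln _ (List.getElem_mem _)⟩, ?_⟩, ?_⟩
    · intro i j hij
      have hij' : l[i.val] = l[j.val] := congrArg Fin.val hij
      by_contra hne
      have hne' : i.val ≠ j.val := fun h => hne (Fin.ext h)
      have key : ∀ i j, ∀ hi : i < l.length, ∀ hj : j < l.length, i < j → l[i] ≠ l[j] := by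
        intro i j hi hj hlt
        obtain ⟨h1, h2⟩ := hP i j hi hj hlt
        by_cases hs : i + 1 = j
        · exact (adjB_iff.1 (h1 hs)).1
        · exact (h2 hs).2
      rcases lt_or_gt_of_ne hne' with h | h
      · exact key _ _ i.2 j.2 h hij'
      · exact key _ _ j.2 i.2 h hij'.symm
    · intro i j
      change (graph I).Adj ⟨l[i.val], _⟩ ⟨l[j.val], _⟩ ↔ _
      rw [graph_adj, SimpleGraph.pathGraph_adj]
      simp only
      have key : ∀ i j, ∀ hi : i < l.length, ∀ hj : j < l.length, i < j →
          (adjB I.1.1.length I.1.2 l[i] l[j] = true ↔ i + 1 = j) := by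
        intro i j hi hj hlt
        obtain ⟨h1, h2⟩ := hP i j hi hj hlt
        refine ⟨fun h => ?_, h1⟩
        by_contra hs
        rw [(h2 hs).1] at h
        simp at h
      rcases lt_trichotomy i.val j.val with h | h | h
      · rw [key _ _ i.2 j.2 h]
        constructor
        · exact Or.inl
        · rintro (h1 | h1)
          · exact h1
          · omega
      · have : i = j := Fin.ext h
        subst this
        rw [adjB_irr]
        simp
      · have h2 : adjB I.1.1.length I.1.2 l[i.val] l[j.val] = true ↔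
            adjB I.1.1.length I.1.2 l[j.val] l[i.val] = true :=
          ⟨adjB_symm _ _ _ _, adjB_symm _ _ _ _⟩
        rw [h2, key _ _ j.2 i.2 h]
        constructor
        · exact Or.inr
        · rintro (h1 | h1)
          · omega
          · exact h1
  · intro h
    refine ⟨fun e => ?_⟩
    apply h (List.ofFn (fun i : Fin t => (e i).val)) (by simp)
    · intro x hx
      rw [List.mem_ofFn] at hx
      obtain ⟨i, rfl⟩ := hx
      exact (e i).2
    · intro i j hi hj hij
      simp only [List.getElem_ofFn]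
      rw [List.length_ofFn] at hi hj
      have hadj : adjB I.1.1.length I.1.2 (e ⟨i, hi⟩).val (e ⟨j, hj⟩).val = true ↔
          i + 1 = j := by
        rw [← graph_adj, e.map_adj_iff, SimpleGraph.pathGraph_adj]
        simp only
        omega
      constructor
      · intro hs
        exact hadj.2 hs
      · intro hs
        refine ⟨?_, ?_⟩
        · rw [← Bool.not_eq_true, hadj]
          exact hs
        · intro h1
          have := e.injective (Fin.ext h1)
          rw [Fin.mk.injEq] at this
          omega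

theorem IndP.tail {A : ℕ → ℕ → Bool} {x : ℕ} {l : List ℕ} (h : IndP A (x :: l)) : IndP A l := by
  cases l with
  | nil => trivial
  | cons y l => exact h.2.2

theorem IndP.drop {A : ℕ → ℕ → Bool} : ∀ (k : ℕ) {l : List ℕ}, IndP A l → IndP A (l.drop k)
  | 0, _, h => h
  | k + 1, [], h => h
  | k + 1, x :: l, h => IndP.drop k (IndP.tail h)

theorem IndP.iPath {A : ℕ → ℕ → Bool} : ∀ {l : List ℕ}, IndP A l → IPath A l
  | [], _ => fun i j hi => absurd hi (by simp)
  | [x], _ => fun i j hi hj hij => by simp at hi hj; omega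
  | x :: y :: l, h => by
    have ih := IndP.iPath (IndP.tail h)
    intro i j hi hj hij
    cases i with
    | zero =>
      cases j with
      | zero => omega
      | succ j =>
        cases j with
        | zero => exact ⟨fun _ => h.1, fun hh => absurd rfl hh⟩
        | succ j =>
          refine ⟨fun hh => by omega, fun _ => ?_⟩
          simp only [List.getElem_cons_zero, List.getElem_cons_succ]
          exact h.2.1 _ (List.getElem_mem _)
    | succ i =>
      cases j with
      | zero => omega
      | succ j =>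
        have h1 := ih i j (by simpa using hi) (by simpa using hj) (by omega)
        simp only [List.getElem_cons_succ]
        exact ⟨fun hh => h1.1 (by omega), fun hh => h1.2 (by omega)⟩

theorem IndP.mem_lt {n : ℕ} {E : List (ℕ × ℕ)} : ∀ {l : List ℕ}, IndP (adjB n E) l →
    2 ≤ l.length → ∀ x ∈ l, x < n
  | [], _, h2 => by simp at h2
  | [x], _, h2 => by simp at h2
  | [x, y], h, _ => by
    intro z hz
    have h1 := adjB_iff.1 h.1
    simp only [List.mem_cons, List.not_mem_nil, or_false] at hz
    rcases hz with rfl | rfl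
    · exact h1.2.1
    · exact h1.2.2.1
  | x :: y :: z :: l, h, _ => by
    intro w hw
    rcases List.mem_cons.1 hw with rfl | hw
    · exact (adjB_iff.1 h.1).2.1
    · exact IndP.mem_lt (IndP.tail h) (by simp) w hw

theorem indP_lt {t : ℕ} {I : Instance} (h : IndFree (SimpleGraph.pathGraph t) (graph I)) :
    ∀ l, IndP (adjB I.1.1.length I.1.2) l → 2 ≤ l.length → l.length < t := by
  intro l hl h2
  by_contra hlt
  rw [path_iff] at h
  refine h (l.drop (l.length - t)) (by rw [List.length_drop]; omega) ?_ (IndP.iPath (IndP.drop _ hl))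
  intro x hx
  exact IndP.mem_lt hl h2 x (List.mem_of_mem_drop hx)

end Pool.Agent.NPC.H685VST
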