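import Pool.Agent.H685R2.VST.Final

/-!
# Vertex Steiner Tree on claw-free graphs without long induced paths is in P (end)
-/

namespace Pool.Agent.NPC.H685VST

open Pool.Agent.H685R2.VST Relation

/-! ### Solutions -/

/-- The set of numbers of a set of vertices. -/
def toN {n : ℕ} (T : Finset (Fin n)) : Finset ℕ := T.map Fin.valEmbedding

theorem mem_toN {n : ℕ} {T : Finset (Fin n)} {x : ℕ} : x ∈ toN T ↔ ∃ h : x < n, (⟨x, h⟩ : Fin n) ∈ T := by
  unfold toN
  rw [Finset.mem_map]
  constructor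
  · rintro ⟨i, hi, rfl⟩
    exact ⟨i.2, hi⟩
  · rintro ⟨h, hi⟩
    exact ⟨_, hi, rfl⟩

theorem conn_iff (I : Instance) (T : Finset (Fin I.1.1.length)) :
    ((graph I).induce (T : Set (Fin I.1.1.length))).Connected ↔ T.Nonempty ∧
      ∀ x ∈ toN T, ∀ y ∈ toN T,
        Rs (fun a b => adjB I.1.1.length I.1.2 a b = true) (· ∈ toN T) x y := by
  constructor
  · intro h
    have hp := h.preconnected
    obtain ⟨x0, hx0⟩ := h.nonempty
    refine ⟨⟨x0, by simpa using hx0⟩, ?_⟩
    intro x hx y hy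
    obtain ⟨hxn, hxT⟩ := mem_toN.1 hx
    obtain ⟨hyn, hyT⟩ := mem_toN.1 hy
    obtain ⟨w⟩ := hp ⟨⟨x, hxn⟩, by simpa using hxT⟩ ⟨⟨y, hyn⟩, by simpa using hyT⟩
    have key : ∀ (a b : (T : Set (Fin I.1.1.length))),
        ((graph I).induce (T : Set (Fin I.1.1.length))).Walk a b →
        Rs (fun a b => adjB I.1.1.length I.1.2 a b = true) (· ∈ toN T) a.1.val b.1.val := by
      intro a b w
      induction w with
      | nil => exact Rs.refl _
      | @cons a b c hab _ ih =>
        refine Rs.trans (Rs.single ?_ ?_ ?_) ih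
        · rw [SimpleGraph.comap_adj] at hab
          exact (graph_adj I _ _).1 hab
        · exact mem_toN.2 ⟨a.1.2, by simpa using a.2⟩
        · exact mem_toN.2 ⟨b.1.2, by simpa using b.2⟩
    exact key _ _ w
  · rintro ⟨⟨x0, hx0⟩, h⟩
    have : Nonempty ((T : Set (Fin I.1.1.length)) : Type) := ⟨⟨x0, by simpa using hx0⟩⟩
    refine ⟨?_⟩
    rintro ⟨x, hx⟩ ⟨y, hy⟩
    have hx' : x.val ∈ toN T := mem_toN.2 ⟨x.2, by simpa using hx⟩
    have hy' : y.val ∈ toN T := mem_toN.2 ⟨y.2, by simpa using hy⟩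
    have key : ∀ b, Rs (fun a b => adjB I.1.1.length I.1.2 a b = true) (· ∈ toN T) x.val b →
        ∀ hb : b ∈ toN T, ((graph I).induce (T : Set (Fin I.1.1.length))).Reachable ⟨x, hx⟩
          ⟨⟨b, (mem_toN.1 hb).1⟩, by simpa using (mem_toN.1 hb).2⟩ := by
      intro b hb
      induction hb with
      | refl => intro _; exact SimpleGraph.Reachable.refl _
      | @tail b c _ hst ih =>
        intro hc
        refine (ih hst.2.1).trans (SimpleGraph.Adj.reachable ?_)
        rw [SimpleGraph.comap_adj]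
        exact (graph_adj I _ _).2 hst.1
    exact key y.val (h _ hx' _ hy') hy'

/-- The list of the vertices. -/
def vL (I : Instance) : List ℕ := List.range I.1.1.length

/-- The list of the terminals. -/
def uL (I : Instance) : List ℕ := (vL I).filter (fun x => decide (x ∈ I.2.1))

theorem mem_uL {I : Instance} {x : ℕ} : x ∈ uL I ↔ x < I.1.1.length ∧ x ∈ I.2.1 := by
  unfold uL vL
  rw [List.mem_filter, List.mem_range, decide_eq_true_eq]

theorem mem_toN_terminals {I : Instance} {x : ℕ} : x ∈ toN (terminals I) ↔ x ∈ uL I := by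
  rw [mem_toN, mem_uL]
  unfold terminals
  simp

/-- The weight of a number. -/
def wq (I : Instance) (x : ℕ) : ℚ := I.1.1.getD x 0

theorem sum_toN (I : Instance) (T : Finset (Fin I.1.1.length)) :
    ∑ x ∈ toN T, wq I x = ∑ u ∈ T, weight I u := by
  unfold toN
  rw [Finset.sum_map]
  apply Finset.sum_congr rfl
  intro i _
  unfold wq weight
  rw [List.getD_eq_getElem?_getD]
  simp

theorem hasSteiner_iff (I : Instance) : HasSteinerTree I ↔ ∃ S : Finset ℕ, S.Nonempty ∧
    Sol (adjB I.1.1.length I.1.2) (vL I) (uL I) S ∧ ∑ x ∈ S, wq I x ≤ I.2.2 := by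
  constructor
  · rintro ⟨R, _, hc, hw⟩
    rw [conn_iff] at hc
    refine ⟨toN (terminals I ∪ R), ?_, ⟨?_, ?_, hc.2⟩, ?_⟩
    · obtain ⟨⟨x, hx⟩, _⟩ := hc
      exact ⟨x.val, mem_toN.2 ⟨x.2, hx⟩⟩
    · intro x hx
      exact List.mem_range.2 (mem_toN.1 hx).1
    · intro x hx
      rw [← mem_toN_terminals, mem_toN] at hx
      obtain ⟨h1, h2⟩ := hx
      exact mem_toN.2 ⟨h1, Finset.mem_union_left _ h2⟩
    · rw [sum_toN]
      exact hw
  · rintro ⟨S, hne, hS, hw⟩
    set T : Finset (Fin I.1.1.length) := Finset.univ.filter (fun i => i.val ∈ S) with hT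
    have hTS : toN T = S := by
      ext x
      rw [mem_toN]
      constructor
      · rintro ⟨h1, h2⟩
        rw [hT, Finset.mem_filter] at h2
        exact h2.2
      · intro hx
        have h1 := List.mem_range.1 (hS.sub x hx)
        exact ⟨h1, by rw [hT, Finset.mem_filter]; exact ⟨Finset.mem_univ _, hx⟩⟩
    have hsub : terminals I ⊆ T := by
      intro i hi
      rw [hT, Finset.mem_filter]
      refine ⟨Finset.mem_univ _, hS.ter _ ?_⟩
      rw [← mem_toN_terminals]
      exact mem_toN.2 ⟨i.2, hi⟩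
    have hun : terminals I ∪ (T \ terminals I) = T := Finset.union_sdiff_of_subset hsub
    refine ⟨T \ terminals I, Finset.sdiff_disjoint, ?_, ?_⟩
    · rw [hun, conn_iff, hTS]
      refine ⟨?_, hS.conn⟩
      obtain ⟨x, hx⟩ := hne
      rw [← hTS] at hx
      exact ⟨_, (mem_toN.1 hx).2⟩
    · rw [hun, ← sum_toN, hTS]
      exact hw

/-! ### Integral weights -/

/-- A common denominator. -/
def cden (I : Instance) : ℕ := (I.1.1.map (fun q => q.den)).prod * I.2.2.den

/-- Integral weights. -/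
def wn (I : Instance) (x : ℕ) : ℕ :=
  (I.1.1.getD x 0).num.natAbs * (cden I / (I.1.1.getD x 0).den)

/-- The integral bound. -/
def kn (I : Instance) : ℕ := I.2.2.num.natAbs * (cden I / I.2.2.den)

theorem cden_pos (I : Instance) : 0 < cden I := by
  unfold cden
  apply Nat.mul_pos
  · apply List.prod_pos
    intro d hd
    rw [List.mem_map] at hd
    obtain ⟨q, _, rfl⟩ := hd
    exact q.den_pos
  · exact I.2.2.den_pos

theorem scale_eq {q : ℚ} (hq : 0 ≤ q) {D : ℕ} (hD : q.den ∣ D) :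
    ((q.num.natAbs * (D / q.den) : ℕ) : ℚ) = q * D := by
  obtain ⟨c, rfl⟩ := hD
  rw [Nat.mul_div_cancel_left _ q.den_pos]
  have h1 : (q.num.natAbs : ℚ) = q.num := by
    have : 0 ≤ q.num := Rat.num_nonneg.2 hq
    rw [← Int.cast_natCast, Int.natAbs_of_nonneg this]
  have h2 : (q.den : ℚ) ≠ 0 := by exact_mod_cast q.den_nz
  have h3 : q * q.den = q.num := Rat.mul_den_eq_num q
  push_cast
  rw [h1, ← h3]
  ring

theorem wn_eq (I : Instance) (hI : ∀ q ∈ I.1.1, 0 < q) (x : ℕ) :
    ((wn I x : ℕ) : ℚ) = wq I x * cden I := by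
  unfold wn wq
  by_cases hx : x < I.1.1.length
  · have h1 : I.1.1.getD x 0 ∈ I.1.1 := by
      rw [List.getD_eq_getElem?_getD, List.getElem?_eq_getElem hx]
      exact List.getElem_mem hx
    apply scale_eq (hI _ h1).le
    unfold cden
    apply Dvd.dvd.mul_right
    apply List.dvd_prod
    rw [List.mem_map]
    exact ⟨_, h1, rfl⟩
  · rw [List.getD_eq_getElem?_getD, List.getElem?_eq_none (by omega)]
    simp

theorem sum_wn (I : Instance) (hI : ∀ q ∈ I.1.1, 0 < q) (S : Finset ℕ) :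
    ((∑ x ∈ S, wn I x : ℕ) : ℚ) = (∑ x ∈ S, wq I x) * cden I := by
  rw [Nat.cast_sum, Finset.sum_mul]
  exact Finset.sum_congr rfl fun x _ => wn_eq I hI x

theorem wq_pos (I : Instance) (hI : ∀ q ∈ I.1.1, 0 < q) {x : ℕ} (hx : x < I.1.1.length) :
    0 < wq I x := by
  unfold wq
  rw [List.getD_eq_getElem?_getD, List.getElem?_eq_getElem hx]
  exact hI _ (List.getElem_mem hx)

theorem bound_iff (I : Instance) (hI : ∀ q ∈ I.1.1, 0 < q) {S : Finset ℕ} (hS : S.Nonempty)
    (hSV : ∀ x ∈ S, x ∈ vL I) :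
    ∑ x ∈ S, wq I x ≤ I.2.2 ↔ 0 ≤ I.2.2.num ∧ ∑ x ∈ S, wn I x ≤ kn I := by
  have hpos : 0 < ∑ x ∈ S, wq I x :=
    Finset.sum_pos (fun x hx => wq_pos I hI (List.mem_range.1 (hSV x hx))) hS
  have hD : (0 : ℚ) < cden I := by exact_mod_cast cden_pos I
  have hk : 0 ≤ I.2.2 → ((kn I : ℕ) : ℚ) = I.2.2 * cden I := fun h =>
    scale_eq h (Dvd.intro_left _ rfl)
  constructor
  · intro h
    have h0 : 0 ≤ I.2.2 := hpos.le.trans h
    refine ⟨Rat.num_nonneg.2 h0, ?_⟩
    have : ((∑ x ∈ S, wn I x : ℕ) : ℚ) ≤ ((kn I : ℕ) : ℚ) := by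
      rw [sum_wn I hI, hk h0]
      exact mul_le_mul_of_nonneg_right h hD.le
    exact_mod_cast this
  · rintro ⟨h0, h⟩
    have h0' : 0 ≤ I.2.2 := Rat.num_nonneg.1 h0
    have : ((∑ x ∈ S, wn I x : ℕ) : ℚ) ≤ ((kn I : ℕ) : ℚ) := by exact_mod_cast h
    rw [sum_wn I hI, hk h0'] at this
    exact le_of_mul_le_mul_right this hD

/-! ### The decision procedure -/

/-- Decide whether there is a solution whose integral weight is at most the integral bound. -/
def decS (t : ℕ) (I : Instance) : Bool :=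
  if (uL I).isEmpty = true then (vL I).any (fun x => decide (wn I x ≤ kn I))
  else (top (adjB I.1.1.length I.1.2) (Kt t) t (wn I) (vL I) (uL I) ((uL I).head?.getD 0)).elim
    false (fun c => decide (c + ((uL I).map (wn I)).sum ≤ kn I))

/-- The decision procedure. -/
def decI (t : ℕ) (I : Instance) : Bool :=
  I.1.1.all (fun q => decide (0 < q)) && clawT I.1.1.length (adjB I.1.1.length I.1.2) &&
    pathT t I.1.1.length (adjB I.1.1.length I.1.2) && decide (0 ≤ I.2.2.num) && decS t I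

theorem total_eq (I : Instance) {S : Finset ℕ}
    (hS : Sol (adjB I.1.1.length I.1.2) (vL I) (uL I) S) :
    ∑ x ∈ S, wn I x = cost (wn I) (uL I) S + ((uL I).map (wn I)).sum := by
  have hnd : (uL I).Nodup := (List.nodup_range).filter _
  rw [← List.sum_toFinset _ hnd]
  unfold cost
  rw [← Finset.sum_filter_add_sum_filter_not S (fun x => x ∉ uL I)]
  congr 1
  apply Finset.sum_congr _ fun _ _ => rfl
  ext x
  rw [Finset.mem_filter, List.mem_toFinset, not_not]
  exact ⟨fun h => h.2, fun h => ⟨hS.ter x h, h⟩⟩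

theorem decS_iff (t : ℕ) (I : Instance) (hcl : ClawFree (adjB I.1.1.length I.1.2))
    (hp : IndFree (SimpleGraph.pathGraph t) (graph I)) :
    decS t I = true ↔ ∃ S : Finset ℕ, S.Nonempty ∧
      Sol (adjB I.1.1.length I.1.2) (vL I) (uL I) S ∧ ∑ x ∈ S, wn I x ≤ kn I := by
  have hV : (vL I).Nodup := List.nodup_range
  have hAV : ∀ a b, adjB I.1.1.length I.1.2 a b = true → b ∈ vL I := fun a b h =>
    List.mem_range.2 (adjB_iff.1 h).2.2.1
  unfold decS
  by_cases hU : (uL I).isEmpty = true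
  · rw [if_pos hU, List.any_eq_true]
    have hU' : uL I = [] := List.isEmpty_iff.1 hU
    constructor
    · rintro ⟨x, hx, hx'⟩
      refine ⟨{x}, Finset.singleton_nonempty _, ⟨?_, ?_, ?_⟩, by simpa using hx'⟩
      · intro y hy
        rw [Finset.mem_singleton] at hy
        rw [hy]; exact hx
      · rw [hU']
        intro y hy
        exact absurd hy List.not_mem_nil
      · intro y hy z hz
        rw [Finset.mem_singleton] at hy hz
        rw [hy, hz]
        exact Rs.refl _
    · rintro ⟨S, ⟨x, hx⟩, hS, hw⟩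
      refine ⟨x, hS.sub x hx, ?_⟩
      rw [decide_eq_true_eq]
      exact (Finset.single_le_sum (f := wn I) (fun _ _ => Nat.zero_le _) hx).trans hw
  · rw [if_neg hU]
    obtain ⟨v1, L, hvL⟩ : ∃ v1 L, uL I = v1 :: L := by
      cases h : uL I with
      | nil => rw [h] at hU; simp at hU
      | cons v1 L => exact ⟨v1, L, rfl⟩
    have hhead : (uL I).head?.getD 0 = v1 := by rw [hvL]; rfl
    have hv1 : v1 ∈ uL I := by rw [hvL]; exact List.mem_cons_self
    rw [hhead]
    constructor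
    · intro h
      cases htop : top (adjB I.1.1.length I.1.2) (Kt t) t (wn I) (vL I) (uL I) v1 with
      | none => rw [htop] at h; simp at h
      | some c =>
        rw [htop] at h
        simp only [Option.elim_some, decide_eq_true_eq] at h
        have hUV : ∀ u ∈ uL I, u ∈ vL I := fun u hu => List.mem_of_mem_filter hu
        obtain ⟨S, hS, hc⟩ := top_sound (adjB_symm _ _) (adjB_irr _ _) hcl hV hAV
          hUV hv1 htop
        refine ⟨S, ⟨v1, hS.ter v1 hv1⟩, hS, ?_⟩
        rw [total_eq I hS]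
        omega
    · rintro ⟨S, _, hS, hw⟩
      obtain ⟨S', hS', hsol, hcut⟩ := exists_min (adjB_symm _ _) S.card S le_rfl hS
      obtain ⟨c, hc, hc'⟩ := top_complete (adjB_symm _ _) (adjB_irr _ _) hcl hV hAV
        (indP_lt hp) (wn I) hsol hcut hv1
      rw [hc']
      simp only [Option.elim_some, decide_eq_true_eq]
      have h1 := total_eq I hsol
      have h2 : ∑ x ∈ S', wn I x ≤ ∑ x ∈ S, wn I x := Finset.sum_le_sum_of_subset hS'
      omega

theorem decI_iff (t : ℕ) (I : Instance) : VSTClawPath t I ↔ decI t I = true := by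
  unfold VSTClawPath decI
  rw [Bool.and_eq_true, Bool.and_eq_true, Bool.and_eq_true, Bool.and_eq_true, List.all_eq_true,
    decide_eq_true_eq, claw_iff, clawT_iff (fun x y h => ⟨(adjB_iff.1 h).2.1, (adjB_iff.1 h).2.2.1⟩),
    pathT_iff, hasSteiner_iff]
  simp only [decide_eq_true_eq]
  rw [← path_iff]
  constructor
  · rintro ⟨h1, h2, h3, S, hne, hS, hw⟩
    have h4 := (bound_iff I h1 hne hS.sub).1 hw
    exact ⟨⟨⟨⟨h1, h2⟩, h3⟩, h4.1⟩, (decS_iff t I h2 h3).2 ⟨S, hne, hS, h4.2⟩⟩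
  · rintro ⟨⟨⟨⟨h1, h2⟩, h3⟩, h4⟩, h5⟩
    obtain ⟨S, hne, hS, hw⟩ := (decS_iff t I h2 h3).1 h5
    exact ⟨h1, h2, h3, S, hne, hS, (bound_iff I h1 hne hS.sub).2 ⟨h4, hw⟩⟩

end Pool.Agent.NPC.H685VST
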