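import Pool.Agent.H685R2.VST.Final2

/-!
# The decision procedure runs in polynomial time
-/

namespace Pool.Agent.NPC.H685VST

open Pool.Agent.H685R2.VST

attribute [local irreducible] reachL compL headsL minO sumO hasNb bB cC inn starV newN gam chC chD
  chv chg yY check tup

variable {α : Type} [TEnc α]

theorem prod_lt (l : List ℕ) : l.prod < 2 ^ sz l := by
  induction l with
  | nil => simp
  | cons x l ih =>
      rw [List.prod_cons, sz_list_cons]
      have h1 := size_le_sz x
      have h2 := Nat.lt_size_self x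
      have h3 : x < 2 ^ sz x := lt_of_lt_of_le h2 (Nat.pow_le_pow_right (by norm_num) (by omega))
      have h4 : x * l.prod < 2 ^ sz x * 2 ^ sz l := Nat.mul_lt_mul'' h3 ih
      rw [pow_succ, pow_add]
      have : 0 < 2 ^ sz x * 2 ^ sz l := by positivity
      omega

theorem poly_prodN {l : α → List ℕ} (hl : Poly l) : Poly (fun a => (l a).prod) := by
  obtain ⟨r, hr⟩ := hl.sz_le
  refine (Poly.foldr (s := fun _ => (1 : ℕ)) (F := fun _ x s => x * s) hl (Poly.const 1)
    (Poly.mul (Poly.fst (Poly.snd Poly.id)) (Poly.snd (Poly.snd Poly.id)))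
    (Polynomial.C 4 * r + Polynomial.C 1) ?_).congr fun a => ?_
  · intro a k hk
    change sz (((l a).drop k).prod) ≤ _
    have h1 := sz_nat_le (((l a).drop k).prod)
    have h2 := Nat.size_le.2 (prod_lt ((l a).drop k))
    have h3 := Poly.sz_drop_le (l a) k
    have h4 := hr a
    simp only [Polynomial.eval_add, Polynomial.eval_mul, Polynomial.eval_C]
    omega
  · rfl

theorem poly_isNeg {z : α → ℤ} (hz : Poly z) : Poly (fun a => decide (z a < 0)) := by
  have h : Poly (fun a => ((decide (z a < 0), (z a).natAbs) : Bool × ℕ)) := hz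
  exact Poly.fst h

theorem poly_natAbs {z : α → ℤ} (hz : Poly z) : Poly (fun a => (z a).natAbs) := by
  have h : Poly (fun a => ((decide (z a < 0), (z a).natAbs) : Bool × ℕ)) := hz
  exact Poly.snd h

theorem poly_num {q : α → ℚ} (hq : Poly q) : Poly (fun a => (q a).num) := by
  have h : Poly (fun a => (((q a).num, (q a).den) : ℤ × ℕ)) := hq
  exact Poly.fst h

theorem poly_den {q : α → ℚ} (hq : Poly q) : Poly (fun a => (q a).den) := by
  have h : Poly (fun a => (((q a).num, (q a).den) : ℤ × ℕ)) := hq
  exact Poly.snd h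

theorem poly_pos {q : α → ℚ} (hq : Poly q) : Poly (fun a => decide (0 < q a)) := by
  have h1 : Poly (fun a => !(decide ((q a).num < 0)) && decide (0 < (q a).num.natAbs)) :=
    Poly.and (Poly.not (poly_isNeg (poly_num hq)))
      (Poly.decide_lt (Poly.const 0) (poly_natAbs (poly_num hq)))
  refine h1.congr fun a => ?_
  rw [Bool.eq_iff_iff, Bool.and_eq_true, Bool.not_eq_true', decide_eq_false_iff_not,
    decide_eq_true_eq, decide_eq_true_eq, ← Rat.num_pos]
  omega

theorem poly_cden : Poly (fun I : Instance => cden I) := by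
  unfold cden
  refine Poly.mul (poly_prodN (Poly.map (F := fun _ q => Rat.den q) ?_ ?_)) ?_
  · exact Poly.fst (Poly.fst Poly.id)
  · exact poly_den (Poly.snd Poly.id)
  · exact poly_den (Poly.snd (Poly.snd Poly.id))

theorem poly_wn : Poly (fun p : Instance × ℕ => wn p.1 p.2) := by
  unfold wn
  have h1 : Poly (fun p : Instance × ℕ => p.1.1.1.getD p.2 (0 : ℚ)) :=
    Poly.getD (Poly.fst (Poly.fst (Poly.fst Poly.id))) (Poly.snd Poly.id) (Poly.const 0)
  exact Poly.mul (poly_natAbs (poly_num h1)) (Poly.div (poly_cden.comp (Poly.fst Poly.id))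
    (poly_den h1))

theorem poly_kn : Poly (fun I : Instance => kn I) := by
  unfold kn
  have h1 : Poly (fun I : Instance => I.2.2) := Poly.snd (Poly.snd Poly.id)
  exact Poly.mul (poly_natAbs (poly_num h1)) (Poly.div poly_cden (poly_den h1))

theorem poly_vL : Poly (fun I : Instance => vL I) := by
  unfold vL
  exact (UPoly.length (Poly.fst (Poly.fst Poly.id))).range

theorem poly_uL : Poly (fun I : Instance => uL I) := by
  unfold uL
  exact Poly.filter (p := fun I x => decide (x ∈ I.2.1)) poly_vL
    (Poly.decide_mem (Poly.snd Poly.id) (Poly.fst (Poly.snd (Poly.fst Poly.id))))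

theorem poly_adj : Poly (fun p : Instance × ℕ × ℕ =>
    adjB p.1.1.1.length p.1.1.2 p.2.1 p.2.2) := by
  unfold adjB
  fun_prop

theorem poly_clawT {n : α → List ℚ} {A : α → ℕ → ℕ → Bool} (hn : Poly n)
    (hA : Poly (fun p : α × ℕ × ℕ => A p.1 p.2.1 p.2.2)) :
    Poly (fun a => clawT (n a).length (A a)) := by
  unfold clawT
  fun_prop

theorem poly_pathT {n : α → List ℚ} {A : α → ℕ → ℕ → Bool} (t : ℕ) (hn : Poly n)
    (hA : Poly (fun p : α × ℕ × ℕ => A p.1 p.2.1 p.2.2)) :
    Poly (fun a => pathT t (n a).length (A a)) := by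
  unfold pathT
  refine Poly.all (p := fun a l => !(decide (l.length = t) &&
    l.zipIdx.all (fun p => l.zipIdx.all (fun q => !(decide (p.2 < q.2)) ||
      (bif decide (p.2 + 1 = q.2) then A a p.1 q.1 else (!(A a p.1 q.1) && decide (p.1 ≠ q.1)))))))
    (poly_tup (UPoly.length hn).range t) ?_
  fun_prop

attribute [local irreducible] F top

theorem poly_decS (t : ℕ) : Poly (fun I : Instance => decS t I) := by
  unfold decS
  have hA : Poly (fun p : Instance × ℕ × ℕ => adjB p.1.1.1.length p.1.1.2 p.2.1 p.2.2) := poly_adj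
  refine Poly.ite (Poly.decide_bool (Poly.isEmpty poly_uL)) ?_ ?_
  · exact Poly.any (p := fun I x => decide (wn I x ≤ kn I)) poly_vL
      (Poly.decide_le poly_wn (poly_kn.comp (Poly.fst Poly.id)))
  · refine Poly.optElim (h := fun I c => decide (c + ((uL I).map (wn I)).sum ≤ kn I)) ?_
      (Poly.const false) ?_
    · exact poly_top (A := fun I : Instance => adjB I.1.1.length I.1.2) (Kt t) t hA poly_wn
        poly_vL poly_uL (Poly.optGetD (Poly.head? poly_uL) (Poly.const 0))
    · refine Poly.decide_le (Poly.add (Poly.snd Poly.id) ?_) (poly_kn.comp (Poly.fst Poly.id))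
      exact (Poly.sum (Poly.map (F := fun I x => wn I x) poly_uL poly_wn)).comp
        (Poly.fst (α := Instance × ℕ) Poly.id)

theorem poly_decI (t : ℕ) : Poly (fun I : Instance => decI t I) := by
  unfold decI
  have hA : Poly (fun p : Instance × ℕ × ℕ => adjB p.1.1.1.length p.1.1.2 p.2.1 p.2.2) := poly_adj
  have hn : Poly (fun I : Instance => I.1.1) := Poly.fst (Poly.fst Poly.id)
  refine Poly.and (Poly.and (Poly.and (Poly.and ?_ ?_) ?_) ?_) (poly_decS t)
  · exact Poly.all (p := fun _ q => decide (0 < q)) hn (poly_pos (Poly.snd Poly.id))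
  · exact poly_clawT (A := fun I : Instance => adjB I.1.1.length I.1.2) hn hA
  · exact poly_pathT (A := fun I : Instance => adjB I.1.1.length I.1.2) t hn hA
  · refine (Poly.not (poly_isNeg (poly_num (Poly.snd (Poly.snd (α := Instance) Poly.id))))).congr
      fun I => ?_
    rw [Bool.eq_iff_iff, Bool.not_eq_true', decide_eq_false_iff_not, decide_eq_true_eq, not_lt]

/-- **Main theorem.** -/
theorem vst_inPP (t : ℕ) : InPP (VSTClawPath t) :=
  inPP_of (poly_decI t) (decI_iff t)

end Pool.Agent.NPC.H685VST

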