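import Pool.Agent.H685R2.VST.Compl

/-!
# Completeness of the recursion
-/

namespace Pool.Agent.H685R2.VST

open Relation

/-- The bound on the length of guessed lists. -/
def Kt (t : ℕ) : ℕ :=
  (1 + (t + 1) * (t + 4)) * (1 + (t + 1) * (t + 4)) + (t + 3) * (1 + (t + 3)) + (t + 3)

theorem cost_parts (w : ℕ → ℕ) (U : List ℕ) (S : Finset ℕ) (X : ℕ → Prop) [DecidablePred X]
    (H : List ℕ) (hH : H.Nodup) (XH : ℕ → ℕ → Prop) [∀ h, DecidablePred (XH h)]
    (hXH : ∀ h ∈ H, ∀ x, XH h x → X x)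
    (hdis : ∀ h ∈ H, ∀ h' ∈ H, ∀ x, XH h x → XH h' x → h = h')
    (Z : List ℕ) (hZ : Z.Nodup) (hZ' : ∀ z ∈ Z, z ∈ S ∧ z ∉ U ∧ X z ∧ ∀ h ∈ H, ¬ XH h z) :
    (Z.map w).sum + (H.map (fun h => cost w U (S.filter (XH h)))).sum ≤ cost w U (S.filter X) := by
  rw [← List.sum_toFinset _ hZ, ← List.sum_toFinset _ hH]
  unfold cost
  rw [← Finset.sum_biUnion, ← Finset.sum_union]
  · apply Finset.sum_le_sum_of_subset
    intro x hx
    rw [Finset.mem_union, Finset.mem_biUnion] at hx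
    rw [Finset.mem_filter, Finset.mem_filter]
    rcases hx with hx | ⟨h, hh, hx⟩
    · obtain ⟨h1, h2, h3, _⟩ := hZ' x (List.mem_toFinset.1 hx)
      exact ⟨⟨h1, h3⟩, h2⟩
    · rw [Finset.mem_filter, Finset.mem_filter] at hx
      exact ⟨⟨hx.1.1, hXH h (List.mem_toFinset.1 hh) x hx.1.2⟩, hx.2⟩
  · rw [Finset.disjoint_left]
    intro x hx hx'
    rw [Finset.mem_biUnion] at hx'
    obtain ⟨h, hh, hx'⟩ := hx'
    rw [Finset.mem_filter, Finset.mem_filter] at hx'
    exact (hZ' x (List.mem_toFinset.1 hx)).2.2.2 h (List.mem_toFinset.1 hh) hx'.1.2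
  · intro h hh h' hh' hne
    rw [Function.onFun, Finset.disjoint_left]
    intro x hx hx'
    rw [Finset.mem_filter, Finset.mem_filter] at hx hx'
    have hh1 : h ∈ H := by simpa using hh
    have hh2 : h' ∈ H := by simpa using hh'
    exact hne (hdis h hh1 h' hh2 x hx.1.2 hx'.1.2)

theorem F_complete {A : ℕ → ℕ → Bool} (hA : ∀ a b, A a b = true → A b a = true)
    (hirr : ∀ a, A a a = false) (hcl : ClawFree A) {t : ℕ}
    (hPt : ∀ l, IndP A l → 2 ≤ l.length → l.length < t) (w : ℕ → ℕ) {U : List ℕ} {S : Finset ℕ}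
    (hcut : Cut A U S) : ∀ (k j : ℕ) (C D : List ℕ) (v : ℕ)
    (N : List (List ℕ)) (g : List (ℕ × ℕ)) (P : List ℕ) (Bg : ℕ → Prop), j + k = t →
    Inv A C D v → CInv A S t j C D v N P Bg →
    Ok A (fun x => x ∈ C ∨ x ∈ D) U N g (fun x => x ∈ S ∧ (x ∈ C ∨ x ∈ D)) →
    ∃ c ≤ cost w U (S.filter (fun x => x ∈ C ∨ x ∈ D)), F A (Kt t) w U k (C, D, v, N, g) = some c
  | 0, j, C, D, v, N, g, P, Bg, hjk, hI, hJ, hok => by
    have h1 := hPt _ hJ.path (by rw [List.length_cons, hJ.plen]; omega)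
    rw [List.length_cons, hJ.plen] at h1
    omega
  | k + 1, j, C, D, v, N, g, P, Bg, hjk, hI, hJ, hok => by
    obtain ⟨Z, Wt, act, As, hZ1, hZ2, hW1, hW2, hAs1, hAs2, ⟨hZ3, hZ4⟩, hch, hok', hJ'⟩ :=
      step_complete hA hirr hcl hI hJ hcut (by omega) hok
    have hrec : ∀ h ∈ headsL A (cC A C v), ∃ c ≤ cost w U (S.filter (fun x =>
        x ∈ chC A C v h ∨ x ∈ chD A C D v h)),
        F A (Kt t) w U k (chC A C v h, chD A C D v h, chv A C v h,
          newN A C D v N (yY A U C D v Z) Wt act, chg As h) = some c := by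
      intro h hh
      obtain ⟨P', Bg', hJ''⟩ := hJ' h hh
      exact F_complete hA hirr hcl hPt w hcut k (j + 1) _ _ _ _ _ P' Bg' (by omega)
        (hI.child hA hcl hh).1 hJ'' (hok' h hh)
    have hm : N.length + 1 + Wt.length ≤ 1 + (t + 1) * (t + 4) := by
      have h1 := hJ.nlen
      have h2 : (j + 1) * (t + 4) ≤ (t + 1) * (t + 4) := Nat.mul_le_mul_right _ (by omega)
      have h3 : (j + 1) * (t + 4) = j * (t + 4) + (t + 4) := by ring
      omega
    have hK1 : (t + 3) * (1 + (t + 3)) ≤ Kt t := by unfold Kt; omega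
    have hK2 : t + 3 ≤ Kt t := by unfold Kt; omega
    have hK3 : (N.length + 1 + Wt.length) * (N.length + 1 + Wt.length) ≤ Kt t := by
      have := Nat.mul_le_mul hm hm
      unfold Kt
      omega
    obtain ⟨c, hc, hc'⟩ := sumO_map' (fun h => F A (Kt t) w U k (chC A C v h, chD A C D v h,
      chv A C v h, newN A C D v N (yY A U C D v Z) Wt act, chg As h))
      (fun h => cost w U (S.filter (fun x => x ∈ chC A C v h ∨ x ∈ chD A C D v h)))
      (headsL A (cC A C v)) hrec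
    have hval : val A w U (F A (Kt t) w U k) (C, D, v, N, g) (Z, Wt, act, As) =
        some ((Z.map w).sum + c) := by
      unfold val
      rw [if_pos hch, sumO_cons]
      exact ⟨_, _, rfl, hc', rfl⟩
    have hmem : (Z, Wt, act, As) ∈ guesses A (Kt t) (C, D, v, N, g) := by
      unfold guesses
      rw [List.mem_product, List.mem_product, List.mem_product, mem_tup, mem_tup, mem_tup]
      refine ⟨⟨by omega, hZ2⟩, ⟨by omega, hW2⟩, by cases act <;> simp, by omega, ?_⟩
      intro a ha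
      obtain ⟨h1, h2, h3⟩ := hAs2 a ha
      rw [List.mem_product, List.mem_product, List.mem_range, List.mem_range]
      have hle : N.length + 1 + Wt.length ≤ N.length + 1 + Kt t := by omega
      exact ⟨lt_of_lt_of_le h1 hle, lt_of_lt_of_le h2 hle, h3⟩
    obtain ⟨c', hc1, hc2⟩ := minO_le (L := (guesses A (Kt t) (C, D, v, N, g)).map
      (val A w U (F A (Kt t) w U k) (C, D, v, N, g))) (c := (Z.map w).sum + c) (by
        rw [List.mem_map]
        exact ⟨_, hmem, hval⟩)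
    refine ⟨c', hc1.trans ?_, hc2⟩
    refine (Nat.add_le_add_left hc _).trans ?_
    apply cost_parts w U S (fun x => x ∈ C ∨ x ∈ D) (headsL A (cC A C v))
      (heads_nodup (hI.nd.filter _)) (fun h x => x ∈ chC A C v h ∨ x ∈ chD A C D v h)
      (fun h _ x hx => ch_sub hx)
      (fun h hh h' hh' x hx hx' => hI.parts_disj hA hcl hh hh' hx hx') Z hZ3
    intro z hz
    exact ⟨(hZ4 z hz).1, (hZ4 z hz).2, inn_sub (hZ2 z hz),
      fun h _ hzh => hI.inn_disj hA (hZ2 z hz) hzh⟩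

end Pool.Agent.H685R2.VST
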