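import Pool.Agent.H685R2.VST.Alg

/-!
# Structure of the recursion, soundness of the algorithm
-/

namespace Pool.Agent.H685R2.VST

open Relation

/-- The structural invariant of a state. -/
structure Inv (A : ℕ → ℕ → Bool) (C D : List ℕ) (v : ℕ) : Prop where
  nd : C.Nodup
  conn : ∀ x ∈ C, ∀ y ∈ C, Rs (fun a b => A a b = true) (· ∈ C) x y
  vD : v ∈ D
  nbC : ∀ c ∈ C, ∀ x, A c x = true → x ∈ C ∨ x ∈ D
  dis : ∀ x ∈ C, x ∉ D
  nbD : ∀ r ∈ D, ∃ c ∈ C, A r c = true
  wit : ∀ r ∈ D, ∃ p, A r p = true ∧ p ∉ C ∧ ∀ c ∈ C, A p c = false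

/-- No claws. -/
def ClawFree (A : ℕ → ℕ → Bool) : Prop := ∀ c x y z, A c x = true → A c y = true → A c z = true →
  x ≠ y → y ≠ z → x ≠ z → A x y = true ∨ A y z = true ∨ A x z = true

section

variable {A : ℕ → ℕ → Bool} (hA : ∀ a b, A a b = true → A b a = true) (hcl : ClawFree A)
  {C D : List ℕ} {v : ℕ} (hI : Inv A C D v)

include hA hcl hI

theorem Inv.nbClique {r x y : ℕ} (hr : r ∈ D) (hx : x ∈ C) (hy : y ∈ C) (hrx : A r x = true)
    (hry : A r y = true) (hxy : x ≠ y) : A x y = true := by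
  obtain ⟨p, hp1, hp2, hp3⟩ := hI.wit r hr
  have h1 : p ≠ x := fun h => hp2 (h ▸ hx)
  have h2 : p ≠ y := fun h => hp2 (h ▸ hy)
  rcases hcl r p x y hp1 hrx hry h1 hxy h2 with h | h | h
  · rw [hp3 x hx] at h; simp at h
  · exact h
  · rw [hp3 y hy] at h; simp at h

theorem Inv.bclique {a b : ℕ} (ha : a ∈ bB A C v) (hb : b ∈ bB A C v) (hab : a ≠ b) :
    A a b = true := by
  unfold bB at ha hb
  rw [List.mem_filter] at ha hb
  exact hI.nbClique hA hcl hI.vD ha.1 hb.1 ha.2 hb.2 hab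

theorem Inv.nbClique' {r x y : ℕ} (hr : r ∈ D ++ bB A C v) (hx : x ∈ cC A C v)
    (hy : y ∈ cC A C v) (hrx : A r x = true) (hry : A r y = true) (hxy : x ≠ y) : A x y = true := by
  unfold cC at hx hy
  simp only [List.mem_filter, Bool.not_eq_true'] at hx hy
  rcases List.mem_append.1 hr with hr | hr
  · exact hI.nbClique hA hcl hr hx.1 hy.1 hrx hry hxy
  · unfold bB at hr
    rw [List.mem_filter] at hr
    have hvC : v ∉ C := fun h => hI.dis v h hI.vD
    have h1 : v ≠ x := fun h => hvC (h ▸ hx.1)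
    have h2 : v ≠ y := fun h => hvC (h ▸ hy.1)
    rcases hcl r v x y (hA _ _ hr.2) hrx hry h1 hxy h2 with h | h | h
    · rw [hx.2] at h; simp at h
    · exact h
    · rw [hy.2] at h; simp at h

omit hcl hI in
theorem chC_closed {h x y : ℕ} (hx : x ∈ chC A C v h) (hy : y ∈ cC A C v) (hxy : A x y = true) :
    y ∈ chC A C v h := by
  unfold chC at hx ⊢
  rw [mem_compL hA] at hx ⊢
  exact ⟨hx.1, hy, hx.2.2.trans (Rs.single hxy hx.2.1 hy)⟩

omit hA hcl hI in
theorem chC_sub {h x : ℕ} (hx : x ∈ chC A C v h) : x ∈ cC A C v := by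
  unfold chC compL at hx
  exact List.mem_of_mem_filter hx

omit hA hcl hI in
theorem mem_cC {x : ℕ} : x ∈ cC A C v ↔ x ∈ C ∧ A v x = false := by
  unfold cC
  rw [List.mem_filter, Bool.not_eq_true']

omit hA hcl hI in
theorem mem_bB {x : ℕ} : x ∈ bB A C v ↔ x ∈ C ∧ A v x = true := by
  unfold bB
  rw [List.mem_filter]

omit hA hcl hI in
theorem mem_hasNb {L : List ℕ} {r : ℕ} : hasNb A L r = true ↔ ∃ c ∈ L, A r c = true := by
  unfold hasNb
  rw [List.any_eq_true]

omit hA hcl hI in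
theorem mem_chD {h r : ℕ} : r ∈ chD A C D v h ↔ (r ∈ D ∨ r ∈ bB A C v) ∧
    ∃ c ∈ chC A C v h, A r c = true := by
  unfold chD
  rw [List.mem_filter, List.mem_append, mem_hasNb]

omit hA hcl hI in
theorem mem_inn {r : ℕ} : r ∈ inn A C D v ↔ (r ∈ D ∨ r ∈ bB A C v) ∧
    ∀ c ∈ cC A C v, A r c = false := by
  unfold inn
  rw [List.mem_filter, List.mem_append, Bool.not_eq_true', ← Bool.not_eq_true, mem_hasNb]
  simp

theorem Inv.part_unique {r x y h h' : ℕ} (hh : h ∈ headsL A (cC A C v))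
    (hh' : h' ∈ headsL A (cC A C v)) (hr : r ∈ D ∨ r ∈ bB A C v) (hx : x ∈ chC A C v h)
    (hy : y ∈ chC A C v h') (hrx : A r x = true) (hry : A r y = true) : h = h' := by
  by_cases hxy : x = y
  · subst hxy
    exact heads_inj hA hh hh' hx hy
  · have h1 := hI.nbClique' hA hcl (List.mem_append.2 hr) (chC_sub hx) (chC_sub hy) hrx hry hxy
    exact heads_inj hA hh hh' (chC_closed hA hx (chC_sub hy) h1) hy

/-- The parts are disjoint. -/
theorem Inv.parts_disj {x h h' : ℕ} (hh : h ∈ headsL A (cC A C v))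
    (hh' : h' ∈ headsL A (cC A C v)) (hx : x ∈ chC A C v h ∨ x ∈ chD A C D v h)
    (hx' : x ∈ chC A C v h' ∨ x ∈ chD A C D v h') : h = h' := by
  have hkey : ∀ {k l : ℕ}, x ∈ chC A C v k → x ∈ chD A C D v l → False := by
    intro k l h1 h2
    have h3 := mem_cC.1 (chC_sub h1)
    rcases (mem_chD.1 h2).1 with h4 | h4
    · exact hI.dis x h3.1 h4
    · rw [mem_bB, h3.2] at h4
      simp at h4
  rcases hx with hx | hx <;> rcases hx' with hx' | hx'
  · exact heads_inj hA hh hh' hx hx'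
  · exact (hkey hx hx').elim
  · exact (hkey hx' hx).elim
  · obtain ⟨h1, c, hc, hc'⟩ := mem_chD.1 hx
    obtain ⟨_, c', hc2, hc2'⟩ := mem_chD.1 hx'
    exact hI.part_unique hA hcl hh hh' h1 hc hc2 hc' hc2'

/-- The state of a part satisfies the invariant. -/
theorem Inv.child {h : ℕ} (hh : h ∈ headsL A (cC A C v)) :
    Inv A (chC A C v h) (chD A C D v h) (chv A C v h) ∧ A v (chv A C v h) = true ∧
      chv A C v h ∈ C := by
  have hhc : h ∈ chC A C v h := head_mem hA hh
  have hcl' : ∀ c ∈ chC A C v h, ∀ x, A c x = true → x ∈ chC A C v h ∨ x ∈ chD A C D v h := by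
    intro c hc x hcx
    have hcC := mem_cC.1 (chC_sub hc)
    by_cases hxD : x ∈ D
    · exact Or.inr (mem_chD.2 ⟨Or.inl hxD, c, hc, hA _ _ hcx⟩)
    · have hxC : x ∈ C := (hI.nbC c hcC.1 x hcx).resolve_right hxD
      by_cases hvx : A v x = true
      · exact Or.inr (mem_chD.2 ⟨Or.inr (mem_bB.2 ⟨hxC, hvx⟩), c, hc, hA _ _ hcx⟩)
      · exact Or.inl (chC_closed hA hc (mem_cC.2 ⟨hxC, by simpa using hvx⟩) hcx)
  have hex : ∃ b ∈ bB A C v, hasNb A (chC A C v h) b = true := by
    by_contra hcon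
    push Not at hcon
    obtain ⟨b0, hb0, hvb0⟩ := hI.nbD v hI.vD
    have h1 := hI.conn h (mem_cC.1 (chC_sub hhc)).1 b0 hb0
    have h2 : ∀ z, Rs (fun a b => A a b = true) (· ∈ C) h z → z ∈ chC A C v h := by
      intro z hz
      induction hz with
      | refl => exact hhc
      | @tail y z' _ hst ih =>
        by_cases hvz : A v z' = true
        · exact absurd (mem_hasNb.2 ⟨_, ih, hA _ _ hst.1⟩) (hcon _ (mem_bB.2 ⟨hst.2.2, hvz⟩))
        · exact chC_closed hA ih (mem_cC.2 ⟨hst.2.2, by simpa using hvz⟩) hst.1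
    have h3 := (mem_cC.1 (chC_sub (h2 b0 h1))).2
    rw [hvb0] at h3
    simp at h3
  have hchv : chv A C v h ∈ bB A C v ∧ hasNb A (chC A C v h) (chv A C v h) = true := by
    obtain ⟨b, hb, hb'⟩ := hex
    have hmem : b ∈ (bB A C v).filter (hasNb A (chC A C v h)) := List.mem_filter.2 ⟨hb, hb'⟩
    unfold chv
    cases hl : (bB A C v).filter (hasNb A (chC A C v h)) with
    | nil => rw [hl] at hmem; exact absurd hmem List.not_mem_nil
    | cons z l =>
      have hz : z ∈ (bB A C v).filter (hasNb A (chC A C v h)) := by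
        rw [hl]; exact List.mem_cons_self
      rw [List.mem_filter] at hz
      exact hz
  refine ⟨⟨?_, ?_, ?_, hcl', ?_, ?_, ?_⟩, (mem_bB.1 hchv.1).2, (mem_bB.1 hchv.1).1⟩
  · unfold chC compL cC
    exact (hI.nd.filter _).filter _
  · intro x hx y hy
    have hx' := hx
    unfold chC at hx hy
    rw [mem_compL hA] at hx hy
    have h1 : Rs (fun a b => A a b = true) (· ∈ cC A C v) x y := (hx.2.2.symm hA).trans hy.2.2
    clear hy
    have : ∀ z, Rs (fun a b => A a b = true) (· ∈ cC A C v) x z →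
        z ∈ chC A C v h ∧ Rs (fun a b => A a b = true) (· ∈ chC A C v h) x z := by
      intro z hz
      induction hz with
      | refl => exact ⟨hx', Rs.refl _⟩
      | tail _ hst ih =>
        have h2 := chC_closed hA ih.1 hst.2.2 hst.1
        exact ⟨h2, ih.2.trans (Rs.single hst.1 ih.1 h2)⟩
    exact (this y h1).2
  · exact mem_chD.2 ⟨Or.inr hchv.1, mem_hasNb.1 hchv.2⟩
  · intro x hx hx'
    have h1 := mem_cC.1 (chC_sub hx)
    rcases (mem_chD.1 hx').1 with h2 | h2
    · exact hI.dis x h1.1 h2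
    · rw [mem_bB, h1.2] at h2
      simp at h2
  · intro r hr
    exact (mem_chD.1 hr).2
  · intro r hr
    rcases (mem_chD.1 hr).1 with h1 | h1
    · obtain ⟨p, hp1, hp2, hp3⟩ := hI.wit r h1
      exact ⟨p, hp1, fun h => hp2 (mem_cC.1 (chC_sub h)).1,
        fun c hc => hp3 c (mem_cC.1 (chC_sub hc)).1⟩
    · refine ⟨v, hA _ _ (mem_bB.1 h1).2, fun h => ?_, fun c hc => (mem_cC.1 (chC_sub hc)).2⟩
      exact hI.dis v (mem_cC.1 (chC_sub h)).1 hI.vD

end

/-! ### Soundness of the recursion -/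

theorem cost_toFinset_le (w : ℕ → ℕ) (U L : List ℕ) : ∀ Z : List ℕ,
    (∀ x ∈ L, x ∉ U → x ∈ Z) → cost w U L.toFinset ≤ (Z.map w).sum := by
  intro Z h
  unfold cost
  have h1 : (L.toFinset.filter (fun x => x ∉ U)) ⊆ Z.toFinset := by
    intro x hx
    rw [Finset.mem_filter, List.mem_toFinset] at hx
    rw [List.mem_toFinset]
    exact h x hx.1 hx.2
  refine (Finset.sum_le_sum_of_subset h1).trans ?_
  have : ∀ Z : List ℕ, ∑ x ∈ Z.toFinset, w x ≤ (Z.map w).sum := by
    intro Z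
    induction Z with
    | nil => simp
    | cons z Z ih =>
      rw [List.toFinset_cons, List.map_cons, List.sum_cons]
      by_cases hz : z ∈ Z.toFinset
      · rw [Finset.insert_eq_of_mem hz]
        omega
      · rw [Finset.sum_insert hz]
        omega
  exact this Z

theorem cost_biUnion_le (w : ℕ → ℕ) (U : List ℕ) (T : ℕ → Finset ℕ) (e : ℕ → ℕ) :
    ∀ H : List ℕ, (∀ h ∈ H, cost w U (T h) ≤ e h) →
      cost w U (H.toFinset.biUnion T) ≤ (H.map e).sum
  | [], _ => by simp [cost]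
  | h :: H, hT => by
    rw [List.toFinset_cons, Finset.biUnion_insert, List.map_cons, List.sum_cons]
    have h1 := cost_union w U (T h) (H.toFinset.biUnion T)
    have h2 := cost_biUnion_le w U T e H (fun x hx => hT x (List.mem_cons_of_mem _ hx))
    have h3 := hT h List.mem_cons_self
    omega

theorem F_sound {A : ℕ → ℕ → Bool} (hA : ∀ a b, A a b = true → A b a = true) (hcl : ClawFree A)
    (K : ℕ) (w : ℕ → ℕ) (U : List ℕ) : ∀ (k : ℕ) (C D : List ℕ) (v : ℕ) (N : List (List ℕ))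
    (g : List (ℕ × ℕ)) (c : ℕ), Inv A C D v → F A K w U k (C, D, v, N, g) = some c →
    ∃ S : Finset ℕ, Ok A (fun x => x ∈ C ∨ x ∈ D) U N g (· ∈ S) ∧ cost w U S ≤ c
  | 0, C, D, v, N, g, c, _, h => by simp [F] at h
  | k + 1, C, D, v, N, g, c, hI, h => by
    unfold F at h
    have h1 := minO_some h
    rw [List.mem_map] at h1
    obtain ⟨⟨Z, Wt, act, As⟩, hy, hval⟩ := h1
    unfold val at hval
    split_ifs at hval with hch
    simp only at hch hval
    rw [sumO_cons] at hval
    obtain ⟨a, b, ha, hb, rfl⟩ := hval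
    obtain ⟨h2, h3⟩ := sumO_map _ _ _ hb
    unfold guesses at hy
    rw [List.mem_product, List.mem_product, List.mem_product, mem_tup, mem_tup, mem_tup] at hy
    obtain ⟨⟨_, hZ⟩, _, _, _, hAs⟩ := hy
    simp only at hZ hAs
    have hAs' : ∀ a ∈ As, a.2.2 ∈ headsL A (cC A C v) := by
      intro a ha
      have := hAs a ha
      rw [List.mem_product, List.mem_product] at this
      exact this.2.2
    have hex : ∀ h, ∃ T : Finset ℕ, h ∈ headsL A (cC A C v) →
        Ok A (fun x => x ∈ chC A C v h ∨ x ∈ chD A C D v h) U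
          (newN A C D v N (yY A U C D v Z) Wt act) (chg As h) (· ∈ T) ∧
        cost w U T ≤ ((F A K w U k (chC A C v h, chD A C D v h, chv A C v h,
          newN A C D v N (yY A U C D v Z) Wt act, chg As h)).getD 0) := by
      intro h
      by_cases hh : h ∈ headsL A (cC A C v)
      · obtain ⟨a', ha'⟩ := h2 h hh
        obtain ⟨T, hT1, hT2⟩ := F_sound hA hcl K w U k _ _ _ _ _ a' (hI.child hA hcl hh).1 ha'
        refine ⟨T, fun _ => ⟨hT1, ?_⟩⟩
        rw [ha']
        exact hT2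
      · exact ⟨∅, fun h' => absurd h' hh⟩
    choose T hT using hex
    refine ⟨_, step_sound hA (w := w) hZ hAs' (fun a ha b hb hab => hI.bclique hA hcl ha hb hab)
      hch T (fun h hh => (hT h hh).1), ?_⟩
    refine (cost_union _ _ _ _).trans ?_
    have h4 := cost_toFinset_le w U (yY A U C D v Z) Z (by
      intro x hx hxU
      unfold yY at hx
      rcases List.mem_append.1 hx with hx | hx
      · exact hx
      · rw [List.mem_filter, decide_eq_true_eq] at hx
        exact absurd hx.2 hxU)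
    have h5 := cost_biUnion_le w U T _ (headsL A (cC A C v)) (fun h hh => (hT h hh).2)
    have h6 := Option.some.inj ha
    rw [h3]
    have h7 := Nat.add_le_add h4 h5
    rw [h6] at h7
    exact h7

end Pool.Agent.H685R2.VST
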