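import Pool.Agent.H685R2.VST.Full

/-!
# The top level of the algorithm
-/

namespace Pool.Agent.H685R2.VST

open Relation

section

variable (A : ℕ → ℕ → Bool)

/-- Vertices at distance at least two from `v1`. -/
def far (V : List ℕ) (v1 : ℕ) : List ℕ := V.filter (fun x => !(A v1 x) && decide (x ≠ v1))

/-- The neighbours of `v1` attached to a component. -/
def topD (V : List ℕ) (v1 h : ℕ) : List ℕ :=
  V.filter (fun r => A v1 r && hasNb A (compL A (far A V v1) h) r)

/-- The components which are attached to the neighbourhood of `v1`. -/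
def topH (V : List ℕ) (v1 : ℕ) : List ℕ :=
  (headsL A (far A V v1)).filter (fun h => !((topD A V v1 h).isEmpty))

/-- The minimum cost of a solution, if there is one. -/
def top (K t : ℕ) (w : ℕ → ℕ) (V U : List ℕ) (v1 : ℕ) : Option ℕ :=
  if U.all (fun u => decide (u = v1) || A v1 u ||
    (topH A V v1).any (fun h => decide (u ∈ compL A (far A V v1) h))) = true then
    sumO ((topH A V v1).map (fun h => F A K w U t (compL A (far A V v1) h, topD A V v1 h,
      (topD A V v1 h).head?.getD 0, [V.filter (fun x => A v1 x)], [])))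
  else none

end

/-- Solutions: connected sets of vertices containing the terminals. -/
structure Sol (A : ℕ → ℕ → Bool) (V U : List ℕ) (S : Finset ℕ) : Prop where
  sub : ∀ x ∈ S, x ∈ V
  ter : ∀ x ∈ U, x ∈ S
  conn : ∀ x ∈ S, ∀ y ∈ S, Rs (fun a b => A a b = true) (· ∈ S) x y

section

variable {A : ℕ → ℕ → Bool} (hA : ∀ a b, A a b = true → A b a = true)
  (hirr : ∀ a, A a a = false) (hcl : ClawFree A) {V : List ℕ} (hV : V.Nodup)
  (hAV : ∀ a b, A a b = true → b ∈ V) {v1 : ℕ}

theorem mem_far {x : ℕ} : x ∈ far A V v1 ↔ x ∈ V ∧ A v1 x = false ∧ x ≠ v1 := by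
  unfold far
  rw [List.mem_filter, Bool.and_eq_true, Bool.not_eq_true', decide_eq_true_eq]

theorem mem_topD {r h : ℕ} : r ∈ topD A V v1 h ↔ r ∈ V ∧ A v1 r = true ∧
    ∃ c ∈ compL A (far A V v1) h, A r c = true := by
  unfold topD
  rw [List.mem_filter, Bool.and_eq_true, mem_hasNb]

theorem mem_topH {h : ℕ} : h ∈ topH A V v1 ↔ h ∈ headsL A (far A V v1) ∧
    ∃ r, r ∈ topD A V v1 h := by
  unfold topH
  rw [List.mem_filter, Bool.not_eq_true', List.isEmpty_eq_false_iff, List.ne_nil_iff_exists_cons]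
  constructor
  · rintro ⟨h1, b, L, h2⟩
    exact ⟨h1, b, by rw [h2]; exact List.mem_cons_self⟩
  · rintro ⟨h1, r, h2⟩
    refine ⟨h1, ?_⟩
    cases hl : topD A V v1 h with
    | nil => rw [hl] at h2; exact absurd h2 List.not_mem_nil
    | cons b L => exact ⟨b, L, rfl⟩

include hA in
theorem far_closed {h x y : ℕ} (hx : x ∈ compL A (far A V v1) h) (hy : y ∈ far A V v1)
    (hxy : A x y = true) : y ∈ compL A (far A V v1) h := by
  rw [mem_compL hA] at hx ⊢
  exact ⟨hx.1, hy, hx.2.2.trans (Rs.single hxy hx.2.1 hy)⟩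

theorem comp_far {h x : ℕ} (hx : x ∈ compL A (far A V v1) h) : x ∈ far A V v1 := by
  unfold compL at hx
  exact List.mem_of_mem_filter hx

include hA hirr hcl hAV

theorem top_nb {r h x : ℕ} (hr : r ∈ topD A V v1 h) (hrx : A r x = true)
    (hx : x ≠ v1) (hx' : A v1 x = false) : x ∈ compL A (far A V v1) h := by
  obtain ⟨_, h1, c, hc, hrc⟩ := mem_topD.1 hr
  by_cases hcx : c = x
  · rw [← hcx]; exact hc
  · have h2 := mem_far.1 (comp_far hc)
    have h3 : x ∈ far A V v1 := mem_far.2 ⟨hAV _ _ hrx, hx', hx⟩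
    rcases hcl r v1 c x (hA _ _ h1) hrc hrx (Ne.symm h2.2.2) hcx (Ne.symm hx) with h | h | h
    · rw [h2.2.1] at h; simp at h
    · exact far_closed hA hc h3 h
    · rw [hx'] at h; simp at h

theorem top_disj {x h h' : ℕ} (hh : h ∈ headsL A (far A V v1)) (hh' : h' ∈ headsL A (far A V v1))
    (hx : x ∈ compL A (far A V v1) h ∨ x ∈ topD A V v1 h)
    (hx' : x ∈ compL A (far A V v1) h' ∨ x ∈ topD A V v1 h') : h = h' := by
  rcases hx with hx | hx <;> rcases hx' with hx' | hx'
  · exact heads_inj hA hh hh' hx hx'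
  · have h1 := (mem_far.1 (comp_far hx)).2.1
    rw [(mem_topD.1 hx').2.1] at h1
    simp at h1
  · have h1 := (mem_far.1 (comp_far hx')).2.1
    rw [(mem_topD.1 hx).2.1] at h1
    simp at h1
  · obtain ⟨_, _, c, hc, hxc⟩ := mem_topD.1 hx'
    have h2 := mem_far.1 (comp_far hc)
    exact heads_inj hA hh hh' (top_nb hA hirr hcl hAV hx hxc h2.2.2 h2.2.1) hc

include hV

theorem top_inv {h : ℕ} (hh : h ∈ topH A V v1) :
    Inv A (compL A (far A V v1) h) (topD A V v1 h) ((topD A V v1 h).head?.getD 0) := by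
  obtain ⟨hh1, r0, hr0⟩ := mem_topH.1 hh
  refine ⟨?_, ?_, ?_, ?_, ?_, ?_, ?_⟩
  · unfold compL far
    exact (hV.filter _).filter _
  · intro x hx y hy
    have hx' := hx
    rw [mem_compL hA] at hx hy
    have h1 : Rs (fun a b => A a b = true) (· ∈ far A V v1) x y :=
      (hx.2.2.symm hA).trans hy.2.2
    clear hy
    have : ∀ z, Rs (fun a b => A a b = true) (· ∈ far A V v1) x z →
        z ∈ compL A (far A V v1) h ∧
          Rs (fun a b => A a b = true) (· ∈ compL A (far A V v1) h) x z := by
      intro z hz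
      induction hz with
      | refl => exact ⟨hx', Rs.refl _⟩
      | tail _ hst ih =>
        have h2 := far_closed hA ih.1 hst.2.2 hst.1
        exact ⟨h2, ih.2.trans (Rs.single hst.1 ih.1 h2)⟩
    exact (this y h1).2
  · cases hl : topD A V v1 h with
    | nil => rw [hl] at hr0; exact absurd hr0 List.not_mem_nil
    | cons b L => exact List.mem_cons_self
  · intro c hc x hcx
    have h1 := mem_far.1 (comp_far hc)
    have hx1 : x ≠ v1 := by
      rintro rfl
      rw [hA _ _ hcx] at h1
      simp at h1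
    by_cases hx2 : A v1 x = true
    · exact Or.inr (mem_topD.2 ⟨hAV _ _ hcx, hx2, c, hc, hA _ _ hcx⟩)
    · exact Or.inl (far_closed hA hc (mem_far.2 ⟨hAV _ _ hcx, by simpa using hx2, hx1⟩) hcx)
  · intro x hx hx'
    have h1 := (mem_far.1 (comp_far hx)).2.1
    rw [(mem_topD.1 hx').2.1] at h1
    simp at h1
  · intro r hr
    exact (mem_topD.1 hr).2.2
  · intro r hr
    exact ⟨v1, hA _ _ (mem_topD.1 hr).2.1, fun h => (mem_far.1 (comp_far h)).2.2 rfl,
      fun c hc => (mem_far.1 (comp_far hc)).2.1⟩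

theorem top_sound {K t : ℕ} {w : ℕ → ℕ} {U : List ℕ} (hUV : ∀ u ∈ U, u ∈ V) (hv1 : v1 ∈ U) {c : ℕ}
    (h : top A K t w V U v1 = some c) : ∃ S : Finset ℕ, Sol A V U S ∧ cost w U S ≤ c := by
  unfold top at h
  split_ifs at h with hall
  rw [List.all_eq_true] at hall
  obtain ⟨h1, h2⟩ := sumO_map _ _ _ h
  have hex : ∀ h, ∃ T : Finset ℕ, h ∈ topH A V v1 →
      Ok A (fun x => x ∈ compL A (far A V v1) h ∨ x ∈ topD A V v1 h) U
        [V.filter (fun x => A v1 x)] [] (· ∈ T) ∧
      cost w U T ≤ (F A K w U t (compL A (far A V v1) h, topD A V v1 h,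
        (topD A V v1 h).head?.getD 0, [V.filter (fun x => A v1 x)], [])).getD 0 := by
    intro h
    by_cases hh : h ∈ topH A V v1
    · obtain ⟨a, ha⟩ := h1 h hh
      obtain ⟨T, hT1, hT2⟩ := F_sound hA hcl K w U t _ _ _ _ _ a
        (top_inv hA hirr hcl hV hAV hh) ha
      exact ⟨T, fun _ => ⟨hT1, by rw [ha]; exact hT2⟩⟩
    · exact ⟨∅, fun h' => absurd h' hh⟩
  choose T hT using hex
  set S : Finset ℕ := U.toFinset ∪ (topH A V v1).toFinset.biUnion T with hS
  have memS : ∀ x, x ∈ S ↔ x ∈ U ∨ ∃ h ∈ topH A V v1, x ∈ T h := by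
    intro x
    rw [hS, Finset.mem_union, List.mem_toFinset, Finset.mem_biUnion]
    simp only [List.mem_toFinset]
  have hv1S : v1 ∈ S := (memS v1).2 (Or.inl hv1)
  have hTconn : ∀ h ∈ topH A V v1, ∀ x ∈ T h, Rs (fun a b => A a b = true) (· ∈ S) x v1 := by
    intro h hh x hx
    obtain ⟨i, hi, hr⟩ := (hT h hh).1.att x hx
    have hTS : ∀ y ∈ T h, y ∈ S := fun y hy => (memS y).2 (Or.inr ⟨h, hh, hy⟩)
    have hport : ∀ a i, a ∈ S → a ∈ [V.filter (fun x => A v1 x)].getD i [] →
        Rs (fun a b => A a b = true) (· ∈ S) a v1 := by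
      intro a i ha hai
      have hi := getD_mem_length hai
      have hi0 : i = 0 := by simpa using hi
      subst hi0
      have h3 : a ∈ V.filter (fun x => A v1 x) := hai
      rw [List.mem_filter] at h3
      exact Rs.single (hA _ _ h3.2) ha hv1S
    have key : ∀ p q, Rc A (· ∈ T h) [V.filter (fun x => A v1 x)] p q →
        Rs (fun a b => A a b = true) (· ∈ S) (Sum.elim id (fun _ => v1) p)
          (Sum.elim id (fun _ => v1) q) := by
      intro p q hpq
      induction hpq with
      | refl => exact Rs.refl _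
      | @tail q q' _ hst ih =>
        refine ih.trans ?_
        cases q with
        | inl a =>
          cases q' with
          | inl b => exact Rs.single hst.1 (hTS _ hst.2.1) (hTS _ hst.2.2)
          | inr i => exact hport a i (hTS _ hst.1) hst.2
        | inr i =>
          cases q' with
          | inl b => exact (hport b i (hTS _ hst.1) hst.2).symm hA
          | inr j => exact hst.elim
    exact key _ _ hr
  have hconn : ∀ x ∈ S, Rs (fun a b => A a b = true) (· ∈ S) x v1 := by
    intro x hx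
    rcases (memS x).1 hx with hxU | ⟨h, hh, hx⟩
    · have h3 := hall x hxU
      simp only [Bool.or_eq_true, decide_eq_true_eq, List.any_eq_true] at h3
      rcases h3 with (h3 | h3) | ⟨h, hh, h3⟩
      · rw [h3]; exact Rs.refl _
      · exact Rs.single (hA _ _ h3) hx hv1S
      · exact hTconn h hh x ((hT h hh).1.ter x (Or.inl h3) hxU)
    · exact hTconn h hh x hx
  refine ⟨S, ⟨?_, fun x hx => (memS x).2 (Or.inl hx), fun x hx y hy =>
    (hconn x hx).trans ((hconn y hy).symm hA)⟩, ?_⟩
  · intro x hx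
    rcases (memS x).1 hx with hxU | ⟨h, hh, hx⟩
    · exact hUV x hxU
    · rcases (hT h hh).1.sub x hx with h3 | h3
      · exact (mem_far.1 (comp_far h3)).1
      · exact (mem_topD.1 h3).1
  · refine (cost_union _ _ _ _).trans ?_
    have h4 := cost_toFinset_le w U U [] (fun x hx hxU => absurd hx hxU)
    have h5 := cost_biUnion_le w U T _ (topH A V v1) (fun h hh => (hT h hh).2)
    rw [h2]
    simpa using Nat.add_le_add h4 h5

theorem top_complete {t : ℕ} (hPt : ∀ l, IndP A l → 2 ≤ l.length → l.length < t) (w : ℕ → ℕ) {U : List ℕ}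
    {S : Finset ℕ} (hS : Sol A V U S) (hcut : Cut A U S) (hv1 : v1 ∈ U) :
    ∃ c ≤ cost w U S, top A (Kt t) t w V U v1 = some c := by
  have hv1S := hS.ter v1 hv1
  -- exit lemma
  have hexit : ∀ h, ∀ x ∈ S, (x ∈ compL A (far A V v1) h ∨ x ∈ topD A V v1 h) →
      (∃ r, r ∈ topD A V v1 h) ∧
      Rc A (fun x => x ∈ S ∧ (x ∈ compL A (far A V v1) h ∨ x ∈ topD A V v1 h))
        [V.filter (fun x => A v1 x)] (.inl x) (.inr 0) := by
    intro h x hx hxh
    have h1 := hS.conn x hx v1 hv1S
    induction h1 using ReflTransGen.head_induction_on with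
    | refl =>
      rcases hxh with h2 | h2
      · exact absurd rfl (mem_far.1 (comp_far h2)).2.2
      · have := (mem_topD.1 h2).2.1
        rw [hirr] at this
        simp at this
    | @head x y hxy _ ih =>
      have hport : x ∈ topD A V v1 h → (∃ r, r ∈ topD A V v1 h) ∧
        Rc A (fun x => x ∈ S ∧ (x ∈ compL A (far A V v1) h ∨ x ∈ topD A V v1 h))
          [V.filter (fun x => A v1 x)] (.inl x) (.inr 0) := by
        intro h2
        refine ⟨⟨x, h2⟩, Rc.port ⟨hx, Or.inr h2⟩ ?_⟩
        change x ∈ V.filter (fun x => A v1 x)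
        rw [List.mem_filter]
        exact ⟨(mem_topD.1 h2).1, (mem_topD.1 h2).2.1⟩
      rcases hxh with h2 | h2
      · have h3 := mem_far.1 (comp_far h2)
        have hy1 : y ≠ v1 := by
          rintro rfl
          rw [hA _ _ hxy.1] at h3
          simp at h3
        have hyh : y ∈ compL A (far A V v1) h ∨ y ∈ topD A V v1 h := by
          by_cases hx2 : A v1 y = true
          · exact Or.inr (mem_topD.2 ⟨hAV _ _ hxy.1, hx2, x, h2, hA _ _ hxy.1⟩)
          · exact Or.inl (far_closed hA h2
              (mem_far.2 ⟨hAV _ _ hxy.1, by simpa using hx2, hy1⟩) hxy.1)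
        obtain ⟨h4, h5⟩ := ih hxy.2.2 hyh
        exact ⟨h4, (Rc.edge (S := fun x => x ∈ S ∧ (x ∈ compL A (far A V v1) h ∨
          x ∈ topD A V v1 h)) hxy.1 ⟨hx, Or.inl h2⟩ ⟨hxy.2.2, hyh⟩).trans h5⟩
      · exact hport h2
  have hall : U.all (fun u => decide (u = v1) || A v1 u ||
      (topH A V v1).any (fun h => decide (u ∈ compL A (far A V v1) h))) = true := by
    rw [List.all_eq_true]
    intro u hu
    simp only [Bool.or_eq_true, decide_eq_true_eq, List.any_eq_true]
    by_cases h1 : u = v1
    · exact Or.inl (Or.inl h1)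
    by_cases h2 : A v1 u = true
    · exact Or.inl (Or.inr h2)
    right
    have h3 : u ∈ far A V v1 := mem_far.2 ⟨hS.sub u (hS.ter u hu), by simpa using h2, h1⟩
    obtain ⟨h, hh, huh⟩ := exists_head hA h3
    exact ⟨h, mem_topH.2 ⟨hh, (hexit h u (hS.ter u hu) (Or.inl huh)).1⟩, huh⟩
  have hrec : ∀ h ∈ topH A V v1, ∃ c ≤ cost w U (S.filter (fun x =>
      x ∈ compL A (far A V v1) h ∨ x ∈ topD A V v1 h)),
      F A (Kt t) w U t (compL A (far A V v1) h, topD A V v1 h,
        (topD A V v1 h).head?.getD 0, [V.filter (fun x => A v1 x)], []) = some c := by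
    intro h hh
    have hI := top_inv hA hirr hcl hV hAV hh
    refine F_complete hA hirr hcl hPt w hcut t 0 _ _ _ _ _ [v1]
      (fun x => x = v1 ∨ A v1 x = true) (by omega) hI ?_ ?_
    · refine ⟨?_, ?_, ?_, ?_, by simp, ?_, rfl, ?_⟩
      · intro r hr _ r' hr' _ _
        left
        refine ⟨0, by simp, ?_, ?_⟩
        · change r ∈ V.filter (fun x => A v1 x)
          rw [List.mem_filter]
          exact ⟨(mem_topD.1 hr).1, (mem_topD.1 hr).2.1⟩
        · change r' ∈ V.filter (fun x => A v1 x)
          rw [List.mem_filter]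
          exact ⟨(mem_topD.1 hr').1, (mem_topD.1 hr').2.1⟩
      · intro r hr
        exact Or.inr (mem_topD.1 hr).2.1
      · intro r hr x hrx
        by_cases h1 : x = v1
        · exact Or.inl (Or.inl h1)
        by_cases h2 : A v1 x = true
        · exact Or.inl (Or.inr h2)
        exact Or.inr (top_nb hA hirr hcl hAV hr hrx h1 (by simpa using h2))
      · intro I hI1 hI2
        by_contra hcard
        have h3 : 2 < I.card := by omega
        obtain ⟨a, b, c, ha, hb, hc, hab, hac, hbc⟩ := Finset.two_lt_card_iff.1 h3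
        have hv : v1 ∉ I := by
          intro hv
          have : ∀ x ∈ I, x = v1 := by
            intro x hx
            by_contra hne
            rcases hI1 x hx with h4 | h4
            · exact hne h4
            · rw [hI2 v1 hv x hx (Ne.symm hne)] at h4
              simp at h4
          exact hab ((this a ha).trans (this b hb).symm)
        have hadj : ∀ x ∈ I, A v1 x = true := by
          intro x hx
          rcases hI1 x hx with h4 | h4
          · exact absurd (h4 ▸ hx) hv
          · exact h4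
        rcases hcl v1 a b c (hadj a ha) (hadj b hb) (hadj c hc) hab hbc hac with h4 | h4 | h4
        · rw [hI2 a ha b hb hab] at h4; simp at h4
        · rw [hI2 b hb c hc hbc] at h4; simp at h4
        · rw [hI2 a ha c hc hac] at h4; simp at h4
      · exact ⟨hA _ _ (mem_topD.1 hI.vD).2.1, by simp, trivial⟩
      · intro x hx
        rw [List.mem_singleton] at hx
        subst hx
        exact ⟨fun h => (mem_far.1 (comp_far h)).2.2 rfl,
          fun c hc => (mem_far.1 (comp_far hc)).2.1⟩
    · refine ⟨fun x hx => hx.2, fun x hx hxU => ⟨hS.ter x hxU, hx⟩, ?_, by simp⟩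
      intro x hx
      exact ⟨0, by simp, (hexit h x hx.1 hx.2).2⟩
  obtain ⟨c, hc, hc'⟩ := sumO_map' _ _ _ hrec
  refine ⟨c, hc.trans ?_, ?_⟩
  · have h1 := cost_parts w U S (fun _ => True) (topH A V v1) ((heads_nodup (hV.filter _)).filter _)
      (fun h x => x ∈ compL A (far A V v1) h ∨ x ∈ topD A V v1 h) (fun _ _ _ _ => trivial)
      (fun h hh h' hh' x hx hx' => top_disj hA hirr hcl hAV (mem_topH.1 hh).1 (mem_topH.1 hh').1
        hx hx') [] List.nodup_nil (by simp)
    simpa using h1
  · unfold top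
    rw [if_pos hall]
    exact hc'

omit hA hirr hcl hV hAV

/-- Every solution contains an inclusion-minimal one. -/
theorem exists_min (hA : ∀ a b, A a b = true → A b a = true) {U : List ℕ} : ∀ (n : ℕ)
    (S : Finset ℕ), S.card ≤ n → Sol A V U S → ∃ S' ⊆ S, Sol A V U S' ∧ Cut A U S' := by
  intro n
  induction n with
  | zero =>
    intro S hn hS
    refine ⟨S, subset_rfl, hS, ?_⟩
    intro r hr
    have : S = ∅ := Finset.card_eq_zero.1 (by omega)
    rw [this] at hr
    exact absurd hr (Finset.notMem_empty _)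
  | succ n ih =>
    intro S hn hS
    by_cases hex : ∃ r ∈ S, r ∉ U ∧ Sol A V U (S.erase r)
    · obtain ⟨r, hr, _, hr2⟩ := hex
      obtain ⟨S', hS', h1, h2⟩ := ih (S.erase r) (by
        rw [Finset.card_erase_of_mem hr]; omega) hr2
      exact ⟨S', hS'.trans (Finset.erase_subset _ _), h1, h2⟩
    · refine ⟨S, subset_rfl, hS, ?_⟩
      intro r hr hrU i hi hir
      have hns : ¬ Sol A V U (S.erase r) := fun h => hex ⟨r, hr, hrU, h⟩
      have hpair : ∃ a ∈ S.erase r, ∃ b ∈ S.erase r,
          ¬ Rs (fun a b => A a b = true) (· ∈ S.erase r) a b := by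
        by_contra hcon
        push Not at hcon
        apply hns
        refine ⟨fun x hx => hS.sub x (Finset.mem_of_mem_erase hx), fun x hx =>
          Finset.mem_erase.2 ⟨fun h => hrU (h ▸ hx), hS.ter x hx⟩, ?_⟩
        exact hcon
      have hone : ∃ a ∈ S.erase r, ¬ Rs (fun a b => A a b = true) (· ∈ S.erase r) a i := by
        obtain ⟨a, ha, b, hb, hab⟩ := hpair
        by_cases h1 : Rs (fun a b => A a b = true) (· ∈ S.erase r) a i
        · refine ⟨b, hb, fun h2 => hab (h1.trans (h2.symm hA))⟩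
        · exact ⟨a, ha, h1⟩
      obtain ⟨a, ha, hai⟩ := hone
      have hpath := hS.conn a (Finset.mem_of_mem_erase ha) i hi
      have hiS : i ∈ S.erase r := Finset.mem_erase.2 ⟨hir, hi⟩
      induction hpath using ReflTransGen.head_induction_on with
      | refl => exact absurd (Rs.refl _) hai
      | @head x z hxz _ ihp =>
        by_cases hz : z = r
        · exact ⟨x, hxz.2.1, hA _ _ (hz ▸ hxz.1), hai⟩
        · have hzS : z ∈ S.erase r := Finset.mem_erase.2 ⟨hz, hxz.2.2⟩
          apply ihp hzS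
          intro h1
          exact hai ((Rs.single hxz.1 ha hzS).trans h1)

end

end Pool.Agent.H685R2.VST
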